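import Pool.Agent.HM3.SpecW

/-!
# HM3, AlexW: the Alexander polynomial, weighted family
-/

namespace Pool.Agent.HM3

open Polynomial Matrix

private theorem alex_comp {ι : Type} [Fintype ι] [DecidableEq ι] (V : Matrix ι ι ℤ) :
    (alexander V).comp (C (-1) * X) =
      (-1) ^ Fintype.card ι * (Matrix.of fun x y => C (V y x) + X * C (V x y)).det := by
  unfold alexander
  rw [← Polynomial.coe_compRingHom_apply, RingHom.map_det, ← Matrix.det_neg]
  congr 1
  ext1 i j
  simp only [RingHom.mapMatrix_apply, Matrix.map_apply, Matrix.sub_apply, Matrix.smul_apply,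
    smul_eq_mul, Matrix.transpose_apply, Matrix.neg_apply, Matrix.of_apply, map_sub, map_mul,
    Polynomial.coe_compRingHom_apply, X_comp, C_comp, map_neg, map_one]
  ring

theorem tAlexW (h : S_LoopsW) : S_AlexW := by
  intro N w k
  let s : Loop w → ℤ := fun x => if w x.1.2 then -1 else 1
  have hs : ∀ x, s x * s x = 1 := by
    intro x
    change (if w x.1.2 then (-1 : ℤ) else 1) * (if w x.1.2 then (-1 : ℤ) else 1) = 1
    split_ifs <;> rfl
  have hε : ((-1 : ℤ) ^ Fintype.card (Loop w) * ∏ x, s x) *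
      ((-1 : ℤ) ^ Fintype.card (Loop w) * ∏ x, s x) = 1 := by
    rw [mul_mul_mul_comm, ← mul_pow, ← Finset.prod_mul_distrib, Finset.prod_congr rfl
      fun x _ => hs x]
    simp
  have hdet : (((GG w).transpose * TTW w k * GG w).submatrix (fun x : Loop w => x.1.2)
      (fun x : Loop w => x.1.2)).det = C (∏ x, s x) *
      (Matrix.of fun x y : Loop w => C (seifertW w k y x) + X * C (seifertW w k x y)).det := by
    rw [map_prod, ← Matrix.det_diagonal, ← Matrix.det_mul]
    congr 1
    ext1 x y
    rw [Matrix.submatrix_apply, h N w k x y, Matrix.diagonal_mul, Matrix.of_apply]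
    change _ = C (if w x.1.2 then (-1 : ℤ) else 1) * _
    split_ifs
    · rw [map_neg, map_one]
    · rw [map_one]
  refine ⟨(-1 : ℤ) ^ Fintype.card (Loop w) * ∏ x, s x,
    Int.isUnit_iff.1 (IsUnit.of_mul_eq_one _ hε), fun j => ?_⟩
  have h1 := congrArg (fun p => Polynomial.coeff p j) (alex_comp (seifertW w k))
  simp only [Polynomial.comp_C_mul_X_coeff] at h1
  have h2 : ((-1 : ℤ[X]) ^ Fintype.card (Loop w)) = C ((-1 : ℤ) ^ Fintype.card (Loop w)) := by
    simp
  rw [h2, coeff_C_mul] at h1
  rw [hdet, coeff_C_mul]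
  have h3 : (-1 : ℤ) ^ j * (-1) ^ j = 1 := by
    rw [← mul_pow]
    simp
  have h4 : (∏ x, s x) * ∏ x, s x = 1 := by
    rw [← Finset.prod_mul_distrib, Finset.prod_congr rfl fun x _ => hs x]
    simp
  linear_combination (-1 : ℤ) ^ j * h1 - (alexander (seifertW w k)).coeff j * h3 -
    (-1 : ℤ) ^ j * (-1) ^ Fintype.card (Loop w) *
      (Matrix.of fun x y : Loop w => C (seifertW w k y x) + X * C (seifertW w k x y)).det.coeff j * h4

end Pool.Agent.HM3
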