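import Pool.Agent.HM3.SpecT

/-!
# HM3, BlkT: the trace of an alternating word, strict form (adapted from Blk)
-/

namespace Pool.Agent.HM3

open Polynomial Matrix

private theorem blkT_MM_append (u v : List Bool) : MM (u ++ v) = MM u * MM v := by
  induction u with
  | nil => simp [MM]
  | cons c u ih => rw [List.cons_append, MM, ih, MM, mul_assoc]

private theorem blkT_rot (u v : List Bool) : (MM (u ++ v)).trace = (MM (v ++ u)).trace := by
  rw [blkT_MM_append, blkT_MM_append, Matrix.trace_mul_comm]

private theorem blkT_br_succ (n : ℕ) : br (n + 1) = br n + X ^ n := by
  unfold br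
  rw [Finset.sum_range_succ]

private theorem blkT_br_succ' (n : ℕ) : br (n + 1) = 1 + X * br n := by
  unfold br
  rw [Finset.sum_range_succ', pow_zero, add_comm, Finset.mul_sum]
  congr 1
  exact Finset.sum_congr rfl fun i _ => pow_succ' X i

private theorem blkT_geom (n : ℕ) : (1 - X) * br n = 1 - X ^ n := by
  induction n with
  | zero => simp [br]
  | succ n ih =>
    rw [blkT_br_succ, mul_add, ih]
    ring

private theorem blkT_MM_true (n : ℕ) :
    MM (List.replicate n true) = !![1, X * br n; 0, X ^ n] := by
  induction n with
  | zero =>
    simp only [List.replicate_zero, MM, br, Finset.range_zero, Finset.sum_empty, mul_zero, pow_zero]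
    exact Matrix.one_fin_two
  | succ n ih =>
    rw [List.replicate_succ, MM, ih, blkT_br_succ]
    simp only [lt, if_true]
    ext i j : 1
    fin_cases i <;> fin_cases j <;> simp [Matrix.mul_apply, Fin.sum_univ_two] <;> ring

private theorem blkT_MM_false (n : ℕ) :
    MM (List.replicate n false) = !![1, 0; br n, X ^ n] := by
  induction n with
  | zero =>
    simp only [List.replicate_zero, MM, br, Finset.range_zero, Finset.sum_empty, pow_zero]
    exact Matrix.one_fin_two
  | succ n ih =>
    rw [List.replicate_succ, MM, ih, blkT_br_succ']
    simp only [lt]
    ext i j : 1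
    fin_cases i <;> fin_cases j <;> simp [Matrix.mul_apply, Fin.sum_univ_two] <;> ring

private theorem blkT_base (a b : ℕ) :
    (MM (List.replicate a true ++ List.replicate b false)).trace =
      X ^ a + X ^ b + kap * (br a * br b + 0) := by
  rw [blkT_MM_append, blkT_MM_true, blkT_MM_false, Matrix.trace_fin_two, Matrix.mul_fin_two]
  simp only [Matrix.of_apply, Matrix.cons_val_zero, Matrix.cons_val_one, Matrix.cons_val',
    Matrix.cons_val_fin_one]
  have h1 := blkT_geom a
  have h2 := blkT_geom b
  unfold kap
  linear_combination -((1 - X) * br b) * h1 - (1 - X ^ a) * h2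

theorem tBlkT (h1 : S_Swap) (h2 : S_RhoT) (h3 : S_OpsT) : S_BlkT := by
  obtain ⟨u0, uadd, ubr, uX, -, -, -⟩ := h3
  intro l
  induction l with
  | nil =>
    intro a b
    refine ⟨0, u0 _ _, ?_⟩
    have e1 : blk [(a, b)] = List.replicate (a + 1) true ++ List.replicate (b + 1) false := by
      simp [blk]
    have e2 : nA (blk [(a, b)]) = a + 1 := by
      rw [e1]
      simp [nA, List.count_append, List.count_replicate]
    have e3 : nB (blk [(a, b)]) = b + 1 := by
      rw [e1]
      simp [nB, List.count_append, List.count_replicate]
    rw [e2, e3, e1, blkT_base]
  | cons p l ih =>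
    obtain ⟨a', b'⟩ := p
    intro a b
    obtain ⟨G', hG', hT'⟩ := ih (a + a' + 1) (b + b' + 1)
    set u := blk l with hu
    set x : List Bool := List.replicate b' false ++ (u ++ List.replicate a true) with hx
    set W := blk ((a, b) :: (a', b') :: l) with hW
    set W' := blk ((a + a' + 1, b + b' + 1) :: l) with hW'
    have eW : W = List.replicate (a + 1) true ++ (List.replicate (b + 1) false ++
        (List.replicate (a' + 1) true ++ (List.replicate (b' + 1) false ++ u))) := by
      simp [hW, blk, hu]
    have eW' : W' = List.replicate (a + 1) true ++ (List.replicate (a' + 1) true ++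
        (List.replicate (b + 1) false ++ (List.replicate (b' + 1) false ++ u))) := by
      have f1 : List.replicate (a + a' + 1 + 1) true =
          List.replicate (a + 1) true ++ List.replicate (a' + 1) true := by
        rw [← List.replicate_add]
        congr 1
        omega
      have f2 : List.replicate (b + b' + 1 + 1) false =
          List.replicate (b + 1) false ++ List.replicate (b' + 1) false := by
        rw [← List.replicate_add]
        congr 1
        omega
      rw [hW', blk, f1, f2]
      simp only [List.append_assoc, hu]
    have eR : (List.replicate (b + 1) false ++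
        (List.replicate (a' + 1) true ++ (List.replicate (b' + 1) false ++ u))) ++
        List.replicate (a + 1) true =
        List.replicate (b + 1) false ++ (List.replicate (a' + 1) true ++
          (false :: (x ++ [true]))) := by
      rw [List.replicate_succ (n := b'), List.replicate_succ' (n := a), hx]
      simp
    have eR' : (List.replicate (a' + 1) true ++
        (List.replicate (b + 1) false ++ (List.replicate (b' + 1) false ++ u))) ++
        List.replicate (a + 1) true =
        List.replicate (a' + 1) true ++ (List.replicate (b + 1) false ++
          (false :: (x ++ [true]))) := by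
      rw [List.replicate_succ (n := b'), List.replicate_succ' (n := a), hx]
      simp
    have hsw := h1 (a' + 1) (b + 1) x
    rw [← eR, ← eR', blkT_rot _ (List.replicate (a + 1) true),
      blkT_rot _ (List.replicate (a + 1) true), ← eW, ← eW'] at hsw
    have hA : nA W = nA W' := by
      rw [eW, eW']
      simp only [nA, List.count_append]
      ring
    have hB : nB W = nB W' := by
      rw [eW, eW']
      simp only [nB, List.count_append]
      ring
    have hlen : W.length = W'.length := by
      rw [eW, eW']
      simp only [List.length_append]
      ring
    have hxl : W.length - 2 = x.length + b + a' + 2 := by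
      rw [eW, hx]
      simp only [List.length_append, List.length_replicate]
      omega
    refine ⟨G' + X * (br (a' + 1) * (br (b + 1) * rho x)), uadd _ _ _ _ ?_ ?_, ?_⟩
    · rw [hlen]
      exact hG'
    · rw [hxl]
      exact uX _ _ (ubr _ _ _ (ubr _ _ _ (h2 x)))
    · rw [hA, hB]
      linear_combination hT' + hsw

end Pool.Agent.HM3
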