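import Pool.Agent.HM3.Spec

/-! HM3, Chain. -/

namespace Pool.Agent.HM3

open Polynomial Matrix

theorem tChain : S_Chain := by
  intro n t i f ht hn h3 h4 h5
  have hstep : ∀ s, 2 * (s + 1) ≤ n → f s ≤ f (s + 1) := by
    intro s hs
    rcases h3 with h3 | h3
    · have h1 := h3 s (by omega)
      have h2 := h5 (s + 1) (by omega) (by omega)
      rw [show n + 1 - (s + 1) = n - s by omega] at h2
      exact h1.trans h2
    · have h1 := h4 (s + 1) (by omega) (by omega)
      rw [show s + 1 - 1 = s by omega] at h1
      exact h1.trans (h3 (s + 1) hs)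
  have hmono : ∀ d s, 2 * (s + d) ≤ n → f s ≤ f (s + d) := by
    intro d
    induction d with
    | zero => exact fun s _ => le_rfl
    | succ d ih =>
      intro s hs
      exact (ih s (by omega)).trans (hstep (s + d) (by omega))
  have hm : ∀ s r, s ≤ r → 2 * r ≤ n → f s ≤ f r := by
    intro s r hsr hr
    have h := hmono (r - s) s (by omega)
    rwa [show s + (r - s) = r by omega] at h
  by_cases hk : 2 * (n - t - i) ≤ n
  · exact hm _ _ (by omega) hk
  rcases h3 with h3 | h3
  · have h1 := h3 (t + i) (by omega)
    rw [show n - (t + i) = n - t - i by omega] at h1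
    exact (hm i (t + i) (by omega) (by omega)).trans h1
  · have h1 := h4 (t + i) (by omega) (by omega)
    rw [show n - (t + i) = n - t - i by omega] at h1
    exact (hm i (t + i - 1) (by omega) (by omega)).trans h1

end Pool.Agent.HM3
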