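import Pool.Agent.HM3.SpecT

/-! HM3, ChainT: the strict form of Chain. -/

namespace Pool.Agent.HM3

open Polynomial Matrix

theorem tChainT : S_ChainT := by
  intro n t i f ht hn h3 h3' h4 h4' h5 h5' hfi
  have hstep : ∀ s, 2 * (s + 1) ≤ n → f s ≤ f (s + 1) := by
    intro s hs
    rcases h3 with h3 | h3
    · have h1 := h3 s (by omega)
      have h2 := h5 (s + 1) (by omega) (by omega)
      rw [show n + 1 - (s + 1) = n - s by omega] at h2
      exact h1.trans h2
    · have h1 := h4 (s + 1) (by omega) (by omega)
      rw [show s + 1 - 1 = s by omega] at h1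
      exact h1.trans (h3 (s + 1) hs)
  have hmono : ∀ d s, 2 * (s + d) ≤ n → f s ≤ f (s + d) := by
    intro d
    induction d with
    | zero => exact fun s _ => le_rfl
    | succ d ih =>
      intro s hs
      exact (ih s (by omega)).trans (hstep (s + d) (by omega))
  have hm : ∀ s r, s ≤ r → 2 * r ≤ n → f s ≤ f r := by
    intro s r hsr hr
    have h := hmono (r - s) s (by omega)
    rwa [show s + (r - s) = r by omega] at h
  -- the last step
  have fin : (∀ b, i + 1 ≤ b → 2 * b ≤ n → f b = f (b - 1)) →
      (∀ b, i + 1 ≤ b → 2 * b ≤ n + 1 → f (b - 1) = f (n - b)) →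
      f (i + 1) = f (n - t - (i + 1)) := by
    intro hc he
    have hconst : ∀ d, 2 * (i + d) ≤ n → f (i + d) = f i := by
      intro d
      induction d with
      | zero => exact fun _ => rfl
      | succ d ih =>
        intro hd
        have h := hc (i + (d + 1)) (by omega) hd
        rw [show i + (d + 1) - 1 = i + d by omega] at h
        rw [h, ih (by omega)]
    rw [hconst 1 (by omega)]
    by_cases h : 2 * (n - t - (i + 1)) ≤ n
    · have h6 := hconst (n - t - (i + 1) - i) (by omega)
      rw [show i + (n - t - (i + 1) - i) = n - t - (i + 1) by omega] at h6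
      exact h6.symm
    · have h6 := he (i + t + 1) (by omega) (by omega)
      rw [show i + t + 1 - 1 = i + t by omega, show n - (i + t + 1) = n - t - (i + 1) by omega,
        hconst t (by omega)] at h6
      exact h6
  by_cases hk : 2 * (n - t - i) ≤ n
  · have a1 := hm i (i + 1) (by omega) (by omega)
    have a2 := hm (i + 1) (n - t - (i + 1)) (by omega) (by omega)
    have a3 := hm (n - t - (i + 1)) (n - t - i) (by omega) hk
    exact le_antisymm a2 (by rw [← hfi] at a3; exact a3.trans a1)
  rcases h3 with h3 | h3
  · have h1 := h3 (t + i) (by omega)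
    rw [show n - (t + i) = n - t - i by omega, ← hfi] at h1
    have a1 := hm i (i + 1) (by omega) (by omega)
    have a2 := hm (i + 1) (i + 2) (by omega) (by omega)
    have a3 := hm (i + 2) (t + i) (by omega) (by omega)
    have b1 := h3 (i + 1) (by omega)
    have b2 := h5 (i + 2) (by omega) (by omega)
    rw [show n + 1 - (i + 2) = n - (i + 1) by omega] at b2
    have he : ∀ b, i + 1 ≤ b → 2 * b ≤ n + 1 → f (b - 1) = f (n - b) := by
      intro b hb hb2
      refine h4' (i + 1) b (by omega) hb hb2 ?_
      rw [show i + 1 - 1 = i by omega]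
      omega
    refine fin ?_ he
    intro b hb hb2
    have c1 := h3 b hb2
    have c2 := he b hb (by omega)
    have c3 := hm (b - 1) b (by omega) hb2
    omega
  · have h1 := h4 (t + i) (by omega) (by omega)
    rw [show n - (t + i) = n - t - i by omega, ← hfi] at h1
    have a1 := hm i (i + 1) (by omega) (by omega)
    have a2 := hm (i + 1) (t + i - 1) (by omega) (by omega)
    have b1 := h4 (i + 1) (by omega) (by omega)
    rw [show i + 1 - 1 = i by omega] at b1
    have b2 := h3 (i + 1) (by omega)
    have he : ∀ b, i + 1 ≤ b → 2 * b ≤ n + 1 → f (b - 1) = f (n - b) := by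
      intro b hb hb2
      refine h4' (i + 1) b (by omega) hb hb2 ?_
      rw [show i + 1 - 1 = i by omega]
      omega
    refine fin ?_ he
    by_cases hh : ∀ j, i + 1 ≤ j → 2 * j ≤ n → f j = f (n - j)
    · intro b hb hb2
      rw [hh b hb hb2, he b hb (by omega)]
    · push Not at hh
      obtain ⟨c, hc1, hc2, hc3⟩ := hh
      have hi : f i = f (n - i) := by
        by_contra hcon
        exact hc3 (h3' i (i + 1) c (by omega) hc1 hc2 hcon (by omega))
      intro b hb hb2
      have d1 := h5' (i + 1) b (by omega) hb (by omega) (by
        rw [show n + 1 - (i + 1) = n - i by omega]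
        omega)
      have d2 := h3 (b - 1) (by omega)
      rw [show n - (b - 1) = n + 1 - b by omega] at d2
      have d3 := hm (b - 1) b (by omega) hb2
      omega

end Pool.Agent.HM3
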