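import Pool.Agent.HM3.Spec

/-!
# HM3, modules Conj and Id (helper26)
-/

namespace Pool.Agent.HM3

open Polynomial Matrix

private theorem Conj_t (w : List Bool) : ea (true :: w) = ea w + X * ec w ∧ eb (true :: w) = eb w + X * ed w ∧
    ec (true :: w) = X * ec w ∧ ed (true :: w) = X * ed w := by
  refine ⟨?_, ?_, ?_, ?_⟩ <;> simp [ea, eb, ec, ed, MM, lt, Matrix.mul_apply, Fin.sum_univ_two]

private theorem Conj_f (w : List Bool) : ea (false :: w) = ea w ∧ eb (false :: w) = eb w ∧
    ec (false :: w) = ea w + X * ec w ∧ ed (false :: w) = eb w + X * ed w := by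
  refine ⟨?_, ?_, ?_, ?_⟩ <;> simp [ea, eb, ec, ed, MM, lt, Matrix.mul_apply, Fin.sum_univ_two]

private theorem Conj_st (w : List Bool) : sw (true :: w) = false :: sw w := rfl

private theorem Conj_sf (w : List Bool) : sw (false :: w) = true :: sw w := rfl

theorem tConj : S_Conj := by
  intro w
  induction w with
  | nil =>
    refine ⟨?_, ?_, ?_, ?_⟩ <;> simp [ea, eb, ec, ed, MM, sw]
  | cons c w ih =>
    obtain ⟨h1, h2, h3, h4⟩ := ih
    cases c with
    | true =>
      obtain ⟨e1, e2, e3, e4⟩ := Conj_t w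
      obtain ⟨f1, f2, f3, f4⟩ := Conj_f (sw w)
      rw [Conj_st, e1, e2, e3, e4, f1, f2, f3, f4]
      refine ⟨?_, ?_, ?_, ?_⟩
      · linear_combination h3 + X * h1
      · linear_combination h4 + X * h2
      · linear_combination h3
      · linear_combination h4
    | false =>
      obtain ⟨e1, e2, e3, e4⟩ := Conj_f w
      obtain ⟨f1, f2, f3, f4⟩ := Conj_t (sw w)
      rw [Conj_sf, e1, e2, e3, e4, f1, f2, f3, f4]
      refine ⟨?_, ?_, ?_, ?_⟩
      · linear_combination X * h1
      · linear_combination X * h2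
      · linear_combination h3 + X * h1
      · linear_combination h4 + X * h2

private theorem Conj_app (u v : List Bool) : MM (u ++ v) = MM u * MM v := by
  induction u with
  | nil => simp [MM]
  | cons c u ih =>
    change lt c * MM (u ++ v) = lt c * MM u * MM v
    rw [ih, Matrix.mul_assoc]

private theorem Conj_at (w : List Bool) : ea (w ++ [true]) = ea w ∧ eb (w ++ [true]) = X * (ea w + eb w) ∧
    ec (w ++ [true]) = ec w ∧ ed (w ++ [true]) = X * (ec w + ed w) := by
  refine ⟨?_, ?_, ?_, ?_⟩ <;>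
    simp only [ea, eb, ec, ed, Conj_app] <;> simp [MM, lt, Matrix.mul_apply, Fin.sum_univ_two] <;> ring

private theorem Conj_af (w : List Bool) : ea (w ++ [false]) = ea w + eb w ∧ eb (w ++ [false]) = X * eb w ∧
    ec (w ++ [false]) = ec w + ed w ∧ ed (w ++ [false]) = X * ed w := by
  refine ⟨?_, ?_, ?_, ?_⟩ <;>
    simp only [ea, eb, ec, ed, Conj_app] <;> simp [MM, lt, Matrix.mul_apply, Fin.sum_univ_two] <;> ring

private theorem Conj_sapp (w : List Bool) (c : Bool) : sw (w ++ [c]) = sw w ++ [!c] := by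
  unfold sw
  rw [List.map_append]
  rfl

private theorem Conj_kap : kap ≠ 0 := by
  intro h
  have h1 := congrArg (Polynomial.eval 0) h
  simp [kap] at h1

theorem tId (h : S_Conj) : S_Id := by
  intro w
  obtain ⟨h1, h2, h3, h4⟩ := h w
  have K1 : kap * ed (sw w) = X * ea w - X * (1 - X) * ec w - (1 - X) * eb w + (1 - X) ^ 2 * ed w := by
    unfold kap
    linear_combination X * h1 - (1 - X) * h2
  have K2 : kap * ec (sw w) = (1 - X) * ea w + eb w - (1 - X) ^ 2 * ec w - (1 - X) * ed w := by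
    unfold kap
    linear_combination (1 - X) * h1 + h2
  have K3 : kap * eb (sw w) = X * (1 - X) * ea w + X ^ 2 * ec w - (1 - X) ^ 2 * eb w -
      X * (1 - X) * ed w := by
    unfold kap
    linear_combination X * h3 - (1 - X) * h4
  have K4 : kap * ea (sw w) = (1 - X) ^ 2 * ea w + X * (1 - X) * ec w + (1 - X) * eb w + X * ed w := by
    unfold kap
    linear_combination (1 - X) * h3 + h4
  have hk : (1 - X + X ^ 2 : ℤ[X]) ≠ 0 := Conj_kap
  unfold kap at K1 K2 K3 K4
  refine ⟨?_, ?_, ?_, ?_, ?_⟩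
  · unfold rho kap
    linear_combination K2
  · apply mul_left_cancel₀ hk
    unfold rho
    linear_combination (1 - X) * K2 - K4
  · apply mul_left_cancel₀ hk
    unfold ff
    linear_combination K4 + K3 + X * K2 + (X + X ^ 2) * K1
  · intro c
    cases c with
    | true =>
      obtain ⟨e1, e2, e3, e4⟩ := Conj_t (w ++ [true])
      obtain ⟨g1, g2, g3, g4⟩ := Conj_at w
      obtain ⟨f1, f2, f3, f4⟩ := Conj_f (sw w ++ [false])
      obtain ⟨i1, i2, i3, i4⟩ := Conj_af (sw w)
      apply mul_left_cancel₀ hk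
      rw [Conj_st, Conj_sapp, Bool.not_true]
      unfold ff
      rw [e1, e2, e3, e4, g1, g2, g3, g4, f1, f2, f3, f4, i1, i2, i3, i4]
      linear_combination -K4 - (1 + X + X ^ 2) * K3 - X ^ 3 * K1
    | false =>
      obtain ⟨e1, e2, e3, e4⟩ := Conj_f (w ++ [false])
      obtain ⟨g1, g2, g3, g4⟩ := Conj_af w
      obtain ⟨f1, f2, f3, f4⟩ := Conj_t (sw w ++ [true])
      obtain ⟨i1, i2, i3, i4⟩ := Conj_at (sw w)
      apply mul_left_cancel₀ hk
      rw [Conj_sf, Conj_sapp, Bool.not_false]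
      unfold ff
      rw [e1, e2, e3, e4, g1, g2, g3, g4, f1, f2, f3, f4, i1, i2, i3, i4]
      linear_combination -K4 - (X + X ^ 2 + X ^ 3) * K2 - X ^ 3 * K1
  · obtain ⟨e1, e2, e3, e4⟩ := Conj_f (w ++ [true])
    obtain ⟨g1, g2, g3, g4⟩ := Conj_at w
    obtain ⟨f1, f2, f3, f4⟩ := Conj_t (sw w ++ [false])
    obtain ⟨i1, i2, i3, i4⟩ := Conj_af (sw w)
    apply mul_left_cancel₀ hk
    rw [Conj_sf, Conj_sapp, Bool.not_true]
    unfold ff
    rw [e1, e2, e3, e4, g1, g2, g3, g4, f1, f2, f3, f4, i1, i2, i3, i4]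
    linear_combination -(1 + X) * K4 - (1 + X) * K3 - (X + X ^ 2) * K2 - (X + 2 * X ^ 2 + X ^ 3) * K1

end Pool.Agent.HM3
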