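import Pool.Agent.HM3.SpecT

/-!
# HM3, Deduce: the two forms of the final theorem
-/

namespace Pool.Agent.HM3

open Polynomial Matrix

/-- The Hirasawa-Murasugi inequality. -/
theorem dedHM (h : S_FinalT) : ∀ (n : ℕ) (w : Fin (2 * n + 2) → Bool) (k : Fin (2 * n + 2) → ℕ),
    (∃ i, w i = true) → (∃ i, w i = false) →
    (∀ j, j ≤ 2 * n → 0 < (-1 : ℤ) ^ j * (alexander (seifertW w k)).coeff j *
      (alexander (seifertW w k)).coeff 0) ∧
    (∀ j, 2 * n < j → (alexander (seifertW w k)).coeff j = 0) ∧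
    ∀ m : ℕ, m ≤ n →
      (∀ j, n ≤ j + m → j ≤ n + m →
        |(alexander (seifertW w k)).coeff j| = |(alexander (seifertW w k)).coeff n|) →
      2 * (m : ℤ) ≤ |signature (seifertW w k)| := by
  intro n w k h1 h2
  obtain ⟨ha, hb, s, hs, h3, _, _, h6⟩ := h (2 * n) w k h1 h2
  refine ⟨ha, hb, fun m hm hf => ?_⟩
  have hms : m + s ≤ n := by
    by_contra hcon
    have hm1 : 1 ≤ m := by omega
    have e1 := hf (n - m) (by omega) (by omega)
    have e2 := hf (n - m + 1) (by omega) (by omega)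
    have e3 := h3 (n - m) (by omega)
    rw [e1, e2] at e3
    exact lt_irrefl _ e3
  have h7 : (2 * (m : ℤ)) ≤ ((2 * n : ℕ) : ℤ) - 2 * s := by
    push_cast
    have : (m : ℤ) + s ≤ n := by exact_mod_cast hms
    linarith
  exact le_trans h7 h6

/-- Fox's trapezoidal pattern. -/
theorem dedFox (h : S_FinalT) : ∀ (N : ℕ) (w : Fin (N + 2) → Bool) (k : Fin (N + 2) → ℕ),
    (∃ i, w i = true) → (∃ i, w i = false) →
    (∀ j, j ≤ N → 0 < (-1 : ℤ) ^ j * (alexander (seifertW w k)).coeff j *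
      (alexander (seifertW w k)).coeff 0) ∧
    (∀ j, N < j → (alexander (seifertW w k)).coeff j = 0) ∧
    ∃ s : ℕ, 2 * s ≤ N ∧
      (∀ j, j < s →
        |(alexander (seifertW w k)).coeff j| < |(alexander (seifertW w k)).coeff (j + 1)|) ∧
      (∀ j, s ≤ j → j + s ≤ N →
        |(alexander (seifertW w k)).coeff j| = |(alexander (seifertW w k)).coeff s|) ∧
      (∀ j, N ≤ j + s → j < N →
        |(alexander (seifertW w k)).coeff (j + 1)| < |(alexander (seifertW w k)).coeff j|) := by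
  intro N w k h1 h2
  obtain ⟨ha, hb, s, hs, h3, h4, h5, _⟩ := h N w k h1 h2
  exact ⟨ha, hb, s, hs, h3, h4, h5⟩

end Pool.Agent.HM3
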