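import Mathlib

/-!
# HM3, Defs: closed alternating 3-braids

The Hirasawa-Murasugi inequality (MP_29c64e_gt) for closed alternating 3-braids.
A word is a list (or a function on `Fin N`) of letters; `true` is `σ₁`, `false` is `σ₂⁻¹`.
-/

namespace Pool.Agent.HM3

open Polynomial Matrix

/-! ## Part 1: the 2 x 2 matrices -/

/-- The letter matrices over `ℤ[y]`, `y = X`. -/
noncomputable def lt (c : Bool) : Matrix (Fin 2) (Fin 2) ℤ[X] :=
  if c then !![1, X; 0, X] else !![1, 0; 1, X]

/-- The matrix of a word. -/
noncomputable def MM : List Bool → Matrix (Fin 2) (Fin 2) ℤ[X]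
  | [] => 1
  | c :: w => lt c * MM w

/-- The four entries `a, b, c, d`. -/
noncomputable def ea (w : List Bool) : ℤ[X] := MM w 0 0
noncomputable def eb (w : List Bool) : ℤ[X] := MM w 0 1
noncomputable def ec (w : List Bool) : ℤ[X] := MM w 1 0
noncomputable def ed (w : List Bool) : ℤ[X] := MM w 1 1

/-- The exchange of the two letters. -/
def sw (w : List Bool) : List Bool := w.map not

/-- `f = a + b + y (c + d)`: the rank polynomial of the fence poset with `|w| + 1` elements. -/
noncomputable def ff (w : List Bool) : ℤ[X] := ea w + eb w + X * (ec w + ed w)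

/-- `ρ = c + d + c'`, `c'` for the exchanged word. -/
noncomputable def rho (w : List Bool) : ℤ[X] := ec w + ed w + ec (sw w)

/-- `κ = 1 - y + y²`. -/
noncomputable def kap : ℤ[X] := 1 - X + X ^ 2

/-- `[n] = 1 + y + .. + y^(n-1)`. -/
noncomputable def br (n : ℕ) : ℤ[X] := ∑ i ∈ Finset.range n, X ^ i

/-- Nonnegative lower half (center `m / 2`). -/
def Low (m : ℕ) (f : ℤ[X]) : Prop := ∀ j, 2 * j ≤ m → 0 ≤ f.coeff j

/-- Symmetric (center `d / 2`), nonnegative and nondecreasing up to the middle. -/
def Uni (d : ℕ) (f : ℤ[X]) : Prop :=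
  (∀ j, d < j → f.coeff j = 0) ∧ (∀ i j, i + j = d → f.coeff i = f.coeff j) ∧
    0 ≤ f.coeff 0 ∧ ∀ j, 2 * (j + 1) ≤ d → f.coeff j ≤ f.coeff (j + 1)

/-- The word `A^(a+1) B^(b+1) ..` of a list of pairs. -/
def blk : List (ℕ × ℕ) → List Bool
  | [] => []
  | (a, b) :: l => List.replicate (a + 1) true ++ List.replicate (b + 1) false ++ blk l

/-- The numbers of letters. -/
def nA (w : List Bool) : ℕ := w.count true
def nB (w : List Bool) : ℕ := w.count false

/-! ## Part 2: the Seifert matrix -/

variable {N : ℕ}

/-- `j < k` are consecutive crossings of the same column. -/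
def IsPrev (w : Fin N → Bool) (j k : Fin N) : Prop :=
  j < k ∧ w j = w k ∧ ∀ i, j < i → i < k → w i ≠ w k

instance (w : Fin N → Bool) (j k : Fin N) : Decidable (IsPrev w j k) := by
  unfold IsPrev; infer_instance

/-- The loops of the standard Seifert surface of the closed braid (three disks, one band for every
crossing): for two consecutive crossings `j < k` of the same column the loop through both bands. -/
abbrev Loop (w : Fin N → Bool) : Type := {x : Fin N × Fin N // IsPrev w x.1 x.2}

/-- The Seifert matrix of the closed braid in the basis of the loops. -/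
def seifert (w : Fin N → Bool) : Matrix (Loop w) (Loop w) ℤ := fun x y =>
  match w x.1.2, w y.1.2 with
  | true, true => if x = y then -1 else if y.1.2 = x.1.1 then 1 else 0
  | false, false => if x = y then 1 else if x.1.2 = y.1.1 then -1 else 0
  | false, true =>
      if y.1.1 < x.1.1 ∧ x.1.1 < y.1.2 ∧ y.1.2 < x.1.2 then -1
      else if x.1.1 < y.1.1 ∧ y.1.1 < x.1.2 ∧ x.1.2 < y.1.2 then 1 else 0
  | true, false => 0

/-- The Alexander polynomial `det (t V - Vᵀ)`. -/
noncomputable def alexander {ι : Type*} [Fintype ι] [DecidableEq ι] (V : Matrix ι ι ℤ) : ℤ[X] :=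
  ((X : ℤ[X]) • V.map C - V.transpose.map C).det

theorem sym_herm {ι : Type*} (V : Matrix ι ι ℤ) :
    ((V + V.transpose).map (Int.cast : ℤ → ℝ)).IsHermitian := by
  ext i j
  simp [Matrix.conjTranspose_apply, add_comm]

/-- Number of positive eigenvalues of `V + Vᵀ`. -/
noncomputable def posCount {ι : Type*} [Fintype ι] [DecidableEq ι] (V : Matrix ι ι ℤ) : ℕ :=
  (Finset.univ.filter fun i => 0 < (sym_herm V).eigenvalues i).card

/-- Number of negative eigenvalues of `V + Vᵀ`. -/
noncomputable def negCount {ι : Type*} [Fintype ι] [DecidableEq ι] (V : Matrix ι ι ℤ) : ℕ :=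
  (Finset.univ.filter fun i => (sym_herm V).eigenvalues i < 0).card

/-- The signature of `V + Vᵀ`. -/
noncomputable def signature {ι : Type*} [Fintype ι] [DecidableEq ι] (V : Matrix ι ι ℤ) : ℤ :=
  (posCount V : ℤ) - (negCount V : ℤ)

/-- The numbers of letters of a word `w : Fin N → Bool`. -/
def cA (w : Fin N → Bool) : ℕ := (Finset.univ.filter fun i => w i = true).card
def cB (w : Fin N → Bool) : ℕ := (Finset.univ.filter fun i => w i = false).card

/-- Positions without a predecessor. -/
def IsFst (w : Fin N → Bool) (k : Fin N) : Prop := ∀ j, j < k → w j ≠ w k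

instance (w : Fin N → Bool) (k : Fin N) : Decidable (IsFst w k) := by
  unfold IsFst; infer_instance

/-- `G = 1 - (the matrix of IsPrev)`. -/
noncomputable def GG (w : Fin N → Bool) : Matrix (Fin N) (Fin N) ℤ[X] := fun i k =>
  (if i = k then 1 else 0) - (if IsPrev w i k then 1 else 0)

/-- The triangular matrix `T` (rows `k`, columns `l ≤ k`). -/
noncomputable def TT (w : Fin N → Bool) : Matrix (Fin N) (Fin N) ℤ[X] := fun k l =>
  if k = l then (if w k then 1 else X)
  else if l < k then
    (match w k, w l with
      | true, true => 1 - X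
      | false, false => X - 1
      | true, false => -1
      | false, true => -X)
  else 0

end Pool.Agent.HM3
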