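import Pool.Agent.HM3.Defs

/-!
# HM3, DefsW: bands with `2 k + 1` half twists

The extension of the family of HM3 from closed alternating 3-braids to the links which bound three disks
joined by bands with odd numbers of half twists (every crossing of the closed alternating 3-braid is
replaced by `2 k + 1` crossings of two antiparallel strands).
-/

namespace Pool.Agent.HM3

open Polynomial Matrix

/-- `1 + k (1 + y)` and `y + k (1 + y)`. -/
noncomputable def dA (k : ℕ) : ℤ[X] := 1 + (k : ℤ[X]) * (1 + X)
noncomputable def dB (k : ℕ) : ℤ[X] := X + (k : ℤ[X]) * (1 + X)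

/-- The matrix of a weighted letter and of a weighted word. -/
noncomputable def ltW (c : Bool × ℕ) : Matrix (Fin 2) (Fin 2) ℤ[X] :=
  lt c.1 + ((c.2 : ℤ[X]) * (1 + X)) • (1 : Matrix (Fin 2) (Fin 2) ℤ[X])
noncomputable def MMW : List (Bool × ℕ) → Matrix (Fin 2) (Fin 2) ℤ[X]
  | [] => 1
  | c :: w => ltW c * MMW w

/-- The weighted analogues of `X ^ nA` and `X ^ nB`. -/
noncomputable def pA : List (Bool × ℕ) → ℤ[X]
  | [] => 1
  | c :: w => (if c.1 then dB c.2 else dA c.2) * pA w
noncomputable def pB : List (Bool × ℕ) → ℤ[X]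
  | [] => 1
  | c :: w => (if c.1 then dA c.2 else dB c.2) * pB w

variable {N : ℕ}

/-- The reversed word with exchanged letters. -/
def rw' (w : Fin N → Bool) (k : Fin N → ℕ) : List (Bool × ℕ) :=
  (List.ofFn fun j => (!w j, k j)).reverse

/-- The Seifert matrix, in the basis of the loops, of the surface which consists of three disks, where
the band of the crossing `c` has `2 k c + 1` half twists. For `k = 0` it is the Seifert matrix
of the closed braid. -/
def seifertW (w : Fin N → Bool) (k : Fin N → ℕ) : Matrix (Loop w) (Loop w) ℤ := fun x y =>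
  match w x.1.2, w y.1.2 with
  | true, true => if x = y then -(1 + (k x.1.1 : ℤ) + k x.1.2) else if y.1.2 = x.1.1 then 1 + k x.1.1
      else if x.1.2 = y.1.1 then k y.1.1 else 0
  | false, false => if x = y then 1 + (k x.1.1 : ℤ) + k x.1.2 else if x.1.2 = y.1.1 then -(1 + k y.1.1)
      else if y.1.2 = x.1.1 then -k x.1.1 else 0
  | false, true =>
      if y.1.1 < x.1.1 ∧ x.1.1 < y.1.2 ∧ y.1.2 < x.1.2 then -1
      else if x.1.1 < y.1.1 ∧ y.1.1 < x.1.2 ∧ x.1.2 < y.1.2 then 1 else 0
  | true, false => 0

/-- The triangular matrix `T` with weights. -/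
noncomputable def TTW (w : Fin N → Bool) (k : Fin N → ℕ) : Matrix (Fin N) (Fin N) ℤ[X] := fun i j =>
  TT w i j + if i = j then (k i : ℤ[X]) * (1 + X) else 0

/-- `det T` and its companion. -/
noncomputable def p0 (w : Fin N → Bool) (k : Fin N → ℕ) : ℤ[X] :=
  ∏ i, if w i then dA (k i) else dB (k i)
noncomputable def p1 (w : Fin N → Bool) (k : Fin N → ℕ) : ℤ[X] :=
  ∏ i, if w i then dB (k i) else dA (k i)

end Pool.Agent.HM3
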