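import Pool.Agent.HM3.SpecW

set_option autoImplicit false

namespace Pool.Agent.HM3

open Polynomial Matrix

private def cc (b : Bool) : Fin 2 := if b then 1 else 0

private theorem DetW_cc {a b : Bool} (h : cc a = cc b) : a = b := by
  cases a <;> cases b <;> first | rfl | exact absurd h (by decide)

/-- the indicators of the two letters -/
private noncomputable def UU {N : ℕ} (w : Fin N → Bool) : Matrix (Fin 2) (Fin N) ℤ[X] :=
  fun c j => if cc (w j) = c then 1 else 0

private noncomputable def LL : Matrix (Fin 2) (Fin 2) ℤ[X] := !![1 - X, X; 1, X - 1]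

private theorem DetW_prev {N : ℕ} (w : Fin N → Bool) (k : Fin N) (h : ¬ IsFst w k) :
    ∃ p, IsPrev w p k := by
  have h1 : ∃ j, j < k ∧ w j = w k := by
    by_contra hcon
    refine h fun j hj hw => hcon ⟨j, hj, hw⟩
  obtain ⟨j0, hj0⟩ := h1
  obtain ⟨p, hp, hmax⟩ := WellFounded.has_min (wellFounded_gt (α := Fin N))
    {j | j < k ∧ w j = w k} ⟨j0, hj0⟩
  refine ⟨p, hp.1, hp.2, fun i hi hik hw => ?_⟩
  exact hmax i ⟨hik, hw⟩ hi

private theorem DetW_prev_uniq {N : ℕ} (w : Fin N → Bool) (k p q : Fin N) (h : IsPrev w p k)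
    (h' : IsPrev w q k) : p = q := by
  rcases lt_trichotomy p q with hlt | heq | hgt
  · exact absurd h'.2.1 (h.2.2 q hlt h'.1)
  · exact heq
  · exact absurd h.2.1 (h'.2.2 p hgt h.1)

private theorem DetW_fst_uniq {N : ℕ} (w : Fin N → Bool) (k l : Fin N) (h : IsFst w k)
    (h' : IsFst w l) (hw : w k = w l) : k = l := by
  rcases lt_trichotomy k l with hlt | heq | hgt
  · exact absurd hw (h' k hlt)
  · exact heq
  · exact absurd hw.symm (h l hgt)

private theorem DetW_exists_fst {N : ℕ} (w : Fin N → Bool) (c : Bool) (h : ∃ i, w i = c) :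
    ∃ k, IsFst w k ∧ w k = c := by
  obtain ⟨i, hi⟩ := h
  obtain ⟨k, hk, hmin⟩ := WellFounded.has_min (wellFounded_lt (α := Fin N))
    {j | w j = c} ⟨i, hi⟩
  refine ⟨k, fun j hj hw => ?_, hk⟩
  exact hmin j (hw.trans hk) hj

private theorem DetW_UG {N : ℕ} (w : Fin N → Bool) (c : Fin 2) (k : Fin N) :
    (UU w * GG w) c k = if cc (w k) = c ∧ IsFst w k then 1 else 0 := by
  rw [Matrix.mul_apply]
  have h1 : ∑ j, UU w c j * GG w j k =
      UU w c k - ∑ j, UU w c j * (if IsPrev w j k then 1 else 0) := by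
    have h2 : ∀ j, UU w c j * GG w j k = UU w c j * (if j = k then 1 else 0) -
        UU w c j * (if IsPrev w j k then 1 else 0) := by
      intro j
      unfold GG
      rw [mul_sub]
    rw [Finset.sum_congr rfl fun j _ => h2 j, Finset.sum_sub_distrib]
    congr 1
    simp
  rw [h1]
  by_cases h : IsFst w k
  · have h3 : ∑ j, UU w c j * (if IsPrev w j k then 1 else 0) = 0 := by
      refine Finset.sum_eq_zero fun j _ => ?_
      rw [if_neg, mul_zero]
      intro hp
      exact h j hp.1 hp.2.1
    rw [h3, sub_zero]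
    unfold UU
    simp [h]
  · obtain ⟨p, hp⟩ := DetW_prev w k h
    have h3 : ∑ j, UU w c j * (if IsPrev w j k then 1 else 0) = UU w c p := by
      rw [Finset.sum_eq_single p]
      · rw [if_pos hp, mul_one]
      · intro q _ hq
        rw [if_neg, mul_zero]
        intro hq'
        exact hq (DetW_prev_uniq w k q p hq' hp)
      · intro hp'
        exact absurd (Finset.mem_univ p) hp'
    rw [h3]
    have h4 : UU w c p = UU w c k := by
      unfold UU
      rw [hp.2.1]
    rw [h4, sub_self, if_neg]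
    exact fun h' => h h'.2

private theorem DetW_detG {N : ℕ} (w : Fin N → Bool) : (GG w).det = 1 := by
  rw [Matrix.det_of_isUpperTriangular]
  · refine Finset.prod_eq_one fun i _ => ?_
    unfold GG
    rw [if_pos rfl, if_neg, sub_zero]
    intro h
    exact absurd h.1 (lt_irrefl i)
  · intro i j hij
    have hij' : j < i := hij
    unfold GG
    rw [if_neg (ne_of_gt hij'), if_neg, sub_zero]
    intro h
    exact absurd h.1 (not_lt.2 hij'.le)

private theorem DetW_detT {N : ℕ} (w : Fin N → Bool) (k : Fin N → ℕ) :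
    (TTW w k).det = p0 w k := by
  rw [Matrix.det_of_isLowerTriangular]
  · unfold p0
    refine Finset.prod_congr rfl fun i _ => ?_
    unfold TTW TT dA dB
    rw [if_pos rfl, if_pos rfl]
    cases w i <;> rfl
  · intro i j hij
    have hij' : i < j := hij
    unfold TTW TT
    rw [if_neg (ne_of_lt hij'), if_neg (not_lt.2 hij'.le), if_neg (ne_of_lt hij'), add_zero]

private theorem DetW_detL : LL.det = - kap := by
  unfold LL kap
  rw [Matrix.det_fin_two_of]
  ring

private theorem DetW_detlt (c : Bool × ℕ) : (ltW c).det = dA c.2 * dB c.2 := by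
  obtain ⟨c, k⟩ := c
  rw [Matrix.det_fin_two]
  cases c
  · simp [ltW, lt, dA, dB]
  · simp [ltW, lt, dA, dB]

private theorem DetW_detM (l : List (Bool × ℕ)) :
    (MMW l).det = (l.map fun c => dA c.2 * dB c.2).prod := by
  induction l with
  | nil => simp [MMW]
  | cons c l ih =>
    show (ltW c * MMW l).det = _
    rw [Matrix.det_mul, ih, DetW_detlt, List.map_cons, List.prod_cons]

private theorem DetW_detMr {N : ℕ} (w : Fin N → Bool) (k : Fin N → ℕ) :
    (MMW (rw' w k)).det = p0 w k * p1 w k := by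
  rw [DetW_detM]
  unfold rw' p0 p1
  rw [List.map_reverse, List.prod_reverse, List.map_ofFn, List.prod_ofFn, ← Finset.prod_mul_distrib]
  refine Finset.prod_congr rfl fun i _ => ?_
  show dA (k i) * dB (k i) = _
  cases w i
  · rw [if_neg (by decide), if_neg (by decide), mul_comm]
  · rw [if_pos rfl, if_pos rfl]

private theorem DetW_p0 {N : ℕ} (w : Fin N → Bool) (k : Fin N → ℕ) : p0 w k ≠ 0 := by
  have hA : ∀ n : ℕ, dA n ≠ 0 := by
    intro n h
    have h1 := congrArg (Polynomial.eval 1) h
    simp [dA] at h1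
    have h2 : (0 : ℤ) ≤ n := Int.natCast_nonneg n
    linarith
  have hB : ∀ n : ℕ, dB n ≠ 0 := by
    intro n h
    have h1 := congrArg (Polynomial.eval 1) h
    simp [dB] at h1
    have h2 : (0 : ℤ) ≤ n := Int.natCast_nonneg n
    linarith
  unfold p0
  rw [Finset.prod_ne_zero_iff]
  intro i _
  split_ifs
  · exact hA _
  · exact hB _

/-- the two first positions -/
private noncomputable def DetW_e {N : ℕ} (w : Fin N → Bool) (h1 : ∃ i, w i = true)
    (h2 : ∃ i, w i = false) : {k : Fin N // IsFst w k} ≃ Fin 2 :=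
  Equiv.ofBijective (fun k => cc (w k.1)) (by
    constructor
    · intro k l h
      exact Subtype.ext (DetW_fst_uniq w k.1 l.1 k.2 l.2 (DetW_cc h))
    · intro c
      fin_cases c
      · obtain ⟨k, hk, hw⟩ := DetW_exists_fst w false h2
        refine ⟨⟨k, hk⟩, ?_⟩
        show cc (w k) = 0
        rw [hw]
        rfl
      · obtain ⟨k, hk, hw⟩ := DetW_exists_fst w true h1
        refine ⟨⟨k, hk⟩, ?_⟩
        show cc (w k) = 1
        rw [hw]
        rfl)

/-- the loops and the positions which are not first -/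
private noncomputable def DetW_l {N : ℕ} (w : Fin N → Bool) :
    Loop w ≃ {k : Fin N // ¬ IsFst w k} :=
  Equiv.ofBijective (fun x => ⟨x.1.2, fun h => h x.1.1 x.2.1 x.2.2.1⟩) (by
    constructor
    · intro x y h
      have h' : x.1.2 = y.1.2 := congrArg Subtype.val h
      have hy := y.2
      rw [← h'] at hy
      exact Subtype.ext (Prod.ext (DetW_prev_uniq w x.1.2 x.1.1 y.1.1 x.2 hy) h')
    · rintro ⟨k, hk⟩
      obtain ⟨p, hp⟩ := DetW_prev w k hk
      exact ⟨⟨(p, k), hp⟩, rfl⟩)

theorem tDetW (h : S_PhiW) : S_DetW := by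
  intro N w k hA hB
  obtain ⟨Φ, hT, hF, hTr⟩ := h N w k
  obtain ⟨M, hM⟩ : ∃ M, M = MMW (rw' w k) := ⟨_, rfl⟩
  obtain ⟨p, hp⟩ : ∃ p, p = p0 w k := ⟨_, rfl⟩
  obtain ⟨G, hG⟩ : ∃ G, G = GG w := ⟨_, rfl⟩
  obtain ⟨T, hTT⟩ : ∃ T, T = TTW w k := ⟨_, rfl⟩
  obtain ⟨U, hU⟩ : ∃ U, U = UU w := ⟨_, rfl⟩
  rw [← hM] at hF hTr ⊢
  rw [← hp] at hF hTr hT ⊢
  rw [← hTT] at hT ⊢
  rw [← hG]
  have hdG : G.det = 1 := by rw [hG, DetW_detG]
  have hdT : T.det = p := by rw [hTT, DetW_detT, hp]
  have hUG : ∀ c i, (U * G) c i = if cc (w i) = c ∧ IsFst w i then 1 else 0 := by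
    intro c i
    rw [hU, hG]
    exact DetW_UG w c i
  -- the products
  have hUΦ : U * Φ = M - p • (1 : Matrix (Fin 2) (Fin 2) ℤ[X]) := by
    have e0 : ∀ i, (U * Φ) 0 i = M 0 i - (if i = 0 then p else 0) := by
      intro i
      rw [← hF i, Matrix.mul_apply, hU]
      refine Finset.sum_congr rfl fun j _ => ?_
      unfold UU
      cases w j
      · simp [cc]
      · simp [cc]
    have e1 : ∀ i, (U * Φ) 1 i = M 1 i - (if i = 1 then p else 0) := by
      intro i
      rw [← hTr i, Matrix.mul_apply, hU]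
      refine Finset.sum_congr rfl fun j _ => ?_
      unfold UU
      cases w j
      · simp [cc]
      · simp [cc]
    ext1 c i
    rw [Matrix.sub_apply, Matrix.smul_apply]
    fin_cases c
    · fin_cases i
      · exact (e0 0).trans (by simp)
      · exact (e0 1).trans (by simp)
    · fin_cases i
      · exact (e1 0).trans (by simp)
      · exact (e1 1).trans (by simp)
  have hTΦ : T * Φ = p • (U.transpose * LL) := by
    ext1 j i
    rw [hT j i, Matrix.smul_apply, Matrix.mul_apply, Fin.sum_univ_two, hU, smul_eq_mul]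
    simp only [Matrix.transpose_apply]
    unfold UU LL
    cases w j
    · fin_cases i <;> simp [cc]
    · fin_cases i <;> simp [cc]
  -- the inverse of G
  have hunit : IsUnit G.det := by
    rw [hdG]
    exact isUnit_one
  obtain ⟨W, hW⟩ : ∃ W : Matrix (Fin N) (Fin 2) ℤ[X], W = G⁻¹ * Φ := ⟨_, rfl⟩
  have hGW : G * W = Φ := by
    rw [hW, ← Matrix.mul_assoc, Matrix.mul_nonsing_inv G hunit, Matrix.one_mul]
  obtain ⟨K, hK⟩ : ∃ K, K = G.transpose * T * G := ⟨_, rfl⟩
  rw [← hK]
  have hKW : ∀ i c, (K * W) i c = if IsFst w i then p * LL (cc (w i)) c else 0 := by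
    intro i c
    have e : K * W = p • ((U * G).transpose * LL) := by
      rw [hK, Matrix.mul_assoc, Matrix.mul_assoc, hGW, hTΦ, Matrix.mul_smul, ← Matrix.mul_assoc,
        Matrix.transpose_mul]
    rw [e, Matrix.smul_apply, Matrix.mul_apply, smul_eq_mul]
    simp only [Matrix.transpose_apply, hUG]
    by_cases hi : IsFst w i
    · simp [hi]
    · simp [hi]
  have hWf : ∀ i, IsFst w i → ∀ c, W i c = (U * Φ) (cc (w i)) c := by
    intro i hi c
    rw [← hGW, ← Matrix.mul_assoc, Matrix.mul_apply]
    simp only [hUG]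
    rw [Finset.sum_eq_single i]
    · rw [if_pos ⟨rfl, hi⟩, one_mul]
    · intro j _ hj
      rw [if_neg, zero_mul]
      rintro ⟨h1, h2⟩
      exact hj (DetW_fst_uniq w j i h2 hi (DetW_cc h1))
    · intro hi'
      exact absurd (Finset.mem_univ i) hi'
  -- the matrix Z
  obtain ⟨Z, hZ⟩ : ∃ Z : Matrix (Fin N) (Fin N) ℤ[X],
    Z = fun i j => if IsFst w j then W i (cc (w j)) else (if i = j then 1 else 0) := ⟨_, rfl⟩
  have hKZ : ∀ i j, (K * Z) i j = if IsFst w j then (K * W) i (cc (w j)) else K i j := by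
    intro i j
    rw [Matrix.mul_apply, hZ]
    by_cases hj : IsFst w j
    · simp only [if_pos hj]
      rw [Matrix.mul_apply]
    · simp only [if_neg hj]
      simp
  have hdetZ : Z.det = (U * Φ).det := by
    rw [Matrix.twoBlockTriangular_det' Z (IsFst w)]
    · have e1 : Matrix.toSquareBlockProp Z (IsFst w) =
          (U * Φ).submatrix (DetW_e w hA hB) (DetW_e w hA hB) := by
        ext1 i j
        show Z i.1 j.1 = (U * Φ) (cc (w i.1)) (cc (w j.1))
        rw [hZ]
        show (if IsFst w j.1 then W i.1 (cc (w j.1)) else (if i.1 = j.1 then 1 else 0)) = _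
        rw [if_pos j.2, hWf i.1 i.2]
      have e2 : Matrix.toSquareBlockProp Z (fun i => ¬ IsFst w i) = 1 := by
        ext1 i j
        show Z i.1 j.1 = _
        rw [hZ]
        show (if IsFst w j.1 then W i.1 (cc (w j.1)) else (if i.1 = j.1 then 1 else 0)) = _
        rw [if_neg j.2, Matrix.one_apply]
        by_cases hij : i = j
        · rw [if_pos hij, if_pos (congrArg Subtype.val hij)]
        · rw [if_neg hij, if_neg fun h' => hij (Subtype.ext h')]
      rw [e1, e2, Matrix.det_submatrix_equiv_self, Matrix.det_one, mul_one]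
    · intro i hi j hj
      rw [hZ]
      show (if IsFst w j then W i (cc (w j)) else (if i = j then 1 else 0)) = _
      rw [if_neg hj, if_neg]
      rintro rfl
      exact hj hi
  have hdetKZ : (K * Z).det = p ^ 2 * (- kap) *
      (K.submatrix (fun x : Loop w => x.1.2) (fun x : Loop w => x.1.2)).det := by
    rw [Matrix.twoBlockTriangular_det (K * Z) (IsFst w)]
    · have e1 : Matrix.toSquareBlockProp (K * Z) (IsFst w) =
          (p • LL).submatrix (DetW_e w hA hB) (DetW_e w hA hB) := by
        ext1 i j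
        show (K * Z) i.1 j.1 = p * LL (cc (w i.1)) (cc (w j.1))
        rw [hKZ, if_pos j.2, hKW, if_pos i.2]
      have e2 : K.submatrix (fun x : Loop w => x.1.2) (fun x : Loop w => x.1.2) =
          (Matrix.toSquareBlockProp (K * Z) (fun i => ¬ IsFst w i)).submatrix (DetW_l w)
            (DetW_l w) := by
        ext1 x y
        show K x.1.2 y.1.2 = (K * Z) x.1.2 y.1.2
        rw [hKZ, if_neg]
        exact fun h => h y.1.1 y.2.1 y.2.2.1
      rw [e1, e2, Matrix.det_submatrix_equiv_self, Matrix.det_submatrix_equiv_self,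
        Matrix.det_smul, Fintype.card_fin, DetW_detL]
    · intro i hi j hj
      rw [hKZ, if_pos hj, hKW, if_neg hi]
  have hdetK : K.det = p := by
    rw [hK, Matrix.det_mul, Matrix.det_mul, Matrix.det_transpose, hdG, hdT, one_mul, mul_one]
  have hdetU : (U * Φ).det = p * (p1 w k) - p * M.trace + p ^ 2 := by
    have e : M.det = p * p1 w k := by
      rw [hM, hp, DetW_detMr]
    rw [← e, hUΦ, Matrix.det_fin_two, Matrix.det_fin_two, Matrix.trace_fin_two]
    simp only [Matrix.sub_apply, Matrix.smul_apply, Matrix.one_apply, smul_eq_mul]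
    simp
    ring
  have hfin : p ^ 2 * (kap * (K.submatrix (fun x : Loop w => x.1.2)
      (fun x : Loop w => x.1.2)).det) = p ^ 2 * (M.trace - p - p1 w k) := by
    have e := hdetKZ
    rw [Matrix.det_mul, hdetZ, hdetK, hdetU] at e
    linear_combination e
  have hpne : p ^ 2 ≠ 0 := by
    rw [hp]
    exact pow_ne_zero 2 (DetW_p0 w k)
  exact mul_left_cancel₀ hpne hfin

end Pool.Agent.HM3
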