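import Pool.Agent.HM3.SpecT

/-! HM3, FPos: positive coefficients. -/

namespace Pool.Agent.HM3

open Polynomial Matrix

private theorem fp_true (w : List Bool) :
    ea (true :: w) = ea w + X * ec w ∧ eb (true :: w) = eb w + X * ed w ∧
    ec (true :: w) = X * ec w ∧ ed (true :: w) = X * ed w := by
  refine ⟨?_, ?_, ?_, ?_⟩
  · show (lt true * MM w) 0 0 = MM w 0 0 + X * MM w 1 0
    rw [Matrix.mul_apply, Fin.sum_univ_two]
    simp [lt]
  · show (lt true * MM w) 0 1 = MM w 0 1 + X * MM w 1 1
    rw [Matrix.mul_apply, Fin.sum_univ_two]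
    simp [lt]
  · show (lt true * MM w) 1 0 = X * MM w 1 0
    rw [Matrix.mul_apply, Fin.sum_univ_two]
    simp [lt]
  · show (lt true * MM w) 1 1 = X * MM w 1 1
    rw [Matrix.mul_apply, Fin.sum_univ_two]
    simp [lt]

private theorem fp_false (w : List Bool) :
    ea (false :: w) = ea w ∧ eb (false :: w) = eb w ∧
    ec (false :: w) = ea w + X * ec w ∧ ed (false :: w) = eb w + X * ed w := by
  refine ⟨?_, ?_, ?_, ?_⟩
  · show (lt false * MM w) 0 0 = MM w 0 0
    rw [Matrix.mul_apply, Fin.sum_univ_two]
    simp [lt]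
  · show (lt false * MM w) 0 1 = MM w 0 1
    rw [Matrix.mul_apply, Fin.sum_univ_two]
    simp [lt]
  · show (lt false * MM w) 1 0 = MM w 0 0 + X * MM w 1 0
    rw [Matrix.mul_apply, Fin.sum_univ_two]
    simp [lt]
  · show (lt false * MM w) 1 1 = MM w 0 1 + X * MM w 1 1
    rw [Matrix.mul_apply, Fin.sum_univ_two]
    simp [lt]

private theorem fp_X {f : ℤ[X]} (h : ∀ j, 0 ≤ f.coeff j) (j : ℕ) : 0 ≤ (X * f).coeff j := by
  rcases j with _ | j
  · rw [mul_comm, coeff_mul_X_zero]
  · rw [coeff_X_mul]
    exact h j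

private theorem fp_main (w : List Bool) :
    (∀ j, 0 ≤ (ea w + eb w).coeff j) ∧ (∀ j, 0 ≤ (ec w + ed w).coeff j) ∧
    0 < (ea w + eb w).coeff 0 ∧ 0 < (ec w + ed w).coeff w.length ∧
    ∀ j, j ≤ w.length + 1 → 0 < (ff w).coeff j := by
  induction w with
  | nil =>
    have e1 : ea [] + eb [] = 1 := by
      show (1 : Matrix (Fin 2) (Fin 2) ℤ[X]) 0 0 + (1 : Matrix (Fin 2) (Fin 2) ℤ[X]) 0 1 = 1
      simp
    have e2 : ec [] + ed [] = 1 := by
      show (1 : Matrix (Fin 2) (Fin 2) ℤ[X]) 1 0 + (1 : Matrix (Fin 2) (Fin 2) ℤ[X]) 1 1 = 1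
      simp
    have e3 : ff [] = 1 + X := by
      show ea [] + eb [] + X * (ec [] + ed []) = 1 + X
      rw [e1, e2, mul_one]
    rw [e1, e2, e3]
    have h : ∀ j, 0 ≤ (1 : ℤ[X]).coeff j := by
      intro j
      rw [coeff_one]
      split_ifs
      · exact zero_le_one
      · exact le_rfl
    refine ⟨h, h, by rw [coeff_one_zero]; exact zero_lt_one, ?_, ?_⟩
    · rw [List.length_nil, coeff_one_zero]
      exact zero_lt_one
    · intro j hj
      rw [List.length_nil, zero_add] at hj
      rcases j with _ | _ | j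
      · simp
      · simp [coeff_one]
      · omega
  | cons c w ih =>
    obtain ⟨h1, h2, h3, h4, h5⟩ := ih
    have hf : ∀ j, 0 ≤ (ff w).coeff j := by
      intro j
      show 0 ≤ (ea w + eb w + X * (ec w + ed w)).coeff j
      rw [coeff_add]
      exact add_nonneg (h1 j) (fp_X h2 j)
    cases c
    · obtain ⟨e1, e2, e3, e4⟩ := fp_false w
      have e5 : ec (false :: w) + ed (false :: w) = ea w + eb w + X * (ec w + ed w) := by
        rw [e3, e4]
        ring
      have e6 : ff (false :: w) = ea w + eb w + X * ff w := by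
        show ea (false :: w) + eb (false :: w) + X * (ec (false :: w) + ed (false :: w)) = _
        rw [e5, e1, e2]
        rfl
      rw [e5, e6, e1, e2]
      refine ⟨h1, hf, h3, ?_, ?_⟩
      · rw [List.length_cons, coeff_add, coeff_X_mul]
        exact add_pos_of_nonneg_of_pos (h1 _) h4
      · intro j hj
        rw [List.length_cons] at hj
        rw [coeff_add]
        rcases j with _ | j
        · exact add_pos_of_pos_of_nonneg h3 (fp_X hf 0)
        · rw [coeff_X_mul]
          exact add_pos_of_nonneg_of_pos (h1 _) (h5 j (by omega))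
    · obtain ⟨e1, e2, e3, e4⟩ := fp_true w
      have e5 : ec (true :: w) + ed (true :: w) = X * (ec w + ed w) := by
        rw [e3, e4]
        ring
      have e7 : ea (true :: w) + eb (true :: w) = ff w := by
        rw [e1, e2]
        show _ = ea w + eb w + X * (ec w + ed w)
        ring
      have e6 : ff (true :: w) = ff w + X * (X * (ec w + ed w)) := by
        show ea (true :: w) + eb (true :: w) + X * (ec (true :: w) + ed (true :: w)) = _
        rw [e5, e7]
      rw [e5, e6, e7]
      refine ⟨hf, fp_X h2, h5 0 (by omega), ?_, ?_⟩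
      · rw [List.length_cons, coeff_X_mul]
        exact h4
      · intro j hj
        rw [List.length_cons] at hj
        rw [coeff_add]
        by_cases hj' : j ≤ w.length + 1
        · exact add_pos_of_pos_of_nonneg (h5 j hj') (fp_X (fp_X h2) j)
        · obtain rfl : j = w.length + 1 + 1 := by omega
          rw [coeff_X_mul, coeff_X_mul]
          exact add_pos_of_nonneg_of_pos (hf _) h4

theorem tFPos : S_FPos := fun w => (fp_main w).2.2.2.2

end Pool.Agent.HM3
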