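import Pool.Agent.HM3.Spec

/-!
# HM3, Final: assembly
-/

namespace Pool.Agent.HM3

open Polynomial Matrix

private theorem final_br_coeff (n j : ℕ) : (br n).coeff j = if j < n then 1 else 0 := by
  unfold br
  rw [Polynomial.finsetSum_coeff]
  simp only [coeff_X_pow]
  rw [Finset.sum_ite_eq]
  simp only [Finset.mem_range]

private theorem final_mul_coeff (p q j : ℕ) :
    (br p * br q).coeff j = ((min (j + 1) p - (j + 1 - q) : ℕ) : ℤ) := by
  rw [coeff_mul, Finset.Nat.sum_antidiagonal_eq_sum_range_succ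
    (fun a b => (br p).coeff a * (br q).coeff b)]
  have h1 : ∀ a ∈ Finset.range j.succ, (br p).coeff a * (br q).coeff (j - a) =
      if a ∈ Finset.Ico (j + 1 - q) (min (j + 1) p) then 1 else 0 := by
    intro a ha
    rw [Finset.mem_range] at ha
    rw [final_br_coeff, final_br_coeff]
    simp only [Finset.mem_Ico]
    by_cases h1 : a < p
    · by_cases h2 : j - a < q
      · rw [if_pos h1, if_pos h2, if_pos (by omega)]
        rfl
      · rw [if_pos h1, if_neg h2, if_neg (by omega)]
        rfl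
    · rw [if_neg h1, zero_mul, if_neg (by omega)]
  have h2 : Finset.range j.succ ∩ Finset.Ico (j + 1 - q) (min (j + 1) p) =
      Finset.Ico (j + 1 - q) (min (j + 1) p) := by
    ext a
    simp only [Finset.mem_inter, Finset.mem_range, Finset.mem_Ico]
    omega
  rw [Finset.sum_congr rfl h1, Finset.sum_ite_mem, Finset.sum_const, nsmul_eq_mul, mul_one, h2,
    Nat.card_Ico]

private theorem final_kap : kap ≠ 0 := by
  intro h
  have h1 := congrArg (fun f : ℤ[X] => f.coeff 0) h
  simp [kap] at h1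

/-- Unimodal polynomials are nonnegative. -/
private theorem final_nonneg (n : ℕ) (G : ℤ[X]) (h : Uni (2 * n) G) (j : ℕ) : 0 ≤ G.coeff j := by
  obtain ⟨h1, h2, h3, h4⟩ := h
  have h5 : ∀ j, j ≤ n → 0 ≤ G.coeff j := by
    intro j
    induction j with
    | zero => intro _; exact h3
    | succ j ih => intro hj; exact (ih (by omega)).trans (h4 j (by omega))
  rcases Nat.lt_or_ge (2 * n) j with h6 | h6
  · rw [h1 j h6]
  · rcases Nat.lt_or_ge n j with h7 | h7
    · rw [h2 j (2 * n - j) (by omega)]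
      exact h5 _ (by omega)
    · exact h5 _ h7

private theorem final_count (N : ℕ) (w : Fin N → Bool) (c : Bool) :
    (List.ofFn fun j => !w j).count c = (Finset.univ.filter fun i => w i = !c).card := by
  induction N with
  | zero => simp
  | succ N ih =>
    rw [List.ofFn_succ, List.count_cons, ih (fun i => w i.succ), Fin.card_filter_univ_succ]
    by_cases hw : w 0 = !c
    · rw [if_pos hw]
      congr 1
      simp [hw]
    · rw [if_neg hw]
      have h2 : (!w 0) ≠ c := by
        intro h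
        apply hw
        rw [← h, Bool.not_not]
      simp [h2]

theorem tFinal (h1 : S_Norm) (h2 : S_Blk) (h3 : S_Det) (h4 : S_Alex) (h5 : S_Sig) : S_Final := by
  intro n w hw0 hwl
  set w' : List Bool := (List.ofFn fun j => !w j).reverse with hw'
  have hhead : w'.head? = some true := by
    rw [hw', List.head?_reverse, List.ofFn_succ', List.concat_eq_append, List.getLast?_append]
    simp [hwl]
  have hlast : w'.getLast? = some false := by
    rw [hw', List.getLast?_reverse, List.ofFn_succ]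
    simp [hw0]
  obtain ⟨a, b, l, hbl⟩ := h1 w' hhead hlast
  obtain ⟨G, hG, hT⟩ := h2 l a b
  rw [← hbl] at hG hT
  have hlen : w'.length = 2 * n + 2 := by
    rw [hw', List.length_reverse, List.length_ofFn]
  have hpA : nA w' = cB w := by
    rw [hw', nA, List.count_reverse, final_count]
    rfl
  have hpB : nB w' = cA w := by
    rw [hw', nB, List.count_reverse, final_count]
    rfl
  have hpq : cA w + cB w = 2 * n + 2 := by
    rw [← hpA, ← hpB, ← hlen]
    unfold nA nB
    rw [add_comm]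
    exact List.count_true_add_count_false w'
  have hdet := h3 (2 * n + 2) w ⟨0, hw0⟩ ⟨Fin.last _, hwl⟩
  rw [← hw', hT, hpA, hpB] at hdet
  obtain ⟨ε, hε, hA⟩ := h4 (2 * n + 2) w
  obtain ⟨hpos, hneg⟩ := h5 (2 * n + 2) w ⟨0, hw0⟩ ⟨Fin.last _, hwl⟩
  have hsig : signature (seifert w) = (cB w : ℤ) - cA w := by
    unfold signature
    omega
  have hD := mul_left_cancel₀ final_kap (hdet.trans (by ring :
    _ = kap * (br (cB w) * br (cA w) + G)))
  rw [hD] at hA
  set p := cB w with hp
  set q := cA w with hq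
  have hp1 : 1 ≤ p := by
    rw [hp]
    exact Finset.card_pos.2 ⟨Fin.last _, by simp [hwl]⟩
  have hq1 : 1 ≤ q := by
    rw [hq]
    exact Finset.card_pos.2 ⟨0, by simp [hw0]⟩
  rw [hlen, show 2 * n + 2 - 2 = 2 * n by omega] at hG
  have hGn := final_nonneg n G hG
  obtain ⟨g1, g2, g3, g4⟩ := hG
  obtain ⟨D, hDdef⟩ : ∃ D : ℕ → ℤ, ∀ j, D j =
      ((min (j + 1) p - (j + 1 - q) : ℕ) : ℤ) + G.coeff j := ⟨_, fun _ => rfl⟩
  have hAD : ∀ j, (alexander (seifert w)).coeff j = ε * (-1) ^ j * D j := by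
    intro j
    rw [hA j, coeff_add, final_mul_coeff, hDdef]
  have hDpos : ∀ j, j ≤ 2 * n → 0 < D j := by
    intro j hj
    rw [hDdef]
    have e1 : 0 < (min (j + 1) p - (j + 1 - q) : ℕ) := by omega
    have e2 := hGn j
    have e3 : (0 : ℤ) < ((min (j + 1) p - (j + 1 - q) : ℕ) : ℤ) := by exact_mod_cast e1
    linarith
  have hD0 : ∀ j, 2 * n < j → D j = 0 := by
    intro j hj
    rw [hDdef, g1 j hj]
    have e1 : (min (j + 1) p - (j + 1 - q) : ℕ) = 0 := by omega
    rw [e1]
    rfl
  have hDn : ∀ j, 0 ≤ D j := by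
    intro j
    rw [hDdef]
    have e2 := hGn j
    positivity
  have hDm : ∀ j, j < n → D j ≤ D (j + 1) := by
    intro j hj
    rw [hDdef, hDdef]
    have e1 : (min (j + 1) p - (j + 1 - q) : ℕ) ≤ (min (j + 1 + 1) p - (j + 1 + 1 - q) : ℕ) := by
      omega
    have e2 := g4 j (by omega)
    have e3 : ((min (j + 1) p - (j + 1 - q) : ℕ) : ℤ) ≤
        ((min (j + 1 + 1) p - (j + 1 + 1 - q) : ℕ) : ℤ) := by exact_mod_cast e1
    linarith
  have hDs : ∀ j, j + 1 < p → j + 1 < q → D j < D (j + 1) := by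
    intro j hj1 hj2
    rw [hDdef, hDdef]
    have e1 : (min (j + 1) p - (j + 1 - q) : ℕ) < (min (j + 1 + 1) p - (j + 1 + 1 - q) : ℕ) := by
      omega
    have e2 := g4 j (by omega)
    have e3 : ((min (j + 1) p - (j + 1 - q) : ℕ) : ℤ) <
        ((min (j + 1 + 1) p - (j + 1 + 1 - q) : ℕ) : ℤ) := by exact_mod_cast e1
    linarith
  have hεε : ε * ε = 1 := by
    rcases hε with rfl | rfl <;> norm_num
  have hsg : ∀ j : ℕ, ((-1 : ℤ) ^ j) * (-1) ^ j = 1 := by
    intro j
    rw [← mul_pow]
    norm_num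
  have habs : ∀ j, |(alexander (seifert w)).coeff j| = D j := by
    intro j
    rw [hAD, abs_mul, abs_mul, abs_pow, abs_neg, abs_one, one_pow, mul_one,
      abs_of_nonneg (hDn j)]
    rcases hε with rfl | rfl <;> simp
  refine ⟨?_, ?_, ?_, ?_⟩
  · intro j hj
    rw [hAD, hAD]
    have e1 : (-1 : ℤ) ^ j * (ε * (-1) ^ j * D j) * ((-1) ^ n * (ε * (-1) ^ n * D n)) =
        D j * D n := by
      linear_combination (D j * D n) * (((-1) ^ j * (-1) ^ j) * ((-1) ^ n * (-1) ^ n) * hεε +
        ((-1) ^ n * (-1) ^ n) * hsg j + hsg n)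
    rw [e1]
    exact mul_pos (hDpos j hj) (hDpos n (by omega))
  · intro j hj
    rw [hAD, hD0 j hj, mul_zero]
  · intro j hj
    rw [habs, habs]
    exact hDm j hj
  · intro m hm hflat
    rw [hsig]
    by_contra hcon
    push Not at hcon
    have e1 : |(p : ℤ) - q| < 2 * m := hcon
    rw [abs_lt] at e1
    obtain ⟨e2, e3⟩ := e1
    -- `μ = min p q`
    obtain ⟨μ, hμ⟩ : ∃ μ, μ = min p q := ⟨_, rfl⟩
    have hμ2 : 2 ≤ μ := by omega
    have f1 := hflat (μ - 2) (by omega) (by omega)
    have f2 := hflat (μ - 1) (by omega) (by omega)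
    rw [habs, habs] at f1 f2
    have f3 := hDs (μ - 2) (by omega) (by omega)
    have f4 : μ - 2 + 1 = μ - 1 := by omega
    rw [f4] at f3
    omega

end Pool.Agent.HM3
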