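import Pool.Agent.HM3.SpecT

/-!
# HM3, FinalT: assembly, the full trapezoidal pattern
-/

namespace Pool.Agent.HM3

open Polynomial Matrix

private theorem finalT_br_coeff (n j : ℕ) : (br n).coeff j = if j < n then 1 else 0 := by
  unfold br
  rw [Polynomial.finsetSum_coeff]
  simp only [coeff_X_pow]
  rw [Finset.sum_ite_eq]
  simp only [Finset.mem_range]

private theorem finalT_mul_coeff (p q j : ℕ) :
    (br p * br q).coeff j = ((min (j + 1) p - (j + 1 - q) : ℕ) : ℤ) := by
  rw [coeff_mul, Finset.Nat.sum_antidiagonal_eq_sum_range_succ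
    (fun a b => (br p).coeff a * (br q).coeff b)]
  have h1 : ∀ a ∈ Finset.range j.succ, (br p).coeff a * (br q).coeff (j - a) =
      if a ∈ Finset.Ico (j + 1 - q) (min (j + 1) p) then 1 else 0 := by
    intro a ha
    rw [Finset.mem_range] at ha
    rw [finalT_br_coeff, finalT_br_coeff]
    simp only [Finset.mem_Ico]
    by_cases h1 : a < p
    · by_cases h2 : j - a < q
      · rw [if_pos h1, if_pos h2, if_pos (by omega)]
        rfl
      · rw [if_pos h1, if_neg h2, if_neg (by omega)]
        rfl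
    · rw [if_neg h1, zero_mul, if_neg (by omega)]
  have h2 : Finset.range j.succ ∩ Finset.Ico (j + 1 - q) (min (j + 1) p) =
      Finset.Ico (j + 1 - q) (min (j + 1) p) := by
    ext a
    simp only [Finset.mem_inter, Finset.mem_range, Finset.mem_Ico]
    omega
  rw [Finset.sum_congr rfl h1, Finset.sum_ite_mem, Finset.sum_const, nsmul_eq_mul, mul_one, h2,
    Nat.card_Ico]

private theorem finalT_kap : kap ≠ 0 := by
  intro h
  have h1 := congrArg (fun f : ℤ[X] => f.coeff 0) h
  simp [kap] at h1

/-- Unimodal polynomials are nonnegative. -/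
private theorem finalT_nonneg (d : ℕ) (G : ℤ[X]) (h : Uni d G) (j : ℕ) : 0 ≤ G.coeff j := by
  obtain ⟨h1, h2, h3, h4⟩ := h
  have h5 : ∀ j, 2 * j ≤ d → 0 ≤ G.coeff j := by
    intro j
    induction j with
    | zero => intro _; exact h3
    | succ j ih => intro hj; exact (ih (by omega)).trans (h4 j (by omega))
  rcases Nat.lt_or_ge d j with h6 | h6
  · rw [h1 j h6]
  · rcases Nat.lt_or_ge d (2 * j) with h7 | h7
    · rw [h2 j (d - j) (by omega)]
      exact h5 _ (by omega)
    · exact h5 _ h7

private theorem finalT_inc (f : ℤ[X]) (j : ℕ) : inc f (j + 1) = f.coeff (j + 1) - f.coeff j := by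
  unfold inc
  rw [sub_mul, one_mul, coeff_sub, coeff_X_mul]

private theorem finalT_count (N : ℕ) (w : Fin N → Bool) (c : Bool) :
    (List.ofFn fun j => !w j).count c = (Finset.univ.filter fun i => w i = !c).card := by
  induction N with
  | zero => simp
  | succ N ih =>
    rw [List.ofFn_succ, List.count_cons, ih (fun i => w i.succ), Fin.card_filter_univ_succ]
    by_cases hw : w 0 = !c
    · rw [if_pos hw]
      congr 1
      simp [hw]
    · rw [if_neg hw]
      have h2 : (!w 0) ≠ c := by
        intro h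
        apply hw
        rw [← h, Bool.not_not]
      simp [h2]

private theorem finalT_pA (l : List (Bool × ℕ)) :
    pA l = (l.map fun c => if c.1 then dB c.2 else dA c.2).prod := by
  induction l with
  | nil => rfl
  | cons c l ih => rw [pA, ih, List.map_cons, List.prod_cons]

private theorem finalT_pB (l : List (Bool × ℕ)) :
    pB l = (l.map fun c => if c.1 then dA c.2 else dB c.2).prod := by
  induction l with
  | nil => rfl
  | cons c l ih => rw [pB, ih, List.map_cons, List.prod_cons]

private theorem finalT_p0 (N : ℕ) (w : Fin N → Bool) (k : Fin N → ℕ) :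
    pA (rw' w k) = p0 w k := by
  rw [finalT_pA, rw', List.map_reverse, List.prod_reverse, List.map_ofFn, List.prod_ofFn, p0]
  refine Finset.prod_congr rfl fun i _ => ?_
  simp only [Function.comp]
  cases w i <;> simp

private theorem finalT_p1 (N : ℕ) (w : Fin N → Bool) (k : Fin N → ℕ) :
    pB (rw' w k) = p1 w k := by
  rw [finalT_pB, rw', List.map_reverse, List.prod_reverse, List.map_ofFn, List.prod_ofFn, p1]
  refine Finset.prod_congr rfl fun i _ => ?_
  simp only [Function.comp]
  cases w i <;> simp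

private theorem finalT_fst (N : ℕ) (w : Fin N → Bool) (k : Fin N → ℕ) :
    (rw' w k).map Prod.fst = (List.ofFn fun j => !w j).reverse := by
  rw [rw', List.map_reverse, List.map_ofFn]
  rfl

theorem tFinalT (h0 : S_OpsT) (h1 : S_WtT) (h2 : S_DetW) (h3 : S_AlexW) (h4 : S_SigW) :
    S_FinalT := by
  obtain ⟨-, oadd, -, -, o01, o10, oprod⟩ := h0
  intro N w k hwt hwf
  obtain ⟨G, hG, hT⟩ := h1 (rw' w k)
  rw [finalT_p0, finalT_p1, finalT_fst] at hT
  have hlen0 : (rw' w k).length = N + 2 := by
    rw [rw', List.length_reverse, List.length_ofFn]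
  set w' : List Bool := (List.ofFn fun j => !w j).reverse with hw'
  have hlen : w'.length = N + 2 := by
    rw [hw', List.length_reverse, List.length_ofFn]
  have hpA : nA w' = cB w := by
    rw [hw', nA, List.count_reverse, finalT_count]
    rfl
  have hpB : nB w' = cA w := by
    rw [hw', nB, List.count_reverse, finalT_count]
    rfl
  have hpq : cA w + cB w = N + 2 := by
    rw [← hpA, ← hpB, ← hlen]
    unfold nA nB
    rw [add_comm]
    exact List.count_true_add_count_false w'
  have hdet := h2 (N + 2) w k hwt hwf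
  rw [hT, hpA, hpB] at hdet
  obtain ⟨ε, hε, hA⟩ := h3 (N + 2) w k
  obtain ⟨hpos, hneg⟩ := h4 (N + 2) w k hwt hwf
  have hsig : signature (seifertW w k) = (cB w : ℤ) - cA w := by
    unfold signature
    omega
  have hD := mul_left_cancel₀ finalT_kap (hdet.trans (by ring :
    _ = kap * (br (cB w) * br (cA w) + G)))
  rw [hD] at hA
  set p := cB w with hp
  set q := cA w with hq
  have hp1 : 1 ≤ p := by
    obtain ⟨i, hi⟩ := hwf
    rw [hp]
    exact Finset.card_pos.2 ⟨i, by simp [hi]⟩
  have hq1 : 1 ≤ q := by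
    obtain ⟨i, hi⟩ := hwt
    rw [hq]
    exact Finset.card_pos.2 ⟨i, by simp [hi]⟩
  rw [hlen0, Nat.add_sub_cancel] at hG
  have hGn := finalT_nonneg N G hG.1
  have hG4 := hG.1.2.2.2
  -- the polynomial `D`
  obtain ⟨F, hF⟩ : ∃ F : ℤ[X], F = br p * br q + G := ⟨_, rfl⟩
  rw [← hF] at hA
  have hFc : ∀ j, F.coeff j = ((min (j + 1) p - (j + 1 - q) : ℕ) : ℤ) + G.coeff j := by
    intro j
    rw [hF, coeff_add, finalT_mul_coeff]
  have hF0 : 0 < F.coeff 0 := by
    rw [hFc]
    have e1 : 0 < (min (0 + 1) p - (0 + 1 - q) : ℕ) := by omega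
    have e2 := hGn 0
    have e3 : (0 : ℤ) < ((min (0 + 1) p - (0 + 1 - q) : ℕ) : ℤ) := by exact_mod_cast e1
    linarith
  have hFT : UniT 0 N F := by
    apply o10 N F _ hF0
    rw [hF]
    apply oadd 1 N _ _ _ hG
    apply o01
    have e1 := oprod (p - 1) (q - 1)
    rw [show p - 1 + 1 = p by omega, show q - 1 + 1 = q by omega,
      show p - 1 + (q - 1) = N by omega] at e1
    exact e1
  obtain ⟨⟨u1, u2, u3, u4⟩, u5⟩ := hFT
  have hDpos : ∀ j, j ≤ N → 0 < F.coeff j := by
    intro j hj
    rw [hFc]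
    have e1 : 0 < (min (j + 1) p - (j + 1 - q) : ℕ) := by omega
    have e2 := hGn j
    have e3 : (0 : ℤ) < ((min (j + 1) p - (j + 1 - q) : ℕ) : ℤ) := by exact_mod_cast e1
    linarith
  have hDn : ∀ j, 0 ≤ F.coeff j := by
    intro j
    rw [hFc]
    have e2 := hGn j
    positivity
  have hDs : ∀ j, j + 1 < p → j + 1 < q → F.coeff j < F.coeff (j + 1) := by
    intro j hj1 hj2
    rw [hFc, hFc]
    have e1 : (min (j + 1) p - (j + 1 - q) : ℕ) < (min (j + 1 + 1) p - (j + 1 + 1 - q) : ℕ) := by
      omega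
    have e2 := hG4 j (by omega)
    have e3 : ((min (j + 1) p - (j + 1 - q) : ℕ) : ℤ) <
        ((min (j + 1 + 1) p - (j + 1 + 1 - q) : ℕ) : ℤ) := by exact_mod_cast e1
    linarith
  have hεε : ε * ε = 1 := by
    rcases hε with rfl | rfl <;> norm_num
  have hsg : ∀ j : ℕ, ((-1 : ℤ) ^ j) * (-1) ^ j = 1 := by
    intro j
    rw [← mul_pow]
    norm_num
  have habs : ∀ j, |(alexander (seifertW w k)).coeff j| = F.coeff j := by
    intro j
    rw [hA, abs_mul, abs_mul, abs_pow, abs_neg, abs_one, one_pow, mul_one,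
      abs_of_nonneg (hDn j)]
    rcases hε with rfl | rfl <;> simp
  -- the first index where the increment vanishes
  have hex : ∃ s : ℕ, ¬ (2 * (s + 1) ≤ N ∧ F.coeff s < F.coeff (s + 1)) :=
    ⟨N, fun h => by omega⟩
  obtain ⟨s, hs1, hs2⟩ : ∃ s : ℕ, ¬ (2 * (s + 1) ≤ N ∧ F.coeff s < F.coeff (s + 1)) ∧
      ∀ j, j < s → (2 * (j + 1) ≤ N ∧ F.coeff j < F.coeff (j + 1)) := by
    classical
    refine ⟨Nat.find hex, Nat.find_spec hex, ?_⟩
    intro j hj
    exact not_not.1 (Nat.find_min hex hj)
  have hsN : 2 * s ≤ N := by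
    rcases Nat.eq_zero_or_pos s with h | h
    · omega
    · have e1 := (hs2 (s - 1) (by omega)).1
      omega
  -- constant from `s` on
  have hconst : ∀ d, 2 * (s + d) ≤ N → F.coeff (s + d) = F.coeff s := by
    intro d
    induction d with
    | zero => intro _; rfl
    | succ d ih =>
      intro hd
      rw [← ih (by omega)]
      have e1 : F.coeff s = F.coeff (s + 1) := by
        have e2 := u4 s (by omega)
        by_contra h
        exact hs1 ⟨by omega, lt_of_le_of_ne e2 h⟩
      have e2 : inc F (s + 1) = 0 := by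
        rw [finalT_inc, e1, sub_self]
      have e3 := u5 (s + 1) (s + d + 1) (Nat.zero_le _) (by omega) (by omega) e2
      rw [finalT_inc] at e3
      rw [show s + (d + 1) = s + d + 1 by omega]
      linarith
  have hconst' : ∀ j, s ≤ j → 2 * j ≤ N → F.coeff j = F.coeff s := by
    intro j hj1 hj2
    have e1 := hconst (j - s) (by omega)
    rwa [show s + (j - s) = j by omega] at e1
  refine ⟨?_, ?_, s, hsN, ?_, ?_, ?_, ?_⟩
  · intro j hj
    rw [hA, hA]
    have e1 : (-1 : ℤ) ^ j * (ε * (-1) ^ j * F.coeff j) * (ε * (-1) ^ 0 * F.coeff 0) =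
        F.coeff j * F.coeff 0 := by
      linear_combination (F.coeff j * F.coeff 0) * (((-1) ^ j * (-1) ^ j) * hεε + hsg j)
    rw [e1]
    exact mul_pos (hDpos j hj) hF0
  · intro j hj
    rw [hA, u1 j hj, mul_zero]
  · intro j hj
    rw [habs, habs]
    exact (hs2 j hj).2
  · intro j hj1 hj2
    rw [habs, habs]
    rcases Nat.lt_or_ge N (2 * j) with h | h
    · rw [u2 j (N - j) (by omega)]
      exact hconst' (N - j) (by omega) (by omega)
    · exact hconst' j hj1 h
  · intro j hj1 hj2
    rw [habs, habs, u2 (j + 1) (N - (j + 1)) (by omega), u2 j (N - j) (by omega)]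
    have e1 := (hs2 (N - (j + 1)) (by omega)).2
    rwa [show N - (j + 1) + 1 = N - j by omega] at e1
  · rw [hsig]
    have e1 : min p q ≤ s + 1 := by
      by_contra hcon
      push Not at hcon
      exact hs1 ⟨by omega, hDs s (by omega) (by omega)⟩
    have e2 : (N : ℤ) - 2 * s ≤ (p : ℤ) - q ∨ (N : ℤ) - 2 * s ≤ -((p : ℤ) - q) := by omega
    rcases e2 with e2 | e2
    · exact e2.trans (le_abs_self _)
    · exact e2.trans (neg_le_abs _)

end Pool.Agent.HM3
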