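import Pool.Agent.HM3.Spec

/-!
# HM3, Inertia: eigenvalue counts on a subspace of coordinates

A symmetric matrix which is positive on the vectors supported in `P` has at least `#P` positive
eigenvalues: otherwise some vector supported in `P` is orthogonal to all eigenvectors with positive
eigenvalue. Similarly for negative eigenvalues.
-/

namespace Pool.Agent.HM3

open Polynomial Matrix

variable {ι : Type} [Fintype ι] [DecidableEq ι]

private theorem card_le_of_inj (M : Matrix ι ι ℝ) (P R : ι → Prop) [DecidablePred P]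
    [DecidablePred R]
    (h : ∀ x : ι → ℝ, (∀ i, ¬ P i → x i = 0) → x ≠ 0 → ∃ i, R i ∧ (M *ᵥ x) i ≠ 0) :
    (Finset.univ.filter P).card ≤ (Finset.univ.filter R).card := by
  by_contra hlt
  rw [not_le] at hlt
  let e : ({i // P i} → ℝ) →ₗ[ℝ] (ι → ℝ) :=
    { toFun := fun x i => if hi : P i then x ⟨i, hi⟩ else 0
      map_add' := by
        intro x y
        funext i
        by_cases hi : P i
        · simp only [Pi.add_apply, dif_pos hi]
        · simp only [Pi.add_apply, dif_neg hi, add_zero]
      map_smul' := by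
        intro r x
        funext i
        by_cases hi : P i
        · simp only [Pi.smul_apply, dif_pos hi, RingHom.id_apply]
        · simp only [Pi.smul_apply, dif_neg hi, RingHom.id_apply, smul_zero] }
  let f : ({i // P i} → ℝ) →ₗ[ℝ] ({i // R i} → ℝ) :=
    (LinearMap.funLeft ℝ ℝ (Subtype.val : {i // R i} → ι)) ∘ₗ M.mulVecLin ∘ₗ e
  have hf : Module.finrank ℝ ({i // R i} → ℝ) < Module.finrank ℝ ({i // P i} → ℝ) := by
    rw [Module.finrank_fintype_fun_eq_card, Module.finrank_fintype_fun_eq_card,
      Fintype.card_subtype, Fintype.card_subtype]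
    exact hlt
  have hk := LinearMap.ker_ne_bot_of_finrank_lt (f := f) hf
  obtain ⟨x, hx, hx0⟩ := (Submodule.ne_bot_iff _).1 hk
  rw [LinearMap.mem_ker] at hx
  have he : e x ≠ 0 := by
    intro h0
    refine hx0 (funext fun i => ?_)
    have h1 : e x i.1 = 0 := by rw [h0]; rfl
    have h2 : e x i.1 = x i := dif_pos i.2
    rw [← h2, h1]
    rfl
  obtain ⟨i, hi, hne⟩ := h (e x) (fun i hi => dif_neg hi) he
  exact hne (congrFun hx ⟨i, hi⟩)

/-- The quadratic form in the coordinates of the eigenvectors. -/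
private theorem quad (A : Matrix ι ι ℝ) (hA : A.IsHermitian) (x : ι → ℝ) :
    ∑ i, ∑ j, x i * A i j * x j =
      ∑ i, hA.eigenvalues i *
        ((star (hA.eigenvectorUnitary : Matrix ι ι ℝ) *ᵥ x) i *
          (star (hA.eigenvectorUnitary : Matrix ι ι ℝ) *ᵥ x) i) := by
  set U : Matrix ι ι ℝ := (hA.eigenvectorUnitary : Matrix ι ι ℝ) with hU
  have h1 : A = U * (diagonal hA.eigenvalues * star U) := by
    conv_lhs => rw [hA.spectral_theorem, Unitary.conjStarAlgAut_apply]
    rw [Matrix.mul_assoc]
    rfl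
  have h2 : ∑ i, ∑ j, x i * A i j * x j = x ⬝ᵥ (A *ᵥ x) := by
    simp only [dotProduct, mulVec, Finset.mul_sum, mul_assoc]
  have h3 : x ᵥ* U = star U *ᵥ x := by
    rw [Matrix.star_eq_conjTranspose, Matrix.conjTranspose_eq_transpose_of_trivial,
      Matrix.mulVec_transpose]
  rw [h2]
  conv_lhs => rw [h1]
  rw [← Matrix.mulVec_mulVec, ← Matrix.mulVec_mulVec, Matrix.dotProduct_mulVec, h3, dotProduct]
  refine Finset.sum_congr rfl fun i _ => ?_
  rw [Matrix.mulVec_diagonal]
  ring

theorem tInertia : S_Inertia := by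
  intro ι _ _ V P _
  have hq : ∀ x : ι → ℝ, ∑ i, ∑ j, x i * (((V + V.transpose) i j : ℤ) : ℝ) * x j =
      ∑ i, ∑ j, x i * ((V + V.transpose).map (Int.cast : ℤ → ℝ)) i j * x j := fun x => rfl
  constructor
  · intro h
    refine card_le_of_inj (star ((sym_herm V).eigenvectorUnitary : Matrix ι ι ℝ)) P _
      fun x hx hx0 => ?_
    have h1 := h x hx hx0
    rw [hq, quad _ (sym_herm V)] at h1
    by_contra hn
    refine absurd h1 (not_lt.2 (Finset.sum_nonpos fun i _ => ?_))
    by_cases hi : 0 < (sym_herm V).eigenvalues i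
    · have : (star ((sym_herm V).eigenvectorUnitary : Matrix ι ι ℝ) *ᵥ x) i = 0 := by
        by_contra h0
        exact hn ⟨i, hi, h0⟩
      rw [this, mul_zero, mul_zero]
    · exact mul_nonpos_of_nonpos_of_nonneg (not_lt.1 hi) (mul_self_nonneg _)
  · intro h
    refine card_le_of_inj (star ((sym_herm V).eigenvectorUnitary : Matrix ι ι ℝ)) P _
      fun x hx hx0 => ?_
    have h1 := h x hx hx0
    rw [hq, quad _ (sym_herm V)] at h1
    by_contra hn
    refine absurd h1 (not_lt.2 (Finset.sum_nonneg fun i _ => ?_))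
    by_cases hi : (sym_herm V).eigenvalues i < 0
    · have : (star ((sym_herm V).eigenvectorUnitary : Matrix ι ι ℝ) *ᵥ x) i = 0 := by
        by_contra h0
        exact hn ⟨i, hi, h0⟩
      rw [this, mul_zero, mul_zero]
    · exact mul_nonneg (not_lt.1 hi) (mul_self_nonneg _)

end Pool.Agent.HM3
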