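import Pool.Agent.HM3.Spec

/-!
# HM3, Loops: the entries of `Gᵀ T G` (helper73)
-/

namespace Pool.Agent.HM3

open Polynomial Matrix

variable {N : ℕ} {w : Fin N → Bool}

private theorem loops_col (x : Loop w) (i : Fin N) :
    GG w i x.1.2 = (if i = x.1.2 then 1 else 0) - (if i = x.1.1 then 1 else 0) := by
  have h : IsPrev w i x.1.2 ↔ i = x.1.1 := by
    obtain ⟨⟨j, k⟩, h1, h2, h3⟩ := x
    constructor
    · rintro ⟨g1, g2, g3⟩
      rcases lt_trichotomy i j with h | h | h
      · exact absurd h2 (g3 j h h1)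
      · exact h
      · exact absurd g2 (h3 i h g1)
    · rintro rfl
      exact ⟨h1, h2, h3⟩
  unfold GG
  simp only [h]

private theorem loops_sum (T : Matrix (Fin N) (Fin N) ℤ[X]) (x y : Loop w) :
    ((GG w).transpose * T * GG w) x.1.2 y.1.2 =
      T x.1.2 y.1.2 - T x.1.1 y.1.2 - (T x.1.2 y.1.1 - T x.1.1 y.1.1) := by
  simp only [Matrix.mul_apply, Matrix.transpose_apply, loops_col, sub_mul, mul_sub,
    Finset.sum_sub_distrib, ite_mul, mul_ite, one_mul, zero_mul, mul_one, mul_zero,
    Finset.sum_ite_eq', Finset.mem_univ, if_true]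

/-- The order of two loops of the same column. -/
private theorem loops_ord (x y : Loop w) (h : w x.1.2 = w y.1.2) :
    (x.1.2 < y.1.2 → x.1.2 ≤ y.1.1) ∧ (y.1.2 < x.1.2 → y.1.2 ≤ x.1.1) ∧
      (x.1.2 = y.1.2 → x.1.1 = y.1.1) := by
  obtain ⟨⟨j, k⟩, h1, h2, h3⟩ := x
  obtain ⟨⟨j', k'⟩, g1, g2, g3⟩ := y
  simp only at *
  refine ⟨fun hk => ?_, fun hk => ?_, fun hk => ?_⟩
  · by_contra hj
    exact g3 k (not_le.1 hj) hk h
  · by_contra hj
    exact h3 k' (not_le.1 hj) hk h.symm
  · subst hk
    rcases lt_trichotomy j j' with hj | hj | hj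
    · exact absurd g2 (h3 j' hj g1)
    · exact hj
    · exact absurd h2 (g3 j hj h1)

private theorem loops_eq (x y : Loop w) (h : x.1.2 = y.1.2) : x = y :=
  Subtype.ext (Prod.ext ((loops_ord x y (by rw [h])).2.2 h) h)

private theorem loops_eq_iff (x y : Loop w) : x = y ↔ x.1.2 = y.1.2 :=
  ⟨fun h => by rw [h], loops_eq x y⟩

theorem tLoops : S_Loops := by
  intro N w x y
  rw [loops_sum]
  have hx1 := x.2.1
  have hx2 := x.2.2.1
  have hy1 := y.2.1
  have hy2 := y.2.2.1
  cases hcx : w x.1.2 <;> cases hcy : w y.1.2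
  · obtain ⟨h1, h2, h3⟩ := loops_ord x y (hcx.trans hcy.symm)
    rw [hcx] at hx2
    rw [hcy] at hy2
    simp only [seifert, TT, hcx, hcy, hx2, hy2, loops_eq_iff, Bool.false_eq_true, if_false]
    rcases lt_trichotomy x.1.2 y.1.2 with h | h | h
    · have h4 := h1 h
      rcases h4.eq_or_lt with h5 | h5
      · simp (disch := omega) only [if_pos, if_neg]
        simp
      · simp (disch := omega) only [if_neg]
        simp
    · have h4 := h3 h
      simp (disch := omega) only [if_pos, if_neg]
      simp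
      ring
    · have h4 := h2 h
      rcases h4.eq_or_lt with h5 | h5
      · simp (disch := omega) only [if_pos, if_neg]
        simp
      · simp (disch := omega) only [if_pos, if_neg]
        simp
  · have e1 : x.1.2 ≠ y.1.2 := fun h => by
      rw [h, hcy] at hcx
      cases hcx
    have e2 : x.1.2 ≠ y.1.1 := fun h => by
      rw [h, hy2, hcy] at hcx
      cases hcx
    have e3 : x.1.1 ≠ y.1.2 := fun h => by
      rw [← hx2, h, hcy] at hcx
      cases hcx
    have e4 : x.1.1 ≠ y.1.1 := fun h => by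
      rw [← hx2, h, hy2, hcy] at hcx
      cases hcx
    rw [hcx] at hx2
    rw [hcy] at hy2
    simp only [seifert, TT, hcx, hcy, hx2, hy2, Bool.false_eq_true, if_false]
    rcases lt_or_gt_of_ne e1 with f1 | f1 <;> rcases lt_or_gt_of_ne e2 with f2 | f2 <;>
      rcases lt_or_gt_of_ne e3 with f3 | f3 <;> rcases lt_or_gt_of_ne e4 with f4 | f4 <;>
      first
      | (exfalso; omega)
      | (simp (disch := omega) only [if_pos, if_neg]
         simp)
  · have e1 : x.1.2 ≠ y.1.2 := fun h => by
      rw [h, hcy] at hcx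
      cases hcx
    have e2 : x.1.2 ≠ y.1.1 := fun h => by
      rw [h, hy2, hcy] at hcx
      cases hcx
    have e3 : x.1.1 ≠ y.1.2 := fun h => by
      rw [← hx2, h, hcy] at hcx
      cases hcx
    have e4 : x.1.1 ≠ y.1.1 := fun h => by
      rw [← hx2, h, hy2, hcy] at hcx
      cases hcx
    rw [hcx] at hx2
    rw [hcy] at hy2
    simp only [seifert, TT, hcx, hcy, hx2, hy2, if_true]
    rcases lt_or_gt_of_ne e1 with f1 | f1 <;> rcases lt_or_gt_of_ne e2 with f2 | f2 <;>
      rcases lt_or_gt_of_ne e3 with f3 | f3 <;> rcases lt_or_gt_of_ne e4 with f4 | f4 <;>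
      first
      | (exfalso; omega)
      | (simp (disch := omega) only [if_pos, if_neg]
         simp)
  · obtain ⟨h1, h2, h3⟩ := loops_ord x y (hcx.trans hcy.symm)
    rw [hcx] at hx2
    rw [hcy] at hy2
    simp only [seifert, TT, hcx, hcy, hx2, hy2, loops_eq_iff, if_true]
    rcases lt_trichotomy x.1.2 y.1.2 with h | h | h
    · have h4 := h1 h
      rcases h4.eq_or_lt with h5 | h5
      · simp (disch := omega) only [if_pos, if_neg]
        simp
      · simp (disch := omega) only [if_neg]
        simp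
    · have h4 := h3 h
      simp (disch := omega) only [if_pos, if_neg]
      simp
      ring
    · have h4 := h2 h
      rcases h4.eq_or_lt with h5 | h5
      · simp (disch := omega) only [if_pos, if_neg]
        simp
      · simp (disch := omega) only [if_pos, if_neg]
        simp

end Pool.Agent.HM3
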