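import Pool.Agent.HM3.SpecT

/-! HM3, OpsT: operations on unimodal polynomials whose increments vanish after the first zero. -/

namespace Pool.Agent.HM3

open Polynomial Matrix

private theorem OpsT_inc_zero (f : ℤ[X]) : inc f 0 = f.coeff 0 := by
  unfold inc
  rw [Polynomial.mul_coeff_zero]
  simp

private theorem OpsT_inc_succ (f : ℤ[X]) (j : ℕ) :
    inc f (j + 1) = f.coeff (j + 1) - f.coeff j := by
  unfold inc
  rw [sub_mul, one_mul, coeff_sub, coeff_X_mul]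

private theorem OpsT_inc_add (f g : ℤ[X]) (j : ℕ) : inc (f + g) j = inc f j + inc g j := by
  unfold inc
  rw [mul_add, coeff_add]

private theorem OpsT_inc_X (f : ℤ[X]) (j : ℕ) : inc (X * f) (j + 1) = inc f j := by
  unfold inc
  rw [mul_left_comm, coeff_X_mul]

private theorem OpsT_nonneg {d : ℕ} {f : ℤ[X]} (h : Uni d f) (j : ℕ) (hj : 2 * j ≤ d) :
    0 ≤ inc f j := by
  rcases j with _ | j
  · rw [OpsT_inc_zero]
    exact h.2.2.1
  · rw [OpsT_inc_succ]
    have := h.2.2.2 j hj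
    omega

/-- the coefficients as a function on the integers -/
private def OpsT_F (f : ℤ[X]) (x : ℤ) : ℤ := if 0 ≤ x then f.coeff x.toNat else 0

private theorem OpsT_F_nat (f : ℤ[X]) (n : ℕ) : OpsT_F f n = f.coeff n := by
  unfold OpsT_F
  rw [if_pos (by omega), Int.toNat_natCast]

private theorem OpsT_F_neg (f : ℤ[X]) {x : ℤ} (h : x < 0) : OpsT_F f x = 0 := by
  unfold OpsT_F
  rw [if_neg (by omega)]

private theorem OpsT_F_inc (f : ℤ[X]) (n : ℕ) : OpsT_F f n - OpsT_F f ((n : ℤ) - 1) = inc f n := by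
  rcases n with _ | n
  · rw [OpsT_inc_zero, OpsT_F_nat, OpsT_F_neg f (by simp), sub_zero]
  · rw [OpsT_inc_succ, OpsT_F_nat, show ((n + 1 : ℕ) : ℤ) - 1 = (n : ℤ) by push_cast; ring,
      OpsT_F_nat]

private theorem OpsT_F_sym {d : ℕ} {f : ℤ[X]} (h : Uni d f) (x : ℤ) :
    OpsT_F f x = OpsT_F f ((d : ℤ) - x) := by
  rcases lt_or_ge x 0 with hx | hx
  · rw [OpsT_F_neg f hx]
    obtain ⟨n, hn⟩ : ∃ n : ℕ, (d : ℤ) - x = n := ⟨((d : ℤ) - x).toNat, by omega⟩
    rw [hn, OpsT_F_nat, h.1 n (by omega)]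
  · obtain ⟨n, rfl⟩ : ∃ n : ℕ, x = n := ⟨x.toNat, by omega⟩
    rw [OpsT_F_nat]
    rcases lt_or_ge d n with hn | hn
    · rw [h.1 n hn, OpsT_F_neg f (by omega)]
    · obtain ⟨k, hk⟩ : ∃ k : ℕ, (d : ℤ) - n = k := ⟨d - n, by omega⟩
      rw [hk, OpsT_F_nat]
      exact h.2.1 n k (by omega)

private theorem OpsT_F_step {d : ℕ} {f : ℤ[X]} (h : Uni d f) (x : ℤ) (hx : 2 * x ≤ d) :
    OpsT_F f (x - 1) ≤ OpsT_F f x := by
  rcases lt_or_ge x 0 with h0 | h0
  · rw [OpsT_F_neg f h0, OpsT_F_neg f (by omega)]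
  · obtain ⟨n, rfl⟩ : ∃ n : ℕ, x = n := ⟨x.toNat, by omega⟩
    have h1 := OpsT_F_inc f n
    have h2 := OpsT_nonneg h n (by omega)
    omega

private theorem OpsT_F_mono {d : ℕ} {f : ℤ[X]} (h : Uni d f) (n : ℕ) (y : ℤ) (hy : 2 * y ≤ d) :
    OpsT_F f (y - n) ≤ OpsT_F f y := by
  induction n with
  | zero => simp
  | succ n ih =>
    refine le_trans ?_ ih
    have := OpsT_F_step h (y - n) (by omega)
    rwa [show y - ((n + 1 : ℕ) : ℤ) = y - n - 1 by push_cast; ring]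

private theorem OpsT_F_le {d : ℕ} {f : ℤ[X]} (h : Uni d f) (x y : ℤ) (hxy : x ≤ y)
    (hy : 2 * y ≤ d) : OpsT_F f x ≤ OpsT_F f y := by
  have := OpsT_F_mono h (y - x).toNat y hy
  rwa [show y - (((y - x).toNat : ℕ) : ℤ) = x by omega] at this

private theorem OpsT_br_inc (a : ℕ) (f : ℤ[X]) (j : ℕ) :
    inc (br (a + 1) * f) j = OpsT_F f j - OpsT_F f ((j : ℤ) - (a + 1)) := by
  have hg : ∀ n : ℕ, (1 - X : ℤ[X]) * br n = 1 - X ^ n := by
    intro n
    induction n with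
    | zero => simp [br]
    | succ n ih =>
      have h1 : br (n + 1) = br n + X ^ n := by
        unfold br
        rw [Finset.sum_range_succ]
      rw [h1, mul_add, ih]
      ring
  unfold inc
  rw [← mul_assoc, hg, sub_mul, one_mul, coeff_sub, coeff_X_pow_mul', OpsT_F_nat]
  by_cases h : a + 1 ≤ j
  · rw [if_pos h, show ((j : ℤ) - (a + 1)) = ((j - (a + 1) : ℕ) : ℤ) by omega, OpsT_F_nat]
  · rw [if_neg h, OpsT_F_neg f (by omega)]

/-- all values in the middle are equal after the first zero increment -/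
private theorem OpsT_flat {d : ℕ} {f : ℤ[X]} (h : UniT 0 d f) (i : ℕ) (hi : inc f i = 0) :
    ∀ j : ℕ, i ≤ j → 2 * j ≤ d → OpsT_F f j = OpsT_F f i := by
  intro j
  induction j with
  | zero =>
    intro hij _
    have : i = 0 := by omega
    rw [this]
  | succ j ih =>
    intro hij hj
    rcases Nat.lt_or_ge j i with hlt | hge
    · have : i = j + 1 := by omega
      rw [this]
    · have h1 := h.2 i (j + 1) (Nat.zero_le _) hij hj hi
      have h2 := OpsT_F_inc f (j + 1)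
      rw [show ((j + 1 : ℕ) : ℤ) - 1 = (j : ℤ) by push_cast; ring] at h2
      have h3 := ih hge (by omega)
      omega

private theorem OpsT_stepT {d : ℕ} {f : ℤ[X]} (h : UniT 0 d f) (a i : ℕ)
    (hi : inc (br (a + 1) * f) i = 0) (hd : 2 * (i + 1) ≤ d + a) :
    inc (br (a + 1) * f) (i + 1) = 0 := by
  rw [OpsT_br_inc] at hi ⊢
  rw [show (((i + 1 : ℕ) : ℤ) - (a + 1)) = (i : ℤ) - a by push_cast; ring]
  rcases Nat.lt_or_ge d (2 * i) with hc | hc
  · -- upper half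
    have e1 := OpsT_F_sym h.1 i
    have e2 := OpsT_F_sym h.1 ((i + 1 : ℕ) : ℤ)
    have m1 := OpsT_F_le h.1 ((i : ℤ) - (a + 1)) ((i : ℤ) - a) (by omega) (by omega)
    have m2 := OpsT_F_le h.1 ((i : ℤ) - a) ((d : ℤ) - i) (by omega) (by omega)
    have m3 := OpsT_F_le h.1 ((i : ℤ) - (a + 1)) ((d : ℤ) - ((i + 1 : ℕ) : ℤ)) (by omega) (by omega)
    have m4 := OpsT_F_le h.1 ((d : ℤ) - ((i + 1 : ℕ) : ℤ)) ((d : ℤ) - i) (by omega) (by omega)
    omega
  · -- lower half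
    have m1 := OpsT_F_le h.1 ((i : ℤ) - (a + 1)) ((i : ℤ) - a) (by omega) (by omega)
    have m2 := OpsT_F_le h.1 ((i : ℤ) - a) i (by omega) (by omega)
    have m3 := OpsT_F_le h.1 ((i : ℤ) - (a + 1)) ((i : ℤ) - 1) (by omega) (by omega)
    have m4 := OpsT_F_le h.1 ((i : ℤ) - 1) i (by omega) (by omega)
    have hinc : inc f i = 0 := by
      have := OpsT_F_inc f i
      omega
    have e3 : OpsT_F f ((i + 1 : ℕ) : ℤ) = OpsT_F f i := by
      rcases Nat.lt_or_ge d (2 * (i + 1)) with hc2 | hc2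
      · have e2 := OpsT_F_sym h.1 ((i + 1 : ℕ) : ℤ)
        rcases Nat.lt_or_ge d (2 * i + 1) with hc3 | hc3
        · rw [e2, show (d : ℤ) - ((i + 1 : ℕ) : ℤ) = (i : ℤ) - 1 by push_cast; omega]
          omega
        · rw [e2, show (d : ℤ) - ((i + 1 : ℕ) : ℤ) = (i : ℤ) by push_cast; omega]
      · exact OpsT_flat h i hinc (i + 1) (Nat.le_succ _) hc2
    omega

private theorem OpsT_brT (hU : S_UniOps) (d a : ℕ) (f : ℤ[X]) (h : UniT 0 d f) :
    UniT 0 (d + a) (br (a + 1) * f) := by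
  refine ⟨hU.2.2.1 d a f h.1, fun i j _ hij hj hi => ?_⟩
  induction j with
  | zero =>
    have : i = 0 := by omega
    rw [← this]
    exact hi
  | succ j ih =>
    rcases Nat.lt_or_ge j i with hlt | hge
    · have : i = j + 1 := by omega
      rw [← this]
      exact hi
    · exact OpsT_stepT h a j (ih hge (by omega)) hj

private theorem OpsT_one : UniT 0 0 1 := by
  refine ⟨⟨fun j hj => ?_, fun i j hij => ?_, ?_, fun j hj => ?_⟩, fun i j _ hij hj hi => ?_⟩
  · rw [coeff_one, if_neg (by omega)]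
  · have h1 : i = 0 := by omega
    have h2 : j = 0 := by omega
    rw [h1, h2]
  · rw [coeff_one, if_pos rfl]
    exact zero_le_one
  · omega
  · have h1 : i = j := by omega
    rw [← h1]
    exact hi

theorem tOpsT (h : S_UniOps) : S_OpsT := by
  refine ⟨fun s d => ⟨h.1 d, fun i j _ _ _ _ => ?_⟩, fun s d f g hf hg =>
    ⟨h.2.1 d f g hf.1 hg.1, fun i j hs hij hj hi => ?_⟩, OpsT_brT h, fun d f hf =>
    ⟨h.2.2.2 d f hf.1, fun i j hs hij hj hi => ?_⟩, fun d f hf =>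
    ⟨hf.1, fun i j _ hij hj hi => hf.2 i j (Nat.zero_le _) hij hj hi⟩, fun d f hf h0 =>
    ⟨hf.1, fun i j _ hij hj hi => ?_⟩, fun a b => ?_⟩
  · unfold inc
    rw [mul_zero, coeff_zero]
  · rw [OpsT_inc_add] at hi ⊢
    have h1 := OpsT_nonneg hf.1 i (by omega)
    have h2 := OpsT_nonneg hg.1 i (by omega)
    rw [hf.2 i j hs hij hj (by omega), hg.2 i j hs hij hj (by omega), add_zero]
  · obtain ⟨i', rfl⟩ : ∃ i', i = i' + 1 := ⟨i - 1, by omega⟩
    obtain ⟨j', rfl⟩ : ∃ j', j = j' + 1 := ⟨j - 1, by omega⟩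
    rw [OpsT_inc_X] at hi ⊢
    exact hf.2 i' j' (Nat.zero_le _) (by omega) (by omega) hi
  · rcases Nat.eq_zero_or_pos i with hi0 | hi0
    · rw [hi0, OpsT_inc_zero] at hi
      omega
    · exact hf.2 i j hi0 hij hj hi
  · have h1 := OpsT_brT h 0 b 1 OpsT_one
    rw [mul_one, Nat.zero_add] at h1
    have h2 := OpsT_brT h b a (br (b + 1)) h1
    rwa [Nat.add_comm] at h2

end Pool.Agent.HM3
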