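import Pool.Agent.HM3.SpecT

/-! HM3, RhoT: the increments of `rho`. -/

namespace Pool.Agent.HM3

open Polynomial Matrix

theorem tRhoT (h1 : S_Id) (h2 : S_RhoUni) (h3 : S_StarT) : S_RhoT := by
  intro x
  refine ⟨h2 x, fun i j _ hij hj hi => ?_⟩
  unfold inc at hi ⊢
  rw [(h1 x).2.1] at hi ⊢
  exact (h3 x).2 i j hij (by omega) hi

end Pool.Agent.HM3
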