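import Pool.Agent.HM3.SpecT

set_option autoImplicit false

namespace Pool.Agent.HM3

open Polynomial Matrix

private theorem RotT_app (u v : List Bool) : MM (u ++ v) = MM u * MM v := by
  induction u with
  | nil => simp [MM]
  | cons c u ih =>
    rw [List.cons_append]
    show lt c * MM (u ++ v) = lt c * MM u * MM v
    rw [ih, Matrix.mul_assoc]

private def RotTP (u : List Bool) : Prop := ∃ G : ℤ[X], UniT 1 (u.length - 2) G ∧
  (MM u).trace = X ^ nA u + X ^ nB u + kap * (br (nA u) * br (nB u) + G)

private theorem RotT_rot (r s : List Bool) (h : RotTP (s ++ r)) : RotTP (r ++ s) := by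
  obtain ⟨G, hG, he⟩ := h
  have hl : (s ++ r).length = (r ++ s).length := by
    rw [List.length_append, List.length_append]
    omega
  have hA : nA (s ++ r) = nA (r ++ s) := by
    unfold nA
    rw [List.count_append, List.count_append]
    omega
  have hB : nB (s ++ r) = nB (r ++ s) := by
    unfold nB
    rw [List.count_append, List.count_append]
    omega
  have ht : (MM (r ++ s)).trace = (MM (s ++ r)).trace := by
    rw [RotT_app, RotT_app, Matrix.trace_mul_comm]
  refine ⟨G, ?_, ?_⟩
  · rw [← hl]
    exact hG
  · rw [ht, he, hA, hB]

private theorem RotT_good (h1 : S_Norm) (h2 : S_BlkT) (v : List Bool) (hh : v.head? = some true)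
    (hl : v.getLast? = some false) : RotTP v := by
  obtain ⟨a, b, l, rfl⟩ := h1 v hh hl
  exact h2 l a b

private theorem RotT_true (n : ℕ) : MM (List.replicate n true) 0 0 = 1 ∧
    MM (List.replicate n true) 1 0 = 0 ∧ MM (List.replicate n true) 1 1 = X ^ n := by
  induction n with
  | zero => simp [MM]
  | succ n ih =>
    obtain ⟨h1, h2, h3⟩ := ih
    rw [List.replicate_succ]
    have h : MM (true :: List.replicate n true) = lt true * MM (List.replicate n true) := rfl
    rw [h]
    simp only [Matrix.mul_apply, Fin.sum_univ_two, lt, if_true, Matrix.of_apply,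
      Matrix.cons_val_zero, Matrix.cons_val_one, Matrix.cons_val_fin_one, h1, h2, h3]
    refine ⟨by ring, by ring, by ring⟩

private theorem RotT_false (n : ℕ) : MM (List.replicate n false) 0 0 = 1 ∧
    MM (List.replicate n false) 0 1 = 0 ∧ MM (List.replicate n false) 1 1 = X ^ n := by
  induction n with
  | zero => simp [MM]
  | succ n ih =>
    obtain ⟨h1, h2, h3⟩ := ih
    rw [List.replicate_succ]
    have h : MM (false :: List.replicate n false) = lt false * MM (List.replicate n false) := rfl
    rw [h]
    simp only [Matrix.mul_apply, Fin.sum_univ_two, lt, Bool.false_eq_true, if_false,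
      Matrix.of_apply, Matrix.cons_val_zero, Matrix.cons_val_one, Matrix.cons_val_fin_one, h1, h2,
      h3]
    refine ⟨by ring, by ring, by ring⟩

private theorem RotT_const (h3 : S_OpsT) (n : ℕ) (c : Bool) : RotTP (List.replicate n c) := by
  refine ⟨0, h3.1 _ _, ?_⟩
  cases c
  · have hA : nA (List.replicate n false) = 0 := by
      unfold nA
      rw [List.count_eq_zero]
      intro h
      exact absurd (List.eq_of_mem_replicate h) (by decide)
    have hB : nB (List.replicate n false) = n := by
      unfold nB
      rw [List.count_replicate_self]
    rw [Matrix.trace_fin_two, (RotT_false n).1, (RotT_false n).2.2, hA, hB]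
    simp [br]
  · have hA : nA (List.replicate n true) = n := by
      unfold nA
      rw [List.count_replicate_self]
    have hB : nB (List.replicate n true) = 0 := by
      unfold nB
      rw [List.count_eq_zero]
      intro h
      exact absurd (List.eq_of_mem_replicate h) (by decide)
    rw [Matrix.trace_fin_two, (RotT_true n).1, (RotT_true n).2.2, hA, hB]
    simp [br]
    ring

private theorem RotT_lastF (u : List Bool) : (∀ x ∈ u, x = true) ∨
    ∃ (p : List Bool) (j : ℕ), u = p ++ (false :: List.replicate j true) := by
  induction u with
  | nil => left; simp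
  | cons c u ih =>
    rcases ih with ih | ⟨p, j, ih⟩
    · cases c
      · right
        refine ⟨[], u.length, ?_⟩
        rw [List.nil_append]
        congr 1
        exact List.eq_replicate_of_mem ih
      · left
        intro x hx
        rcases List.mem_cons.1 hx with h | h
        · exact h
        · exact ih x h
    · right
      refine ⟨c :: p, j, ?_⟩
      rw [ih]
      rfl

private theorem RotT_fstT (u : List Bool) : (∀ x ∈ u, x = false) ∨
    ∃ (i : ℕ) (s : List Bool), u = List.replicate i false ++ (true :: s) := by
  induction u with
  | nil => left; simp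
  | cons c u ih =>
    cases c
    · rcases ih with ih | ⟨i, s, ih⟩
      · left
        intro x hx
        rcases List.mem_cons.1 hx with h | h
        · exact h
        · exact ih x h
      · right
        refine ⟨i + 1, s, ?_⟩
        rw [ih, List.replicate_succ]
        rfl
    · right
      exact ⟨0, u, rfl⟩

theorem tRotT (h1 : S_Norm) (h2 : S_BlkT) (h3 : S_OpsT) : S_RotT := by
  intro u
  show RotTP u
  rcases RotT_lastF u with h | ⟨p, j, hu⟩
  · rw [List.eq_replicate_of_mem h]
    exact RotT_const h3 _ _
  rcases RotT_fstT u with h | ⟨i, s, hu'⟩
  · rw [List.eq_replicate_of_mem h]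
    exact RotT_const h3 _ _
  cases j with
  | zero =>
    have hlast : u.getLast? = some false := by
      rw [hu, List.replicate_zero]
      simp
    cases i with
    | zero =>
      refine RotT_good h1 h2 u ?_ hlast
      rw [hu', List.replicate_zero]
      rfl
    | succ i =>
      rw [hu']
      refine RotT_rot _ _ (RotT_good h1 h2 _ rfl ?_)
      rw [List.replicate_succ', ← List.append_assoc]
      exact List.getLast?_concat
  | succ j =>
    have e : p ++ (false :: List.replicate (j + 1) true) =
        (p ++ [false]) ++ List.replicate (j + 1) true := by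
      rw [List.append_assoc]
      rfl
    rw [hu, e]
    refine RotT_rot _ _ (RotT_good h1 h2 _ ?_ ?_)
    · rw [List.replicate_succ]
      rfl
    · rw [← List.append_assoc]
      simp

end Pool.Agent.HM3
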