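import Pool.Agent.HM3.SpecT

/-!
# HM3, StarT: the strict form of the main positivity
-/

namespace Pool.Agent.HM3

open Polynomial Matrix

private theorem tt_ea_false (w : List Bool) : ea (false :: w) = ea w := by
  show (lt false * MM w) 0 0 = MM w 0 0
  rw [Matrix.mul_apply, Fin.sum_univ_two]
  simp [lt]

private theorem tt_ed_true (w : List Bool) : ed (true :: w) = X * ed w := by
  show (lt true * MM w) 1 1 = X * MM w 1 1
  rw [Matrix.mul_apply, Fin.sum_univ_two]
  simp [lt]

private theorem tt_sw_cons (c : Bool) (w : List Bool) : sw (c :: w) = (!c) :: sw w := rfl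

private theorem tt_sw_append (u v : List Bool) : sw (u ++ v) = sw u ++ sw v := List.map_append

private theorem tt_sw_sw (w : List Bool) : sw (sw w) = w := by
  induction w with
  | nil => rfl
  | cons c w ih => rw [tt_sw_cons, tt_sw_cons, ih, Bool.not_not]

private theorem tt_sw_length (w : List Bool) : (sw w).length = w.length := List.length_map _

private def CT (x : List Bool) : Prop := LowT (x.length + 1) (ea (sw x) - X * ed x)

private def Itv (m : ℕ) (f : ℤ[X]) : Prop :=
  ∀ a b c, a ≤ b → b ≤ c → 2 * c ≤ m → f.coeff a ≠ 0 → f.coeff b = 0 → f.coeff c = 0

private theorem tt_low_X {m : ℕ} {f : ℤ[X]} (h : Low m f) : Low (m + 2) (X * f) := by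
  intro j hj
  rcases j with _ | j
  · rw [mul_comm, coeff_mul_X_zero]
  · rw [coeff_X_mul]
    exact h j (by omega)

private theorem tt_itv_X {m : ℕ} {f : ℤ[X]} (h : Itv m f) : Itv (m + 2) (X * f) := by
  intro a b c hab hbc hc ha hb
  rcases a with _ | a
  · exact absurd (by rw [mul_comm, coeff_mul_X_zero]) ha
  obtain ⟨b, rfl⟩ : ∃ b', b = b' + 1 := ⟨b - 1, by omega⟩
  obtain ⟨c, rfl⟩ : ∃ c', c = c' + 1 := ⟨c - 1, by omega⟩
  rw [coeff_X_mul] at ha hb ⊢
  exact h a b c (by omega) (by omega) (by omega) ha hb

private theorem tt_itv_low {m : ℕ} {f : ℤ[X]} (h : LowT m f) : Itv m f :=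
  fun _ b c _ hbc hc _ hb => h.2 b c hbc hc hb

private theorem tt_itv_neg {m : ℕ} {f g : ℤ[X]} (h : Itv m f) (e : g = -f) : Itv m g := by
  intro a b c hab hbc hc ha hb
  rw [e, coeff_neg] at ha hb ⊢
  rw [h a b c hab hbc hc (fun h' => ha (by rw [h', neg_zero])) (by simpa using hb), neg_zero]

private theorem tt_sign (h1 : S_Id) (n : ℕ) (ih : ∀ x : List Bool, x.length < n → CT x) :
    ∀ (m : ℕ) (v : List Bool), v.length = m → m < n →
      (Low (v.length + 1) (ff v - ff (sw v)) ∨ Low (v.length + 1) (ff (sw v) - ff v)) ∧
      Itv (v.length + 1) (ff v - ff (sw v)) := by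
  intro m
  induction m using Nat.strong_induction_on with
  | _ m ihm =>
    intro v hv hm
    have hzero : ff v - ff (sw v) = 0 →
        (Low (v.length + 1) (ff v - ff (sw v)) ∨ Low (v.length + 1) (ff (sw v) - ff v)) ∧
        Itv (v.length + 1) (ff v - ff (sw v)) := by
      intro h
      rw [h]
      exact ⟨Or.inl fun j _ => by rw [coeff_zero], fun a b c _ _ _ _ _ => coeff_zero c⟩
    rcases v with _ | ⟨c, t⟩
    · exact hzero (sub_self _)
    rcases List.eq_nil_or_concat t with ht | ⟨u, c', ht⟩
    · subst ht
      apply hzero
      have e : ff [c] = 1 + X + X ^ 2 := by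
        cases c
        · simp [ff, ea, eb, ec, ed, MM, lt]
          ring
        · simp [ff, ea, eb, ec, ed, MM, lt]
          ring
      have e' : ff (sw [c]) = 1 + X + X ^ 2 := by
        cases c
        · simp [ff, ea, eb, ec, ed, MM, lt, sw]
          ring
        · simp [ff, ea, eb, ec, ed, MM, lt, sw]
          ring
      rw [e, e', sub_self]
    · subst ht
      have hl : (c :: (u ++ [c'])).length = u.length + 2 := by
        simp
      have hconc : u.concat c' = u ++ [c'] := List.concat_eq_append
      clear hzero
      rw [hconc] at hv ⊢
      rw [hl] at hv ⊢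
      have hlu : u.length < n := by omega
      obtain ⟨-, -, -, h14, h15⟩ := h1 u
      have hcase : c = c' ∨ (c = false ∧ c' = true) ∨ (c = true ∧ c' = false) := by
        cases c <;> cases c' <;> simp
      rcases hcase with h | ⟨rfl, rfl⟩ | ⟨rfl, rfl⟩
      · subst h
        obtain ⟨g1, g2⟩ := ihm u.length (by omega) u rfl hlu
        constructor
        · rcases g1 with h | h
          · left
            rw [h14 c]
            exact tt_low_X h
          · right
            have e : ff (sw (c :: (u ++ [c]))) - ff (c :: (u ++ [c])) =
                X * (ff (sw u) - ff u) := by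
              have := h14 c
              linear_combination -this
            rw [e]
            exact tt_low_X h
        · rw [h14 c]
          exact tt_itv_X g2
      · rw [h15]
        exact ⟨Or.inl (tt_low_X (ih u hlu).1), tt_itv_X (tt_itv_low (ih u hlu))⟩
      · have e0 : sw (true :: (u ++ [false])) = false :: (sw u ++ [true]) := by
          rw [tt_sw_cons, tt_sw_append]
          rfl
        obtain ⟨-, -, -, -, h15'⟩ := h1 (sw u)
        have e1 : sw (false :: (sw u ++ [true])) = true :: (u ++ [false]) := by
          rw [← e0, tt_sw_sw]
        rw [e1] at h15'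
        have h := ih (sw u) (by rw [tt_sw_length]; exact hlu)
        unfold CT at h
        rw [tt_sw_length] at h
        refine ⟨Or.inr ?_, ?_⟩
        · rw [e0, h15']
          exact tt_low_X h.1
        · refine tt_itv_neg (tt_itv_X (tt_itv_low h)) ?_
          rw [e0, ← h15', neg_sub]

theorem tStarT (h1 : S_Id) (h2 : S_Rev) (h3 : S_FRev) (h4 : S_Star) (h5 : S_ChainT)
    (h6 : S_Strip) (h7 : S_StripVal) (h8 : S_FPos) : S_StarT := by
  have main : ∀ (N : ℕ) (x : List Bool), x.length = N → CT x := by
    intro N
    induction N using Nat.strong_induction_on with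
    | _ N ihN =>
      intro x hx
      have ih : ∀ x' : List Bool, x'.length < N → CT x' := fun x' h => ihN _ h x' rfl
      refine ⟨h4 x, ?_⟩
      rcases h6 x with ⟨i, j, hxe⟩ | ⟨i, j, y, hxe⟩
      · intro a b hab hb ha
        have e := h7.1 i j
        rw [← hxe] at e
        have hxl : x.length = i + j := by
          rw [hxe, List.length_append, List.length_replicate, List.length_replicate]
        have hc : ∀ k, 2 * k ≤ x.length + 1 →
            (ea (sw x) - X * ed x).coeff k = if k = 0 then 1 else 0 := by
          intro k hk
          rw [e.1, e.2, ← pow_succ', coeff_sub, coeff_X_pow, if_neg (by omega), sub_zero,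
            coeff_one]
        rw [hc a (by omega)] at ha
        rw [hc b hb]
        have ha0 : a ≠ 0 := by
          rintro rfl
          simp at ha
        rw [if_neg (by omega)]
      · have e := h7.2 i j y
        rw [← hxe] at e
        have hxl : x.length = y.length + (i + j + 2) := by
          rw [hxe]
          simp only [List.length_append, List.length_cons, List.length_replicate]
          omega
        have hyN : y.length < N := by omega
        have hswy := h3 y
        obtain ⟨t, ht⟩ : ∃ t, t = i + j + 2 := ⟨_, rfl⟩
        obtain ⟨n, hn⟩ : ∃ n, n = y.length + 1 := ⟨_, rfl⟩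
        have hc : ∀ k, (ea (sw x) - X * ed x).coeff k =
            (if k ≤ n then (ff y).coeff (n - k) else 0) -
              (if t ≤ k then (ff y).coeff (k - t) else 0) := by
          intro k
          rw [e.1, e.2]
          have e2 : X * (X ^ (i + j + 1) * ff y) = ff y * X ^ t := by
            rw [ht]
            ring
          rw [e2, coeff_sub, coeff_mul_X_pow', (hswy k).2, ← hn]
        have hLT1 : LowT (n + 1) (ff (sw y) - X * ff y) := by
          have h7 := ih (true :: sw y) (by
            rw [List.length_cons, tt_sw_length]
            omega)
          unfold CT at h7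
          rw [tt_sw_cons, tt_sw_sw, Bool.not_true, tt_ea_false, tt_ed_true, List.length_cons,
            tt_sw_length, ← hn] at h7
          have e4 : ea y - X * (X * ed (sw y)) = ff (sw y) - X * ff y := by
            have := (h1 y).2.2.1
            linear_combination -this
          rw [e4] at h7
          exact h7
        have hLT2 : LowT (n + 1) (ff y - X * ff (sw y)) := by
          have h7 := ih (true :: y) (by
            rw [List.length_cons]
            omega)
          unfold CT at h7
          rw [tt_sw_cons, Bool.not_true, tt_ea_false, tt_ed_true, List.length_cons, ← hn] at h7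
          have e4 : ea (sw y) - X * (X * ed y) = ff y - X * ff (sw y) := by
            have := (h1 (sw y)).2.2.1
            rw [tt_sw_sw] at this
            linear_combination -this
          rw [e4] at h7
          exact h7
        have hc1 : ∀ s, 1 ≤ s → 2 * s ≤ n + 1 → (ff (sw y) - X * ff y).coeff s =
            (ff y).coeff (n - s) - (ff y).coeff (s - 1) := by
          intro s hs1 hs2
          obtain ⟨s', rfl⟩ : ∃ s', s = s' + 1 := ⟨s - 1, by omega⟩
          rw [coeff_sub, (hswy (s' + 1)).2, if_pos (by omega), coeff_X_mul, Nat.add_sub_cancel,
            ← hn]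
        have hc2 : ∀ s, 1 ≤ s → 2 * s ≤ n + 1 → (ff y - X * ff (sw y)).coeff s =
            (ff y).coeff s - (ff y).coeff (n + 1 - s) := by
          intro s hs1 hs2
          obtain ⟨s', rfl⟩ : ∃ s', s = s' + 1 := ⟨s - 1, by omega⟩
          rw [coeff_sub, coeff_X_mul, (hswy s').2, if_pos (by omega), ← hn,
            show n + 1 - (s' + 1) = n - s' by omega]
        have hstep : ∀ a, 2 * (a + 1) ≤ n + t → (ea (sw x) - X * ed x).coeff a = 0 →
            (ea (sw x) - X * ed x).coeff (a + 1) = 0 := by
          intro a ha1 ha2
          rw [hc a] at ha2
          rw [hc (a + 1)]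
          by_cases hat : t ≤ a
          · rw [if_pos (by omega), if_pos hat] at ha2
            rw [if_pos (by omega), if_pos (by omega)]
            have hch := h5 n t (a - t) (fun s => (ff y).coeff s) (by omega) (by omega)
              ?_ ?_ ?_ ?_ ?_ ?_ ?_
            · have e3 : n - t - (a - t + 1) = n - (a + 1) := by omega
              have e4 : a - t + 1 = a + 1 - t := by omega
              rw [e3, e4] at hch
              have hch' : (ff y).coeff (a + 1 - t) = (ff y).coeff (n - (a + 1)) := hch
              rw [hch', sub_self]
            · rcases (tt_sign h1 N ih y.length y rfl hyN).1 with h | h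
              · right
                intro s hs
                have h7 := h s (by omega)
                rw [coeff_sub, (hswy s).2, if_pos (by omega), ← hn] at h7
                show (ff y).coeff (n - s) ≤ (ff y).coeff s
                linarith
              · left
                intro s hs
                have h7 := h s (by omega)
                rw [coeff_sub, (hswy s).2, if_pos (by omega), ← hn] at h7
                show (ff y).coeff s ≤ (ff y).coeff (n - s)
                linarith
            · intro p q r hpq hqr hr hp hq
              have h7 := (tt_sign h1 N ih y.length y rfl hyN).2 p q r hpq hqr (by omega)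
              rw [coeff_sub, coeff_sub, coeff_sub, (hswy p).2, (hswy q).2, (hswy r).2,
                if_pos (by omega), if_pos (by omega), if_pos (by omega), ← hn] at h7
              exact sub_eq_zero.1 (h7 (fun h' => hp (sub_eq_zero.1 h')) (sub_eq_zero.2 hq))
            · intro s hs1 hs2
              have h7 := hLT1.1 s hs2
              rw [hc1 s hs1 hs2] at h7
              show (ff y).coeff (s - 1) ≤ (ff y).coeff (n - s)
              linarith
            · intro p q hp hpq hq hpp
              have h7 := hLT1.2 p q hpq hq
              rw [hc1 p hp (by omega), hc1 q (by omega) hq] at h7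
              exact (sub_eq_zero.1 (h7 (sub_eq_zero.2 hpp.symm))).symm
            · intro s hs1 hs2
              have h7 := hLT2.1 s hs2
              rw [hc2 s hs1 hs2] at h7
              show (ff y).coeff (n + 1 - s) ≤ (ff y).coeff s
              linarith
            · intro p q hp hpq hq hpp
              have h7 := hLT2.2 p q hpq hq
              rw [hc2 p hp (by omega), hc2 q (by omega) hq] at h7
              exact (sub_eq_zero.1 (h7 (sub_eq_zero.2 hpp.symm))).symm
            · show (ff y).coeff (a - t) = (ff y).coeff (n - t - (a - t))
              rw [show n - t - (a - t) = n - a by omega]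
              exact (sub_eq_zero.1 ha2).symm
          · rw [if_neg hat, sub_zero] at ha2
            have han : ¬ a ≤ n := by
              intro h
              rw [if_pos h] at ha2
              have := h8 y (n - a) (by omega)
              omega
            rw [if_neg (by omega), if_neg (by omega), sub_zero]
        intro a b hab hb ha
        obtain ⟨d, rfl⟩ : ∃ d, b = a + d := ⟨b - a, by omega⟩
        clear hab
        induction d with
        | zero => exact ha
        | succ d ihd => exact hstep (a + d) (by omega) (ihd (by omega))
  intro x
  exact main x.length x rfl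

end Pool.Agent.HM3
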