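import Pool.Agent.HM3.SpecT

set_option autoImplicit false

namespace Pool.Agent.HM3

open Polynomial Matrix

private theorem WtT_app (u : List Bool) (c : Bool) : MM (u ++ [c]) = MM u * lt c := by
  induction u with
  | nil =>
    show lt c * 1 = 1 * lt c
    rw [Matrix.mul_one, Matrix.one_mul]
  | cons a u ih =>
    rw [List.cons_append]
    show lt a * MM (u ++ [c]) = lt a * MM u * lt c
    rw [ih, Matrix.mul_assoc]

private theorem WtT_smul (h : S_OpsT) (s d k : ℕ) (f : ℤ[X]) (hf : UniT s d f) :
    UniT s d ((k : ℤ[X]) * f) := by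
  induction k with
  | zero =>
    rw [Nat.cast_zero, zero_mul]
    exact h.1 s d
  | succ k ih =>
    have e : ((k + 1 : ℕ) : ℤ[X]) * f = (k : ℤ[X]) * f + f := by
      push_cast
      ring
    rw [e]
    exact h.2.1 s d _ _ ih hf

private theorem WtT_br0 (a : ℕ) : (br (a + 1)).coeff 0 = 1 := by
  unfold br
  rw [Polynomial.coeff_zero_eq_eval_zero, Polynomial.eval_finsetSum, Finset.sum_range_succ']
  simp

/-- The new term is in `UniT 1`. -/
private theorem WtT_new (h : S_OpsT) (a b : ℕ) (G : ℤ[X]) (hG : UniT 1 (a + b) G) :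
    UniT 1 (a + b + 1) (br 2 * (br (a + 1) * br (b + 1) + G)) := by
  have h1 := h.2.2.2.2.2.2 a b
  have h2 := h.2.1 _ _ _ _ (h.2.2.2.2.1 _ _ h1) hG
  have h3 : 0 < (br (a + 1) * br (b + 1) + G).coeff 0 := by
    rw [Polynomial.coeff_add, Polynomial.mul_coeff_zero, WtT_br0, WtT_br0]
    have h4 := hG.1.2.2.1
    omega
  exact h.2.2.2.2.1 _ _ (h.2.2.1 _ 1 _ (h.2.2.2.2.2.1 _ _ h2 h3))

private theorem WtT_true (n : ℕ) : MM (List.replicate n true) 0 0 = 1 ∧
    MM (List.replicate n true) 1 0 = 0 ∧ MM (List.replicate n true) 1 1 = X ^ n := by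
  induction n with
  | zero => simp [MM]
  | succ n ih =>
    obtain ⟨h1, h2, h3⟩ := ih
    rw [List.replicate_succ]
    have h : MM (true :: List.replicate n true) = lt true * MM (List.replicate n true) := rfl
    rw [h]
    simp only [Matrix.mul_apply, Fin.sum_univ_two, lt, if_true, Matrix.of_apply,
      Matrix.cons_val_zero, Matrix.cons_val_one, Matrix.cons_val_fin_one, h1, h2, h3]
    refine ⟨by ring, by ring, by ring⟩

private theorem WtT_false (n : ℕ) : MM (List.replicate n false) 0 0 = 1 ∧
    MM (List.replicate n false) 0 1 = 0 ∧ MM (List.replicate n false) 1 1 = X ^ n := by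
  induction n with
  | zero => simp [MM]
  | succ n ih =>
    obtain ⟨h1, h2, h3⟩ := ih
    rw [List.replicate_succ]
    have h : MM (false :: List.replicate n false) = lt false * MM (List.replicate n false) := rfl
    rw [h]
    simp only [Matrix.mul_apply, Fin.sum_univ_two, lt, Bool.false_eq_true, if_false,
      Matrix.of_apply, Matrix.cons_val_zero, Matrix.cons_val_one, Matrix.cons_val_fin_one, h1, h2,
      h3]
    refine ⟨by ring, by ring, by ring⟩

private theorem WtT_br2 : br 2 = 1 + X := by
  simp [br, Finset.sum_range_succ]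

private theorem WtT_const (u : List Bool) (hu : nA u = 0 ∨ nB u = 0) :
    (MM u).trace = X ^ nA u + X ^ nB u + kap * (br (nA u) * br (nB u) + 0) := by
  have h0 : br 0 = 0 := by simp [br]
  rcases hu with hu | hu
  · have h1 : ∀ x ∈ u, x = false := by
      intro x hx
      cases x
      · rfl
      · exact absurd hx (List.count_eq_zero.1 hu)
    have h2 := List.eq_replicate_of_mem h1
    have hB : nB u = u.length := by
      unfold nB
      rw [h2, List.count_replicate_self, List.length_replicate]
    rw [hu, hB, h0]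
    have h3 := WtT_false u.length
    rw [← h2] at h3
    rw [Matrix.trace_fin_two, h3.1, h3.2.2]
    ring
  · have h1 : ∀ x ∈ u, x = true := by
      intro x hx
      cases x
      · exact absurd hx (List.count_eq_zero.1 hu)
      · rfl
    have h2 := List.eq_replicate_of_mem h1
    have hA : nA u = u.length := by
      unfold nA
      rw [h2, List.count_replicate_self, List.length_replicate]
    rw [hu, hA, h0]
    have h3 := WtT_true u.length
    rw [← h2] at h3
    rw [Matrix.trace_fin_two, h3.1, h3.2.2]
    ring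

private theorem WtT_main (h1 : S_RotT) (h2 : S_OpsT) (l : List (Bool × ℕ)) :
    ∀ u : List Bool, ∃ G : ℤ[X], UniT 1 (u.length + l.length - 2) G ∧
      (nA u + nA (l.map Prod.fst) = 0 ∨ nB u + nB (l.map Prod.fst) = 0 → G = 0) ∧
      (MM u * MMW l).trace = X ^ nA u * pA l + X ^ nB u * pB l +
        kap * (br (nA u + nA (l.map Prod.fst)) * br (nB u + nB (l.map Prod.fst)) + G) := by
  induction l with
  | nil =>
    intro u
    have e1 : nA (List.map Prod.fst ([] : List (Bool × ℕ))) = 0 := rfl
    have e2 : nB (List.map Prod.fst ([] : List (Bool × ℕ))) = 0 := rfl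
    have e3 : MMW [] = 1 := rfl
    have e4 : pA [] = 1 := rfl
    have e5 : pB [] = 1 := rfl
    rw [e1, e2, e3, e4, e5, Matrix.mul_one, mul_one, mul_one, add_zero, add_zero, List.length_nil,
      add_zero]
    by_cases hu : nA u = 0 ∨ nB u = 0
    · exact ⟨0, h2.1 _ _, fun _ => rfl, WtT_const u hu⟩
    · obtain ⟨G, hG, he⟩ := h1 u
      exact ⟨G, hG, fun h => absurd h hu, he⟩
  | cons ck l ih =>
    intro u
    obtain ⟨c, k⟩ := ck
    obtain ⟨G1, hG1, hz1, he1⟩ := ih (u ++ [c])
    obtain ⟨G2, hG2, hz2, he2⟩ := ih u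
    have hlen : (u ++ [c]).length = u.length + 1 := by simp
    rw [hlen] at hG1
    rw [List.length_cons]
    have eA : nA (u ++ [c]) = nA u + (if c then 1 else 0) := by
      unfold nA
      rw [List.count_append]
      cases c <;> simp
    have eB : nB (u ++ [c]) = nB u + (if c then 0 else 1) := by
      unfold nB
      rw [List.count_append]
      cases c <;> simp
    have eA' : nA (List.map Prod.fst ((c, k) :: l)) =
        (if c then 1 else 0) + nA (l.map Prod.fst) := by
      unfold nA
      rw [List.map_cons, List.count_cons]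
      cases c <;> simp
      ring
    have eB' : nB (List.map Prod.fst ((c, k) :: l)) =
        (if c then 0 else 1) + nB (l.map Prod.fst) := by
      unfold nB
      rw [List.map_cons, List.count_cons]
      cases c <;> simp
      ring
    have hM : MM u * MMW ((c, k) :: l) =
        MM (u ++ [c]) * MMW l + ((k : ℤ[X]) * (1 + X)) • (MM u * MMW l) := by
      have e : MMW ((c, k) :: l) = (lt c + ((k : ℤ[X]) * (1 + X)) •
        (1 : Matrix (Fin 2) (Fin 2) ℤ[X])) * MMW l := rfl
      rw [e, Matrix.add_mul, Matrix.mul_add, Matrix.smul_mul, Matrix.one_mul, Matrix.mul_smul,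
        WtT_app, Matrix.mul_assoc]
    have hpA : pA ((c, k) :: l) = (if c then dB k else dA k) * pA l := rfl
    have hpB : pB ((c, k) :: l) = (if c then dA k else dB k) * pB l := rfl
    refine ⟨G1 + (k : ℤ[X]) * (br 2 * (br (nA u + nA (l.map Prod.fst)) *
      br (nB u + nB (l.map Prod.fst)) + G2)), ?_, ?_, ?_⟩
    · -- unimodality
      have hcount : nA u + nA (l.map Prod.fst) + (nB u + nB (l.map Prod.fst)) =
          u.length + l.length := by
        have a1 := List.count_true_add_count_false u
        have a2 := List.count_true_add_count_false (l.map Prod.fst)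
        rw [List.length_map] at a2
        unfold nA nB
        omega
      have e : u.length + 1 + l.length - 2 = u.length + (l.length + 1) - 2 := by omega
      rw [e] at hG1
      refine h2.2.1 _ _ _ _ hG1 (WtT_smul h2 _ _ _ _ ?_)
      have h0 : br 0 = 0 := by simp [br]
      rcases Nat.eq_zero_or_pos (nA u + nA (l.map Prod.fst)) with h | h
      · rw [hz2 (Or.inl h), h, h0, zero_mul, add_zero, mul_zero]
        exact h2.1 _ _
      rcases Nat.eq_zero_or_pos (nB u + nB (l.map Prod.fst)) with h' | h'
      · rw [hz2 (Or.inr h'), h', h0, mul_zero, add_zero, mul_zero]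
        exact h2.1 _ _
      obtain ⟨a, ha⟩ : ∃ a, nA u + nA (l.map Prod.fst) = a + 1 := ⟨_, (Nat.sub_add_cancel h).symm⟩
      obtain ⟨b, hb⟩ : ∃ b, nB u + nB (l.map Prod.fst) = b + 1 := ⟨_, (Nat.sub_add_cancel h').symm⟩
      rw [ha, hb] at hcount ⊢
      have e2 : u.length + l.length - 2 = a + b := by omega
      rw [e2] at hG2
      have h3 := WtT_new h2 a b G2 hG2
      have e3 : a + b + 1 = u.length + (l.length + 1) - 2 := by omega
      rw [e3] at h3
      exact h3
    · intro hle
      rw [eA', eB'] at hle
      have h0 : br 0 = 0 := by simp [br]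
      have hle1 : nA (u ++ [c]) + nA (l.map Prod.fst) = 0 ∨
          nB (u ++ [c]) + nB (l.map Prod.fst) = 0 := by
        rw [eA, eB]
        omega
      have hle2 : nA u + nA (l.map Prod.fst) = 0 ∨ nB u + nB (l.map Prod.fst) = 0 := by omega
      rw [hz1 hle1, hz2 hle2]
      rcases hle2 with h | h
      · rw [h, h0]
        ring
      · rw [h, h0]
        ring
    · rw [hM, Matrix.trace_add, Matrix.trace_smul, he1, he2, eA, eB, eA', eB', hpA, hpB, smul_eq_mul,
        WtT_br2]
      cases c
      · simp only [Bool.false_eq_true, if_false, dA, dB]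
        rw [zero_add, add_zero, ← add_assoc (nB u) 1, pow_succ]
        ring
      · simp only [if_true, dA, dB]
        rw [zero_add, add_zero, ← add_assoc (nA u) 1, pow_succ]
        ring

theorem tWtT (h1 : S_RotT) (h2 : S_OpsT) : S_WtT := by
  intro l
  obtain ⟨G, hG, -, he⟩ := WtT_main h1 h2 l []
  refine ⟨G, ?_, ?_⟩
  · rw [List.length_nil, zero_add] at hG
    exact hG
  · have e1 : nA [] = 0 := rfl
    have e2 : nB [] = 0 := rfl
    have e3 : MM [] = 1 := rfl
    rw [e1, e2, e3, Matrix.one_mul, pow_zero, one_mul, one_mul, zero_add, zero_add] at he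
    exact he

end Pool.Agent.HM3
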