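import Pool.Agent.HM3.MainW
import Pool.Agent.HM3.ChainT
import Pool.Agent.HM3.FPos
import Pool.Agent.HM3.StarT
import Pool.Agent.HM3.RhoT
import Pool.Agent.HM3.OpsT
import Pool.Agent.HM3.BlkT
import Pool.Agent.HM3.RotT
import Pool.Agent.HM3.WtT
import Pool.Agent.HM3.FinalT

/-!
# HM3, Main: assembly of the strict theorem
-/

namespace Pool.Agent.HM3

theorem m_StarT : S_StarT := tStarT m_Id tRev m_FRev m_Star tChainT tStrip tStripVal tFPos
theorem m_RhoT : S_RhoT := tRhoT m_Id m_RhoUni m_StarT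
theorem m_OpsT : S_OpsT := tOpsT tUniOps
theorem m_BlkT : S_BlkT := tBlkT m_Swap m_RhoT m_OpsT
theorem m_RotT : S_RotT := tRotT tNorm m_BlkT m_OpsT
theorem m_WtT : S_WtT := tWtT m_RotT m_OpsT
theorem m_FinalT : S_FinalT := tFinalT m_OpsT m_WtT m_DetW m_AlexW m_SigW

end Pool.Agent.HM3
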