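import Pool.Agent.HM3.Spec

/-! HM3, Norm. -/

namespace Pool.Agent.HM3

open Polynomial Matrix

private theorem norm_aux (w : List Bool) : w.getLast? = some false →
    (w.head? = some true → ∃ (a b : ℕ) (l : List (ℕ × ℕ)), w = blk ((a, b) :: l)) ∧
    (w.head? = some false → ∃ (b : ℕ) (l : List (ℕ × ℕ)),
      w = List.replicate (b + 1) false ++ blk l) := by
  induction w with
  | nil => intro h; simp at h
  | cons c w ih =>
    intro h
    cases w with
    | nil =>
      have hc : c = false := by simpa using h
      subst hc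
      exact ⟨fun h' => by simp at h', fun _ => ⟨0, [], rfl⟩⟩
    | cons d w =>
      rw [List.getLast?_cons_cons] at h
      obtain ⟨h1, h2⟩ := ih h
      cases c <;> cases d
      · obtain ⟨b, l, hb⟩ := h2 rfl
        refine ⟨fun h' => by simp at h', fun _ => ⟨b + 1, l, ?_⟩⟩
        rw [hb, List.replicate_succ (n := b + 1), List.cons_append]
      · obtain ⟨a, b, l, hb⟩ := h1 rfl
        refine ⟨fun h' => by simp at h', fun _ => ⟨0, (a, b) :: l, ?_⟩⟩
        rw [hb]
        rfl
      · obtain ⟨b, l, hb⟩ := h2 rfl
        refine ⟨fun _ => ⟨0, b, l, ?_⟩, fun h' => by simp at h'⟩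
        rw [hb]
        rfl
      · obtain ⟨a, b, l, hb⟩ := h1 rfl
        refine ⟨fun _ => ⟨a + 1, b, l, ?_⟩, fun h' => by simp at h'⟩
        rw [hb]
        change _ = List.replicate (a + 1 + 1) true ++ List.replicate (b + 1) false ++ blk l
        rw [List.replicate_succ (n := a + 1), List.cons_append, List.cons_append]
        rfl

theorem tNorm : S_Norm := fun w h1 h2 => (norm_aux w h2).1 h1

end Pool.Agent.HM3
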