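import Pool.Agent.HM3.SpecW

set_option autoImplicit false

namespace Pool.Agent.HM3

open Polynomial Matrix

private theorem PhiW_TTlt {N : ℕ} (w : Fin N → Bool) (k l : Fin N) (h : l < k) :
    TT w k l = if w k then (if w l then 1 - X else -1) else (if w l then -X else X - 1) := by
  unfold TT
  rw [if_neg (ne_of_gt h), if_pos h]
  cases w k <;> cases w l <;> rfl

private theorem PhiW_cc {N : ℕ} (w : Fin (N + 1) → Bool) (k : Fin (N + 1) → ℕ) (i j : Fin N) :
    TTW w k i.castSucc j.castSucc =
      TTW (fun a => w a.castSucc) (fun a => k a.castSucc) i j := by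
  unfold TTW TT
  simp only [Fin.castSucc_inj, Fin.castSucc_lt_castSucc_iff]

private theorem PhiW_cl {N : ℕ} (w : Fin (N + 1) → Bool) (k : Fin (N + 1) → ℕ) (i : Fin N) :
    TTW w k i.castSucc (Fin.last N) = 0 := by
  unfold TTW TT
  have h1 : i.castSucc ≠ Fin.last N := (Fin.castSucc_lt_last i).ne
  have h2 : ¬ Fin.last N < i.castSucc := not_lt.2 (Fin.castSucc_lt_last i).le
  rw [if_neg h1, if_neg h2, if_neg h1, add_zero]

private theorem PhiW_lc {N : ℕ} (w : Fin (N + 1) → Bool) (k : Fin (N + 1) → ℕ) (j : Fin N) :
    TTW w k (Fin.last N) j.castSucc =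
      if w (Fin.last N) then (if w j.castSucc then 1 - X else -1)
      else (if w j.castSucc then -X else X - 1) := by
  unfold TTW
  have h1 : Fin.last N ≠ j.castSucc := (Fin.castSucc_lt_last j).ne'
  rw [if_neg h1, add_zero, PhiW_TTlt w _ _ (Fin.castSucc_lt_last j)]

private theorem PhiW_ll {N : ℕ} (w : Fin (N + 1) → Bool) (k : Fin (N + 1) → ℕ) :
    TTW w k (Fin.last N) (Fin.last N) =
      if w (Fin.last N) then dA (k (Fin.last N)) else dB (k (Fin.last N)) := by
  unfold TTW TT dA dB
  rw [if_pos rfl, if_pos rfl]
  split_ifs <;> rfl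

private noncomputable def PhiW_ext {N : ℕ} (Φ' : Matrix (Fin N) (Fin 2) ℤ[X]) (d : ℤ[X])
    (v : Fin 2 → ℤ[X]) : Matrix (Fin (N + 1)) (Fin 2) ℤ[X] :=
  fun j i => Fin.lastCases (motive := fun _ => ℤ[X]) (v i) (fun j' => d * Φ' j' i) j

private theorem PhiW_ext_c {N : ℕ} (Φ' : Matrix (Fin N) (Fin 2) ℤ[X]) (d : ℤ[X])
    (v : Fin 2 → ℤ[X]) (j : Fin N) (i : Fin 2) :
    PhiW_ext Φ' d v j.castSucc i = d * Φ' j i := by
  unfold PhiW_ext
  exact Fin.lastCases_castSucc _

private theorem PhiW_ext_l {N : ℕ} (Φ' : Matrix (Fin N) (Fin 2) ℤ[X]) (d : ℤ[X])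
    (v : Fin 2 → ℤ[X]) (i : Fin 2) : PhiW_ext Φ' d v (Fin.last N) i = v i := by
  unfold PhiW_ext
  exact Fin.lastCases_last

private theorem PhiW_sum {N : ℕ} (w : Fin N → Bool) (f : Fin N → ℤ[X]) (d a b : ℤ[X]) :
    ∑ l, (if w l then a else b) * (d * f l) =
      d * (a * (∑ l, if w l = true then f l else 0) + b * ∑ l, if w l = false then f l else 0) := by
  rw [Finset.mul_sum, Finset.mul_sum, ← Finset.sum_add_distrib, Finset.mul_sum]
  refine Finset.sum_congr rfl fun l _ => ?_
  cases w l
  · simp
    ring
  · simp
    ring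

theorem tPhiW : S_PhiW := by
  intro N
  induction N with
  | zero =>
    intro w k
    have hr : rw' w k = [] := by simp [rw']
    have hp : p0 w k = 1 := by simp [p0]
    rw [hr, hp]
    refine ⟨fun _ _ => 0, fun j => j.elim0, Fin.forall_fin_two.2 ⟨?_, ?_⟩,
      Fin.forall_fin_two.2 ⟨?_, ?_⟩⟩
    · simp [MMW]
    · simp [MMW]
    · simp [MMW]
    · simp [MMW]
  | succ N ih =>
    intro w k
    obtain ⟨Φ', hT, hF, hTr⟩ := ih (fun a => w a.castSucc) (fun a => k a.castSucc)
    obtain ⟨M', hM'⟩ : ∃ M' : Matrix (Fin 2) (Fin 2) ℤ[X],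
      M' = MMW (rw' (fun a => w a.castSucc) (fun a => k a.castSucc)) := ⟨_, rfl⟩
    obtain ⟨p', hp'⟩ : ∃ p' : ℤ[X], p' = p0 (fun a => w a.castSucc) (fun a => k a.castSucc) :=
      ⟨_, rfl⟩
    have hM : MMW (rw' w k) = ltW (!w (Fin.last N), k (Fin.last N)) * M' := by
      rw [hM']
      have e : rw' w k = (!w (Fin.last N), k (Fin.last N)) ::
          rw' (fun a => w a.castSucc) (fun a => k a.castSucc) := by
        unfold rw'
        rw [List.ofFn_succ', List.concat_eq_append, List.reverse_append]
        rfl
      rw [e]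
      rfl
    have hp : p0 w k = p' * (if w (Fin.last N) then dA (k (Fin.last N)) else dB (k (Fin.last N))) := by
      rw [hp']
      exact Fin.prod_univ_castSucc _
    rw [← hM'] at hF hTr
    rw [← hp'] at hF hTr hT
    cases hc : w (Fin.last N)
    · -- the last letter is `false`
      rw [hc] at hM hp
      rw [if_neg (by decide)] at hp
      refine ⟨PhiW_ext Φ' (dB (k (Fin.last N))) (fun i => (1 - X) * M' 0 i + X * M' 1 i),
        fun j i => ?_, fun i => ?_, fun i => ?_⟩
      · rw [Matrix.mul_apply, Fin.sum_univ_castSucc]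
        simp only [PhiW_ext_c, PhiW_ext_l]
        refine Fin.lastCases ?_ (fun j' => ?_) j
        · simp only [PhiW_lc, PhiW_ll, hc, Bool.false_eq_true, if_false]
          rw [PhiW_sum, hF i, hTr i, hp]
          fin_cases i
          · simp
            ring
          · simp
            ring
        · rw [PhiW_cl, zero_mul, add_zero]
          simp only [PhiW_cc]
          have h := hT j' i
          rw [Matrix.mul_apply] at h
          have e : ∀ l : Fin N, TTW (fun a => w a.castSucc) (fun a => k a.castSucc) j' l *
              (dB (k (Fin.last N)) * Φ' l i) = dB (k (Fin.last N)) *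
              (TTW (fun a => w a.castSucc) (fun a => k a.castSucc) j' l * Φ' l i) := by
            intro l
            ring
          simp only [e]
          rw [← Finset.mul_sum, h, hp]
          ring
      · rw [Fin.sum_univ_castSucc]
        simp only [PhiW_ext_c, PhiW_ext_l, hc, if_true]
        have e : ∑ j : Fin N, (if w j.castSucc = false then dB (k (Fin.last N)) * Φ' j i else 0) =
            dB (k (Fin.last N)) * ∑ j : Fin N, if w j.castSucc = false then Φ' j i else 0 := by
          rw [Finset.mul_sum]
          exact Finset.sum_congr rfl fun j _ => by split_ifs <;> ring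
        rw [e, hF i, hM, hp, Matrix.mul_apply, Fin.sum_univ_two]
        fin_cases i
        · simp [ltW, lt, dB]
          ring
        · simp [ltW, lt, dB]
          ring
      · rw [Fin.sum_univ_castSucc]
        simp only [PhiW_ext_c, PhiW_ext_l, hc, Bool.false_eq_true, if_false]
        have e : ∑ j : Fin N, (if w j.castSucc = true then dB (k (Fin.last N)) * Φ' j i else 0) =
            dB (k (Fin.last N)) * ∑ j : Fin N, if w j.castSucc = true then Φ' j i else 0 := by
          rw [Finset.mul_sum]
          exact Finset.sum_congr rfl fun j _ => by split_ifs <;> ring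
        rw [e, hTr i, hM, hp, Matrix.mul_apply, Fin.sum_univ_two]
        fin_cases i
        · simp [ltW, lt, dB]
        · simp [ltW, lt, dB]
          ring
    · -- the last letter is `true`
      rw [hc] at hM hp
      rw [if_pos rfl] at hp
      refine ⟨PhiW_ext Φ' (dA (k (Fin.last N))) (fun i => M' 0 i + (X - 1) * M' 1 i),
        fun j i => ?_, fun i => ?_, fun i => ?_⟩
      · rw [Matrix.mul_apply, Fin.sum_univ_castSucc]
        simp only [PhiW_ext_c, PhiW_ext_l]
        refine Fin.lastCases ?_ (fun j' => ?_) j
        · simp only [PhiW_lc, PhiW_ll, hc, if_true]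
          rw [PhiW_sum, hF i, hTr i, hp]
          fin_cases i
          · simp
            ring
          · simp
            ring
        · rw [PhiW_cl, zero_mul, add_zero]
          simp only [PhiW_cc]
          have h := hT j' i
          rw [Matrix.mul_apply] at h
          have e : ∀ l : Fin N, TTW (fun a => w a.castSucc) (fun a => k a.castSucc) j' l *
              (dA (k (Fin.last N)) * Φ' l i) = dA (k (Fin.last N)) *
              (TTW (fun a => w a.castSucc) (fun a => k a.castSucc) j' l * Φ' l i) := by
            intro l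
            ring
          simp only [e]
          rw [← Finset.mul_sum, h, hp]
          ring
      · rw [Fin.sum_univ_castSucc]
        simp only [PhiW_ext_c, PhiW_ext_l, hc, Bool.true_eq_false, if_false]
        have e : ∑ j : Fin N, (if w j.castSucc = false then dA (k (Fin.last N)) * Φ' j i else 0) =
            dA (k (Fin.last N)) * ∑ j : Fin N, if w j.castSucc = false then Φ' j i else 0 := by
          rw [Finset.mul_sum]
          exact Finset.sum_congr rfl fun j _ => by split_ifs <;> ring
        rw [e, hF i, hM, hp, Matrix.mul_apply, Fin.sum_univ_two]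
        fin_cases i
        · simp [ltW, lt, dA]
          ring
        · simp [ltW, lt, dA]
      · rw [Fin.sum_univ_castSucc]
        simp only [PhiW_ext_c, PhiW_ext_l, hc, if_true]
        have e : ∑ j : Fin N, (if w j.castSucc = true then dA (k (Fin.last N)) * Φ' j i else 0) =
            dA (k (Fin.last N)) * ∑ j : Fin N, if w j.castSucc = true then Φ' j i else 0 := by
          rw [Finset.mul_sum]
          exact Finset.sum_congr rfl fun j _ => by split_ifs <;> ring
        rw [e, hTr i, hM, hp, Matrix.mul_apply, Fin.sum_univ_two]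
        fin_cases i
        · simp [ltW, lt, dA]
          ring
        · simp [ltW, lt, dA]
          ring

end Pool.Agent.HM3
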