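import Pool.Agent.HM3.Spec

/-!
# HM3, modules Rev and FRev (helper26)
-/

namespace Pool.Agent.HM3

open Polynomial Matrix

private theorem Rev_t (w : List Bool) : ea (true :: w) = ea w + X * ec w ∧ eb (true :: w) = eb w + X * ed w ∧
    ec (true :: w) = X * ec w ∧ ed (true :: w) = X * ed w := by
  refine ⟨?_, ?_, ?_, ?_⟩ <;> simp [ea, eb, ec, ed, MM, lt, Matrix.mul_apply, Fin.sum_univ_two]

private theorem Rev_f (w : List Bool) : ea (false :: w) = ea w ∧ eb (false :: w) = eb w ∧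
    ec (false :: w) = ea w + X * ec w ∧ ed (false :: w) = eb w + X * ed w := by
  refine ⟨?_, ?_, ?_, ?_⟩ <;> simp [ea, eb, ec, ed, MM, lt, Matrix.mul_apply, Fin.sum_univ_two]

private theorem Rev_st (w : List Bool) : sw (true :: w) = false :: sw w := rfl

private theorem Rev_sf (w : List Bool) : sw (false :: w) = true :: sw w := rfl

/-- nonnegative coefficients -/
private def RNn (f : ℤ[X]) : Prop := ∀ j, 0 ≤ f.coeff j

/-- degree at most N -/
private def RDg (N : ℕ) (f : ℤ[X]) : Prop := ∀ j, N < j → f.coeff j = 0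

/-- f is the reversal of g -/
private def RRv (N : ℕ) (f g : ℤ[X]) : Prop := ∀ j, f.coeff j = if j ≤ N then g.coeff (N - j) else 0

private theorem RNn_X {f : ℤ[X]} (h : RNn f) : RNn (X * f) := by
  intro j
  cases j with
  | zero => simp
  | succ j => rw [coeff_X_mul]; exact h j

private theorem RNn_add {f g : ℤ[X]} (hf : RNn f) (hg : RNn g) : RNn (f + g) := by
  intro j
  rw [coeff_add]
  exact add_nonneg (hf j) (hg j)

private theorem RDg_X {N : ℕ} {f : ℤ[X]} (h : RDg N f) : RDg (N + 1) (X * f) := by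
  intro j hj
  cases j with
  | zero => omega
  | succ j => rw [coeff_X_mul]; exact h j (by omega)

private theorem RDg_s {N : ℕ} {f : ℤ[X]} (h : RDg N f) : RDg (N + 1) f := fun j hj => h j (by omega)

private theorem RDg_add {N : ℕ} {f g : ℤ[X]} (hf : RDg N f) (hg : RDg N g) : RDg N (f + g) := by
  intro j hj
  rw [coeff_add, hf j hj, hg j hj, add_zero]

private theorem RRv_1 {N : ℕ} {f g : ℤ[X]} (h : RRv N f g) : RRv (N + 1) f (X * g) := by
  intro j
  rw [h j]
  by_cases h1 : j ≤ N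
  · rw [if_pos h1, if_pos (by omega), show N + 1 - j = (N - j) + 1 by omega, coeff_X_mul]
  · rw [if_neg h1]
    by_cases h2 : j ≤ N + 1
    · rw [if_pos h2, show N + 1 - j = 0 by omega, coeff_X_mul_zero]
    · rw [if_neg h2]

private theorem RRv_2 {N : ℕ} {f g : ℤ[X]} (h : RRv N f g) (hg : RDg N g) : RRv (N + 1) (X * f) g := by
  intro j
  cases j with
  | zero =>
    rw [coeff_X_mul_zero, if_pos (Nat.zero_le _), hg _ (by omega)]
  | succ j =>
    rw [coeff_X_mul, h j]
    by_cases h1 : j ≤ N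
    · rw [if_pos h1, if_pos (by omega), show N + 1 - (j + 1) = N - j by omega]
    · rw [if_neg h1, if_neg (by omega)]

private theorem RRv_add {N : ℕ} {f g f' g' : ℤ[X]} (h : RRv N f g) (h' : RRv N f' g') :
    RRv N (f + f') (g + g') := by
  intro j
  rw [coeff_add, h j, h' j]
  by_cases h1 : j ≤ N
  · rw [if_pos h1, if_pos h1, if_pos h1, coeff_add]
  · rw [if_neg h1, if_neg h1, if_neg h1, add_zero]

private theorem RRv_add' {N : ℕ} {f g f' g' : ℤ[X]} (h : RRv N f g) (h' : RRv N f' g') :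
    RRv N (f + f') (g' + g) := by
  rw [add_comm g' g]
  exact RRv_add h h'

private theorem Rev_all (w : List Bool) :
    (RNn (ea w) ∧ RNn (eb w) ∧ RNn (ec w) ∧ RNn (ed w)) ∧
    (RDg w.length (ea w) ∧ RDg w.length (eb w) ∧ RDg w.length (ec w) ∧ RDg w.length (ed w)) ∧
    RRv w.length (ea (sw w)) (ed w) ∧ RRv w.length (eb (sw w)) (ec w) ∧ RRv w.length (ec (sw w)) (eb w) ∧
    RRv w.length (ed (sw w)) (ea w) := by
  induction w with
  | nil =>
    have h1 : ea [] = 1 := by simp [ea, MM]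
    have h2 : eb [] = 0 := by simp [eb, MM]
    have h3 : ec [] = 0 := by simp [ec, MM]
    have h4 : ed [] = 1 := by simp [ed, MM]
    have h5 : sw [] = [] := rfl
    have n1 : RNn (1 : ℤ[X]) := by
      intro j
      rw [coeff_one]
      split_ifs
      · exact zero_le_one
      · exact le_refl _
    have n0 : RNn (0 : ℤ[X]) := fun j => by rw [coeff_zero]
    have d1 : RDg 0 (1 : ℤ[X]) := fun j hj => by rw [coeff_one, if_neg (by omega)]
    have d0 : RDg 0 (0 : ℤ[X]) := fun j _ => by rw [coeff_zero]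
    have r1 : RRv 0 (1 : ℤ[X]) 1 := by
      intro j
      rw [coeff_one]
      by_cases hj : j = 0
      · subst hj
        rw [if_pos rfl, if_pos (le_refl 0), coeff_one, if_pos rfl]
      · rw [if_neg hj, if_neg (by omega)]
    have r0 : RRv 0 (0 : ℤ[X]) 0 := by
      intro j
      rw [coeff_zero, coeff_zero]
      split_ifs <;> rfl
    rw [h5, h1, h2, h3, h4]
    exact ⟨⟨n1, n0, n0, n1⟩, ⟨d1, d0, d0, d1⟩, r1, r0, r0, r1⟩
  | cons c w ih =>
    obtain ⟨⟨na, nb, nc, nd⟩, ⟨da, db, dc, dd⟩, ra, rb, rc, rd⟩ := ih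
    rw [List.length_cons]
    cases c with
    | true =>
      obtain ⟨e1, e2, e3, e4⟩ := Rev_t w
      obtain ⟨f1, f2, f3, f4⟩ := Rev_f (sw w)
      rw [Rev_st, e1, e2, e3, e4, f1, f2, f3, f4]
      exact ⟨⟨RNn_add na (RNn_X nc), RNn_add nb (RNn_X nd), RNn_X nc, RNn_X nd⟩,
        ⟨RDg_add (RDg_s da) (RDg_X dc), RDg_add (RDg_s db) (RDg_X dd), RDg_X dc, RDg_X dd⟩,
        RRv_1 ra, RRv_1 rb, RRv_add' (RRv_1 ra) (RRv_2 rc db), RRv_add' (RRv_1 rb) (RRv_2 rd da)⟩
    | false =>
      obtain ⟨e1, e2, e3, e4⟩ := Rev_f w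
      obtain ⟨f1, f2, f3, f4⟩ := Rev_t (sw w)
      rw [Rev_sf, e1, e2, e3, e4, f1, f2, f3, f4]
      exact ⟨⟨na, nb, RNn_add na (RNn_X nc), RNn_add nb (RNn_X nd)⟩,
        ⟨RDg_s da, RDg_s db, RDg_add (RDg_s da) (RDg_X dc), RDg_add (RDg_s db) (RDg_X dd)⟩,
        RRv_add' (RRv_1 ra) (RRv_2 rc db), RRv_add' (RRv_1 rb) (RRv_2 rd da), RRv_2 rc db, RRv_2 rd da⟩

theorem tRev : S_Rev := by
  intro w j
  obtain ⟨⟨na, nb, nc, nd⟩, -, ra, rb, rc, rd⟩ := Rev_all w
  exact ⟨⟨na j, nb j, nc j, nd j⟩, ra j, rb j, rc j, rd j⟩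

theorem tFRev (h : S_Rev) : S_FRev := by
  have hsw : ∀ w : List Bool, sw (sw w) = w := by
    intro w
    unfold sw
    rw [List.map_map]
    have h1 : (not ∘ not : Bool → Bool) = id := by
      funext b
      cases b <;> rfl
    rw [h1, List.map_id]
  have hlen : ∀ w : List Bool, (sw w).length = w.length := fun w => List.length_map not
  intro w j
  have nn : ∀ j, 0 ≤ (ea w).coeff j ∧ 0 ≤ (eb w).coeff j ∧ 0 ≤ (ec w).coeff j ∧ 0 ≤ (ed w).coeff j :=
    fun j => (h w j).1
  have na : RNn (ea w) := fun j => (nn j).1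
  have nb : RNn (eb w) := fun j => (nn j).2.1
  have nc : RNn (ec w) := fun j => (nn j).2.2.1
  have nd : RNn (ed w) := fun j => (nn j).2.2.2
  have ra : RRv w.length (ea (sw w)) (ed w) := fun j => (h w j).2.1
  have rb : RRv w.length (eb (sw w)) (ec w) := fun j => (h w j).2.2.1
  have rc : RRv w.length (ec (sw w)) (eb w) := fun j => (h w j).2.2.2.1
  have rd : RRv w.length (ed (sw w)) (ea w) := fun j => (h w j).2.2.2.2
  have da : RDg w.length (ea w) := by
    intro j hj
    have h1 := (h (sw w) j).2.1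
    rw [hsw, hlen, if_neg (by omega)] at h1
    exact h1
  have db : RDg w.length (eb w) := by
    intro j hj
    have h1 := (h (sw w) j).2.2.1
    rw [hsw, hlen, if_neg (by omega)] at h1
    exact h1
  refine ⟨?_, ?_⟩
  · unfold ff
    exact RNn_add (RNn_add na nb) (RNn_X (RNn_add nc nd)) j
  · have h1 : RRv (w.length + 1) (ff (sw w)) (ff w) := by
      have e1 : ff (sw w) = (ea (sw w) + eb (sw w)) + (X * ec (sw w) + X * ed (sw w)) := by
        unfold ff
        ring
      have e2 : ff w = (eb w + ea w) + (X * ed w + X * ec w) := by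
        unfold ff
        ring
      rw [e1, e2]
      exact RRv_add' (RRv_add (RRv_1 ra) (RRv_1 rb)) (RRv_add (RRv_2 rc db) (RRv_2 rd da))
    exact h1 j

end Pool.Agent.HM3
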