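import Pool.Agent.HM3.Spec

/-! # HM3, RhoUni: `ρ` is symmetric and unimodal (helper56) -/

namespace Pool.Agent.HM3

open Polynomial Matrix

theorem tRhoUni (h1 : S_Id) (h2 : S_Rev) (h3 : S_Star) : S_RhoUni := by
  intro x
  have hid := (h1 x).2.1
  have hlen : (sw x).length = x.length := by
    unfold sw
    exact List.length_map ..
  have hsw : sw (sw x) = x := by
    unfold sw
    rw [List.map_map]
    conv_rhs => rw [← List.map_id x]
    apply List.map_congr_left
    intro a _
    exact Bool.not_not a
  set e : ℤ[X] := ea (sw x) - X * ed x with he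
  have hc0 : (rho x).coeff 0 = e.coeff 0 := by
    rw [← hid, sub_mul, one_mul, coeff_sub, coeff_X_mul_zero, sub_zero]
  have hcs : ∀ j, (rho x).coeff (j + 1) = (rho x).coeff j + e.coeff (j + 1) := by
    intro j
    rw [← hid, sub_mul, one_mul, coeff_sub, coeff_X_mul]
    ring
  -- coefficients of `e`
  have hd : ∀ j, x.length < j → (ed x).coeff j = 0 := by
    intro j hj
    have h4 := (h2 (sw x) j).2.2.2.2
    rw [hsw, hlen, if_neg (by omega)] at h4
    exact h4
  have he0 : e.coeff 0 = (ed x).coeff x.length := by
    rw [he, coeff_sub, coeff_X_mul_zero, sub_zero, (h2 x 0).2.1, if_pos (Nat.zero_le _),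
      Nat.sub_zero]
  have hes : ∀ j, e.coeff (j + 1) =
      (if j + 1 ≤ x.length then (ed x).coeff (x.length - (j + 1)) else 0) - (ed x).coeff j := by
    intro j
    rw [he, coeff_sub, coeff_X_mul, (h2 x (j + 1)).2.1]
  have hbig : ∀ j, x.length + 1 < j → e.coeff j = 0 := by
    intro j hj
    obtain ⟨i, rfl⟩ : ∃ i, j = i + 1 := ⟨j - 1, by omega⟩
    rw [hes, if_neg (by omega), hd i (by omega), sub_zero]
  have hlast : e.coeff (x.length + 1) = - e.coeff 0 := by
    rw [hes, if_neg (by omega), he0, zero_sub]
  have hanti : ∀ i, i + 1 ≤ x.length → e.coeff (x.length - i) = - e.coeff (i + 1) := by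
    intro i hi
    obtain ⟨m, hm⟩ : ∃ m, x.length - i = m + 1 := ⟨x.length - i - 1, by omega⟩
    rw [hm, hes, hes, if_pos hi, if_pos (by omega)]
    have e1 : x.length - (m + 1) = i := by omega
    have e2 : x.length - (i + 1) = m := by omega
    rw [e1, e2]
    ring
  -- `ρ` vanishes above `N`
  have hzero : ∀ j, x.length < j → (rho x).coeff j = 0 := by
    have hconst : ∀ i, (rho x).coeff (x.length + 1 + i) = (rho x).coeff (x.length + 1) := by
      intro i
      induction i with
      | zero => rfl
      | succ i ih =>
        rw [← add_assoc, hcs, hbig _ (by omega), add_zero, ih]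
    have h5 : (rho x).coeff (x.length + 1) = 0 := by
      rw [← hconst ((rho x).natDegree + 1)]
      apply coeff_eq_zero_of_natDegree_lt
      omega
    intro j hj
    obtain ⟨i, rfl⟩ : ∃ i, j = x.length + 1 + i := ⟨j - (x.length + 1), by omega⟩
    rw [hconst, h5]
  have hsym : ∀ i, i ≤ x.length → (rho x).coeff i = (rho x).coeff (x.length - i) := by
    intro i
    induction i with
    | zero =>
      intro _
      have h5 := hcs x.length
      rw [hzero _ (by omega), hlast] at h5
      rw [Nat.sub_zero, hc0]
      linarith
    | succ i ih =>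
      intro hi
      have h5 := ih (by omega)
      have h6 := hcs (x.length - (i + 1))
      have h7 : x.length - (i + 1) + 1 = x.length - i := by omega
      rw [h7, hanti i hi] at h6
      rw [hcs i]
      linarith
  have hlow := h3 x
  refine ⟨hzero, ?_, ?_, ?_⟩
  · intro i j hij
    have h4 := hsym i (by omega)
    have h5 : x.length - i = j := by omega
    rw [h5] at h4
    exact h4
  · rw [hc0]
    exact hlow 0 (by omega)
  · intro j hj
    have h4 := hlow (j + 1) (by omega)
    rw [hcs j]
    linarith

end Pool.Agent.HM3
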