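import Pool.Agent.HM3.SpecW

/-!
# HM3, SigW: the signature, weighted family
-/

namespace Pool.Agent.HM3

open Polynomial Matrix

variable {N : ℕ}

private theorem SigW_u2 (w : Fin N → Bool) (x y : Loop w) (h : x.1.2 = y.1.2) : x = y := by
  obtain ⟨⟨x1, x2⟩, hx1, hx2, hx3⟩ := x
  obtain ⟨⟨y1, y2⟩, hy1, hy2, hy3⟩ := y
  simp only at h hx1 hx2 hx3 hy1 hy2 hy3
  subst h
  rcases lt_trichotomy x1 y1 with h | h | h
  · exact absurd hy2 (hx3 y1 h hy1)
  · subst h
    rfl
  · exact absurd hx2 (hy3 x1 h hx1)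

private theorem SigW_u1 (w : Fin N → Bool) (x y : Loop w) (h : x.1.1 = y.1.1) : x = y := by
  obtain ⟨⟨x1, x2⟩, hx1, hx2, hx3⟩ := x
  obtain ⟨⟨y1, y2⟩, hy1, hy2, hy3⟩ := y
  simp only at h hx1 hx2 hx3 hy1 hy2 hy3
  subst h
  rcases lt_trichotomy x2 y2 with h | h | h
  · exact absurd (hx2.symm.trans hy2) (hy3 x2 hx1 h)
  · subst h
    rfl
  · exact absurd (hy2.symm.trans hx2) (hx3 y2 hy1 h)

/-- the sign of a letter -/
private def SigW_s (l : Bool) : ℤ := if l then -1 else 1

private theorem SigW_S (w : Fin N → Bool) (k : Fin N → ℕ) (l : Bool) (x y : Loop w)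
    (hx : w x.1.2 = l) (hy : w y.1.2 = l) :
    (seifertW w k + (seifertW w k).transpose) x y = SigW_s l *
      ((if x.1.2 = y.1.2 then 2 * (k x.1.2 : ℤ) + 1 else 0) -
       (if x.1.2 = y.1.1 then 2 * (k x.1.2 : ℤ) + 1 else 0) -
       (if x.1.1 = y.1.2 then 2 * (k x.1.1 : ℤ) + 1 else 0) +
       (if x.1.1 = y.1.1 then 2 * (k x.1.1 : ℤ) + 1 else 0)) := by
  rw [Matrix.add_apply, Matrix.transpose_apply]
  have hx12 := x.2.1
  have hy12 := y.2.1
  by_cases hxy : x = y
  · subst hxy
    have h1 : ¬ x.1.2 = x.1.1 := hx12.ne'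
    have h2 : ¬ x.1.1 = x.1.2 := hx12.ne
    cases l
    · simp only [seifertW, hx, if_true, if_neg h1, if_neg h2, SigW_s]
      norm_num
      ring
    · simp only [seifertW, hx, if_true, if_neg h1, if_neg h2, SigW_s]
      norm_num
      ring
  · have hyx : ¬ y = x := fun h => hxy h.symm
    have h1 : ¬ x.1.2 = y.1.2 := fun h => hxy (SigW_u2 w x y h)
    have h2 : ¬ x.1.1 = y.1.1 := fun h => hxy (SigW_u1 w x y h)
    by_cases h3 : x.1.2 = y.1.1
    · have h4 : ¬ x.1.1 = y.1.2 := by
        intro h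
        rw [h3] at hx12
        rw [h] at hx12
        exact absurd hx12 hy12.not_gt
      have h4' : ¬ y.1.2 = x.1.1 := fun h => h4 h.symm
      cases l
      · simp only [seifertW, hx, hy, if_neg hxy, if_neg hyx, if_neg h1, if_neg h2, if_pos h3,
          if_neg h4, if_neg h4', SigW_s]
        rw [h3]
        norm_num
        ring
      · simp only [seifertW, hx, hy, if_neg hxy, if_neg hyx, if_neg h1, if_neg h2, if_pos h3,
          if_neg h4, if_neg h4', SigW_s]
        rw [h3]
        norm_num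
        ring
    · by_cases h4 : y.1.2 = x.1.1
      · have h4' : x.1.1 = y.1.2 := h4.symm
        cases l
        · simp only [seifertW, hx, hy, if_neg hxy, if_neg hyx, if_neg h1, if_neg h2, if_neg h3,
            if_pos h4, if_pos h4', SigW_s]
          norm_num
          ring
        · simp only [seifertW, hx, hy, if_neg hxy, if_neg hyx, if_neg h1, if_neg h2, if_neg h3,
            if_pos h4, if_pos h4', SigW_s]
          norm_num
          ring
      · have h4' : ¬ x.1.1 = y.1.2 := fun h => h4 h.symm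
        cases l
        · simp only [seifertW, hx, hy, if_neg hxy, if_neg hyx, if_neg h1, if_neg h2, if_neg h3,
            if_neg h4, if_neg h4', SigW_s]
          norm_num
        · simp only [seifertW, hx, hy, if_neg hxy, if_neg hyx, if_neg h1, if_neg h2, if_neg h3,
            if_neg h4, if_neg h4', SigW_s]
          norm_num

private noncomputable def SigW_e (w : Fin N → Bool) (x : Loop w) (c : Fin N) : ℝ :=
  (if x.1.2 = c then 1 else 0) - (if x.1.1 = c then 1 else 0)

private theorem SigW_ee (w : Fin N → Bool) (k : Fin N → ℕ) (x y : Loop w) :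
    ∑ c, (2 * (k c : ℝ) + 1) * (SigW_e w x c * SigW_e w y c) =
      (if x.1.2 = y.1.2 then 2 * (k x.1.2 : ℝ) + 1 else 0) -
       (if x.1.2 = y.1.1 then 2 * (k x.1.2 : ℝ) + 1 else 0) -
       (if x.1.1 = y.1.2 then 2 * (k x.1.1 : ℝ) + 1 else 0) +
       (if x.1.1 = y.1.1 then 2 * (k x.1.1 : ℝ) + 1 else 0) := by
  have h : ∀ c, (2 * (k c : ℝ) + 1) * (SigW_e w x c * SigW_e w y c) =
      (if x.1.2 = c then (if y.1.2 = c then 2 * (k c : ℝ) + 1 else 0) else 0) -
      (if x.1.2 = c then (if y.1.1 = c then 2 * (k c : ℝ) + 1 else 0) else 0) -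
      (if x.1.1 = c then (if y.1.2 = c then 2 * (k c : ℝ) + 1 else 0) else 0) +
      (if x.1.1 = c then (if y.1.1 = c then 2 * (k c : ℝ) + 1 else 0) else 0) := by
    intro c
    unfold SigW_e
    split_ifs <;> ring
  rw [Finset.sum_congr rfl fun c _ => h c, Finset.sum_add_distrib, Finset.sum_sub_distrib,
    Finset.sum_sub_distrib, Finset.sum_ite_eq, Finset.sum_ite_eq, Finset.sum_ite_eq,
    Finset.sum_ite_eq]
  simp only [Finset.mem_univ, if_true]
  have e : ∀ (a b : Fin N) (t : ℝ), (if a = b then t else 0) = if b = a then t else 0 := by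
    intro a b t
    by_cases hab : a = b
    · rw [if_pos hab, if_pos hab.symm]
    · rw [if_neg hab, if_neg (Ne.symm hab)]
  rw [e y.1.2 x.1.2, e y.1.1 x.1.2, e y.1.2 x.1.1, e y.1.1 x.1.1]

private theorem SigW_Q (w : Fin N → Bool) (k : Fin N → ℕ) (l : Bool) (X : Loop w → ℝ)
    (hX : ∀ x : Loop w, ¬ w x.1.2 = l → X x = 0) :
    ∑ x, ∑ y, X x * (((seifertW w k + (seifertW w k).transpose) x y : ℤ) : ℝ) * X y =
      (SigW_s l : ℝ) * ∑ c, (2 * (k c : ℝ) + 1) * (∑ x, X x * SigW_e w x c) ^ 2 := by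
  have h1 : ∀ c : Fin N, (2 * (k c : ℝ) + 1) * (∑ x : Loop w, X x * SigW_e w x c) ^ 2 =
      ∑ x : Loop w, ∑ y : Loop w,
        X x * X y * ((2 * (k c : ℝ) + 1) * (SigW_e w x c * SigW_e w y c)) := by
    intro c
    rw [pow_two, Finset.sum_mul_sum, Finset.mul_sum]
    refine Finset.sum_congr rfl fun x _ => ?_
    rw [Finset.mul_sum]
    refine Finset.sum_congr rfl fun y _ => ?_
    ring
  have h2 : ∑ c : Fin N, (2 * (k c : ℝ) + 1) * (∑ x : Loop w, X x * SigW_e w x c) ^ 2 =
      ∑ x : Loop w, ∑ y : Loop w, X x * X y *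
        ∑ c : Fin N, ((2 * (k c : ℝ) + 1) * (SigW_e w x c * SigW_e w y c)) := by
    simp only [h1]
    rw [Finset.sum_comm]
    refine Finset.sum_congr rfl fun x _ => ?_
    rw [Finset.sum_comm]
    refine Finset.sum_congr rfl fun y _ => ?_
    rw [Finset.mul_sum]
  rw [h2, Finset.mul_sum]
  refine Finset.sum_congr rfl fun x _ => ?_
  rw [Finset.mul_sum]
  refine Finset.sum_congr rfl fun y _ => ?_
  rw [SigW_ee]
  by_cases hx : w x.1.2 = l
  · by_cases hy : w y.1.2 = l
    · rw [SigW_S w k l x y hx hy]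
      push_cast
      ring
    · rw [hX y hy]
      ring
  · rw [hX x hx]
    ring

private theorem SigW_pos (w : Fin N → Bool) (k : Fin N → ℕ) (X : Loop w → ℝ) (hX : X ≠ 0) :
    0 < ∑ c, (2 * (k c : ℝ) + 1) * (∑ x, X x * SigW_e w x c) ^ 2 := by
  have h0 : ∀ c, 0 ≤ (2 * (k c : ℝ) + 1) * (∑ x, X x * SigW_e w x c) ^ 2 := fun c => by positivity
  have h0' : 0 ≤ ∑ c, (2 * (k c : ℝ) + 1) * (∑ x, X x * SigW_e w x c) ^ 2 :=
    Finset.sum_nonneg fun c _ => h0 c
  rcases h0'.lt_or_eq with h | h
  · exact h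
  exfalso
  have hz : ∀ c, ∑ x, X x * SigW_e w x c = 0 := by
    intro c
    have h1 := (Finset.sum_eq_zero_iff_of_nonneg fun c _ => h0 c).1 h.symm c (Finset.mem_univ c)
    have h2 : (2 * (k c : ℝ) + 1) ≠ 0 := by positivity
    exact pow_eq_zero_iff (two_ne_zero) |>.1 ((mul_eq_zero.1 h1).resolve_left h2)
  have hne : ((Finset.univ : Finset (Loop w)).filter fun x => X x ≠ 0).Nonempty := by
    by_contra h1
    rw [Finset.not_nonempty_iff_eq_empty] at h1
    apply hX
    funext x
    by_contra h2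
    have h3 : x ∈ (Finset.univ : Finset (Loop w)).filter fun x => X x ≠ 0 :=
      Finset.mem_filter.2 ⟨Finset.mem_univ x, h2⟩
    rw [h1] at h3
    exact absurd h3 (Finset.notMem_empty x)
  obtain ⟨x, hx, hmin⟩ := Finset.exists_min_image _ (fun x : Loop w => x.1.2) hne
  have hxne := (Finset.mem_filter.1 hx).2
  have h1 := hz x.1.1
  have h2 : ∀ y : Loop w, X y * SigW_e w y x.1.1 = if y = x then - X x else 0 := by
    intro y
    by_cases hyx : y = x
    · subst hyx
      rw [if_pos rfl]
      unfold SigW_e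
      rw [if_neg y.2.1.ne', if_pos rfl]
      ring
    · rw [if_neg hyx]
      by_cases hy : X y = 0
      · rw [hy, zero_mul]
      · have h3 := hmin y (Finset.mem_filter.2 ⟨Finset.mem_univ y, hy⟩)
        unfold SigW_e
        have h4 : ¬ y.1.2 = x.1.1 := by
          intro h4
          have h5 := x.2.1
          rw [← h4] at h5
          exact absurd h3 h5.not_ge
        have h5 : ¬ y.1.1 = x.1.1 := fun h5 => hyx (SigW_u1 w y x h5)
        rw [if_neg h4, if_neg h5, sub_zero, mul_zero]
  rw [Finset.sum_congr rfl fun y _ => h2 y, Finset.sum_ite_eq'] at h1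
  simp only [Finset.mem_univ, if_true, neg_eq_zero] at h1
  exact hxne h1

private theorem SigW_card (w : Fin N → Bool) (l : Bool) (hl : ∃ i, w i = l) :
    ((Finset.univ : Finset (Loop w)).filter fun x => w x.1.2 = l).card + 1 =
      (Finset.univ.filter fun i => w i = l).card := by
  obtain ⟨i0, hi0⟩ := hl
  have hne : (Finset.univ.filter fun i => w i = l).Nonempty :=
    ⟨i0, Finset.mem_filter.2 ⟨Finset.mem_univ _, hi0⟩⟩
  set S := Finset.univ.filter fun i => w i = l with hS
  have hm := S.min'_mem hne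
  have himg : ((Finset.univ : Finset (Loop w)).filter fun x => w x.1.2 = l).image
      (fun x => x.1.2) = S.erase (S.min' hne) := by
    ext i
    rw [Finset.mem_image, Finset.mem_erase]
    constructor
    · rintro ⟨x, hx, rfl⟩
      have hx' := (Finset.mem_filter.1 hx).2
      have h1 : x.1.1 ∈ S := Finset.mem_filter.2 ⟨Finset.mem_univ _, x.2.2.1.trans hx'⟩
      exact ⟨((S.min'_le _ h1).trans_lt x.2.1).ne', Finset.mem_filter.2 ⟨Finset.mem_univ _, hx'⟩⟩
    · rintro ⟨hi, hiS⟩
      have hlt : S.min' hne < i := lt_of_le_of_ne (S.min'_le _ hiS) (Ne.symm hi)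
      have hne' : (S.filter fun j => j < i).Nonempty := ⟨_, Finset.mem_filter.2 ⟨hm, hlt⟩⟩
      have hmax := (S.filter fun j => j < i).max'_mem hne'
      have hwi := (Finset.mem_filter.1 hiS).2
      have hwj := (Finset.mem_filter.1 (Finset.mem_filter.1 hmax).1).2
      refine ⟨⟨((S.filter fun j => j < i).max' hne', i), (Finset.mem_filter.1 hmax).2,
        hwj.trans hwi.symm, ?_⟩, Finset.mem_filter.2 ⟨Finset.mem_univ _, hwi⟩, rfl⟩
      intro j hj1 hj2 hj3
      have h1 : j ∈ S.filter fun j => j < i := Finset.mem_filter.2 ⟨Finset.mem_filter.2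
        ⟨Finset.mem_univ _, hj3.trans hwi⟩, hj2⟩
      exact absurd ((S.filter fun j => j < i).le_max' _ h1) hj1.not_ge
  have h1 := Finset.card_image_of_injective
    ((Finset.univ : Finset (Loop w)).filter fun x => w x.1.2 = l)
    (f := fun x : Loop w => x.1.2) (fun x y h => SigW_u2 w x y h)
  rw [← h1, himg, Finset.card_erase_of_mem hm]
  have h2 := Finset.card_pos.2 hne
  omega

private theorem SigW_tot {ι : Type} [Fintype ι] [DecidableEq ι] (V : Matrix ι ι ℤ) :
    posCount V + negCount V ≤ Fintype.card ι := by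
  unfold posCount negCount
  rw [← Finset.card_union_of_disjoint, ← Finset.card_univ]
  · exact Finset.card_le_card (Finset.subset_univ _)
  · rw [Finset.disjoint_filter]
    intro i _ h1 h2
    exact absurd h1 h2.not_gt

theorem tSigW (h : S_Inertia) : S_SigW := by
  intro N w k hA hB
  have h1 := (h (Loop w) (seifertW w k) (fun x => w x.1.2 = false)).1 (by
    intro X hX hne
    rw [SigW_Q w k false X hX]
    have h2 := SigW_pos w k X hne
    have h3 : ((SigW_s false : ℤ) : ℝ) = 1 := by
      unfold SigW_s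
      norm_num
    rw [h3, one_mul]
    exact h2)
  have h2 := (h (Loop w) (seifertW w k) (fun x => w x.1.2 = true)).2 (by
    intro X hX hne
    rw [SigW_Q w k true X hX]
    have h2 := SigW_pos w k X hne
    have h3 : ((SigW_s true : ℤ) : ℝ) = -1 := by
      unfold SigW_s
      norm_num
    rw [h3]
    linarith)
  have h3 := SigW_tot (seifertW w k)
  have h4 := SigW_card w true hA
  have h5 := SigW_card w false hB
  have h6 : ((Finset.univ : Finset (Loop w)).filter fun x => w x.1.2 = true).card +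
      ((Finset.univ : Finset (Loop w)).filter fun x => w x.1.2 = false).card =
      Fintype.card (Loop w) := by
    rw [← Finset.card_univ, ← Finset.card_filter_add_card_filter_not
      (s := (Finset.univ : Finset (Loop w))) (fun x => w x.1.2 = true)]
    congr 2
    ext x
    simp
  unfold cA cB
  omega

end Pool.Agent.HM3
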