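import Pool.Agent.HM3.Spec

/-!
# HM3, Star (helper29): the main positivity
-/

namespace Pool.Agent.HM3

open Polynomial Matrix

private theorem st_ea_false (w : List Bool) : ea (false :: w) = ea w := by
  show (lt false * MM w) 0 0 = MM w 0 0
  rw [Matrix.mul_apply, Fin.sum_univ_two]
  simp [lt]

private theorem st_ed_true (w : List Bool) : ed (true :: w) = X * ed w := by
  show (lt true * MM w) 1 1 = X * MM w 1 1
  rw [Matrix.mul_apply, Fin.sum_univ_two]
  simp [lt]

private theorem st_sw_cons (c : Bool) (w : List Bool) : sw (c :: w) = (!c) :: sw w := rfl

private theorem st_sw_append (u v : List Bool) : sw (u ++ v) = sw u ++ sw v := List.map_append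

private theorem st_sw_sw (w : List Bool) : sw (sw w) = w := by
  induction w with
  | nil => rfl
  | cons c w ih => rw [st_sw_cons, st_sw_cons, ih, Bool.not_not]

private theorem st_sw_length (w : List Bool) : (sw w).length = w.length := List.length_map _

private def CS (x : List Bool) : Prop := Low (x.length + 1) (ea (sw x) - X * ed x)

private theorem st_low_X {m : ℕ} {f : ℤ[X]} (h : Low m f) : Low (m + 2) (X * f) := by
  intro j hj
  rcases j with _ | j
  · rw [mul_comm, coeff_mul_X_zero]
  · rw [coeff_X_mul]
    exact h j (by omega)

private theorem st_sign (h1 : S_Id) (n : ℕ) (ih : ∀ x : List Bool, x.length < n → CS x) :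
    ∀ (m : ℕ) (v : List Bool), v.length = m → m < n →
      (Low (v.length + 1) (ff v - ff (sw v)) ∨ Low (v.length + 1) (ff (sw v) - ff v)) := by
  intro m
  induction m using Nat.strong_induction_on with
  | _ m ihm =>
    intro v hv hm
    rcases v with _ | ⟨c, t⟩
    · left
      intro j _
      have e : sw ([] : List Bool) = [] := rfl
      rw [e, sub_self, coeff_zero]
    rcases List.eq_nil_or_concat t with ht | ⟨u, c', ht⟩
    · subst ht
      left
      intro j _
      have e : ff [c] = 1 + X + X ^ 2 := by
        cases c
        · simp [ff, ea, eb, ec, ed, MM, lt]
          ring
        · simp [ff, ea, eb, ec, ed, MM, lt]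
          ring
      have e' : ff (sw [c]) = 1 + X + X ^ 2 := by
        cases c
        · simp [ff, ea, eb, ec, ed, MM, lt, sw]
          ring
        · simp [ff, ea, eb, ec, ed, MM, lt, sw]
          ring
      rw [e, e', sub_self, coeff_zero]
    · subst ht
      have hl : (c :: (u ++ [c'])).length = u.length + 2 := by
        simp
      have hconc : u.concat c' = u ++ [c'] := List.concat_eq_append
      rw [hconc] at hv ⊢
      rw [hl] at hv ⊢
      have hlu : u.length < n := by omega
      obtain ⟨-, -, -, h14, h15⟩ := h1 u
      have hcase : c = c' ∨ (c = false ∧ c' = true) ∨ (c = true ∧ c' = false) := by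
        cases c <;> cases c' <;> simp
      rcases hcase with h | ⟨rfl, rfl⟩ | ⟨rfl, rfl⟩
      · subst h
        rcases ihm u.length (by omega) u rfl hlu with h | h
        · left
          rw [h14 c]
          exact st_low_X h
        · right
          have e : ff (sw (c :: (u ++ [c]))) - ff (c :: (u ++ [c])) = X * (ff (sw u) - ff u) := by
            have := h14 c
            linear_combination -this
          rw [e]
          exact st_low_X h
      · left
        rw [h15]
        exact st_low_X (ih u hlu)
      · right
        have e0 : sw (true :: (u ++ [false])) = false :: (sw u ++ [true]) := by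
          rw [st_sw_cons, st_sw_append]
          rfl
        obtain ⟨-, -, -, -, h15'⟩ := h1 (sw u)
        have e1 : sw (false :: (sw u ++ [true])) = true :: (u ++ [false]) := by
          rw [← e0, st_sw_sw]
        rw [e1] at h15'
        rw [e0, h15']
        have h := ih (sw u) (by rw [st_sw_length]; exact hlu)
        unfold CS at h
        rw [st_sw_length] at h
        exact st_low_X h

theorem tStar (h1 : S_Id) (h2 : S_Rev) (h3 : S_FRev) (h4 : S_Chain) (h5 : S_Strip)
    (h6 : S_StripVal) : S_Star := by
  have main : ∀ (N : ℕ) (x : List Bool), x.length = N → CS x := by
    intro N
    induction N using Nat.strong_induction_on with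
    | _ N ihN =>
      intro x hx
      have ih : ∀ x' : List Bool, x'.length < N → CS x' := fun x' h => ihN _ h x' rfl
      rcases h5 x with ⟨i, j, hxe⟩ | ⟨i, j, y, hxe⟩
      · intro k hk
        have e := h6.1 i j
        rw [← hxe] at e
        have hxl : x.length = i + j := by
          rw [hxe, List.length_append, List.length_replicate, List.length_replicate]
        rw [e.1, e.2, ← pow_succ', coeff_sub, coeff_X_pow, if_neg (by omega), sub_zero, coeff_one]
        split_ifs
        · exact zero_le_one
        · exact le_rfl
      · have e := h6.2 i j y
        rw [← hxe] at e
        have hxl : x.length = y.length + (i + j + 2) := by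
          rw [hxe]
          simp only [List.length_append, List.length_cons, List.length_replicate]
          omega
        have hyN : y.length < N := by omega
        have hswy := h3 y
        intro k hk
        rw [e.1, e.2]
        have e2 : X * (X ^ (i + j + 1) * ff y) = ff y * X ^ (i + j + 2) := by ring
        rw [e2, coeff_sub, coeff_mul_X_pow']
        by_cases hkt : i + j + 2 ≤ k
        · rw [if_pos hkt, (hswy k).2, if_pos (by omega)]
          have hch := h4 (y.length + 1) (i + j + 2) (k - (i + j + 2)) (fun s => (ff y).coeff s)
            (by omega) (by omega) ?_ ?_ ?_
          · have e3 : y.length + 1 - (i + j + 2) - (k - (i + j + 2)) = y.length + 1 - k := by omega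
            rw [e3] at hch
            have hch' : (ff y).coeff (k - (i + j + 2)) ≤ (ff y).coeff (y.length + 1 - k) := hch
            linarith
          · rcases st_sign h1 N ih y.length y rfl hyN with h | h
            · right
              intro s hs
              have h7 := h s hs
              rw [coeff_sub, (hswy s).2, if_pos (by omega)] at h7
              show (ff y).coeff (y.length + 1 - s) ≤ (ff y).coeff s
              linarith
            · left
              intro s hs
              have h7 := h s hs
              rw [coeff_sub, (hswy s).2, if_pos (by omega)] at h7
              show (ff y).coeff s ≤ (ff y).coeff (y.length + 1 - s)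
              linarith
          · intro s hs1 hs2
            have h7 := ih (true :: sw y) (by
              rw [List.length_cons, st_sw_length]
              omega)
            unfold CS at h7
            rw [st_sw_cons, st_sw_sw, Bool.not_true, st_ea_false, st_ed_true, List.length_cons,
              st_sw_length] at h7
            have h8 := h7 s (by omega)
            have e4 : ea y - X * (X * ed (sw y)) = ff (sw y) - X * ff y := by
              have := (h1 y).2.2.1
              linear_combination -this
            obtain ⟨s', rfl⟩ : ∃ s', s = s' + 1 := ⟨s - 1, by omega⟩
            rw [e4, coeff_sub, (hswy (s' + 1)).2, if_pos (by omega), coeff_X_mul] at h8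
            show (ff y).coeff (s' + 1 - 1) ≤ (ff y).coeff (y.length + 1 - (s' + 1))
            rw [Nat.add_sub_cancel]
            linarith
          · intro s hs1 hs2
            have h7 := ih (true :: y) (by
              rw [List.length_cons]
              omega)
            unfold CS at h7
            rw [st_sw_cons, Bool.not_true, st_ea_false, st_ed_true, List.length_cons] at h7
            have h8 := h7 s (by omega)
            have e4 : ea (sw y) - X * (X * ed y) = ff y - X * ff (sw y) := by
              have := (h1 (sw y)).2.2.1
              rw [st_sw_sw] at this
              linear_combination -this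
            obtain ⟨s', rfl⟩ : ∃ s', s = s' + 1 := ⟨s - 1, by omega⟩
            rw [e4, coeff_sub, coeff_X_mul, (hswy s').2, if_pos (by omega)] at h8
            show (ff y).coeff (y.length + 1 + 1 - (s' + 1)) ≤ (ff y).coeff (s' + 1)
            have e5 : y.length + 1 + 1 - (s' + 1) = y.length + 1 - s' := by omega
            rw [e5]
            linarith
        · rw [if_neg hkt, sub_zero]
          have h9 := h3 (sw y) k
          exact h9.1
  intro x
  exact main x.length x rfl

end Pool.Agent.HM3
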