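import Pool.Agent.HM3.Spec

/-!
# HM3, module Strip
-/

namespace Pool.Agent.HM3

open Polynomial Matrix

/-- Strip the trailing letters `false`. -/
private theorem Strip_tail : ∀ x : List Bool, (∃ j : ℕ, x = List.replicate j false) ∨
    ∃ (y : List Bool) (j : ℕ), x = y ++ (true :: List.replicate j false)
  | [] => Or.inl ⟨0, rfl⟩
  | false :: x => by
      obtain ⟨j, rfl⟩ | ⟨y, j, rfl⟩ := Strip_tail x
      · exact Or.inl ⟨j + 1, rfl⟩
      · exact Or.inr ⟨false :: y, j, rfl⟩
  | true :: x => by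
      obtain ⟨j, rfl⟩ | ⟨y, j, rfl⟩ := Strip_tail x
      · exact Or.inr ⟨[], j, rfl⟩
      · exact Or.inr ⟨true :: y, j, rfl⟩

theorem tStrip : S_Strip := by
  intro x
  induction x with
  | nil => exact Or.inl ⟨0, 0, rfl⟩
  | cons c x ih =>
    cases c with
    | true =>
      obtain ⟨i, j, rfl⟩ | ⟨i, j, y, rfl⟩ := ih
      · exact Or.inl ⟨i + 1, j, rfl⟩
      · exact Or.inr ⟨i + 1, j, y, rfl⟩
    | false =>
      obtain ⟨j, rfl⟩ | ⟨y, j, rfl⟩ := Strip_tail x
      · exact Or.inl ⟨0, j + 1, rfl⟩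
      · exact Or.inr ⟨0, j, y, rfl⟩

private theorem Strip_append (u v : List Bool) : MM (u ++ v) = MM u * MM v := by
  induction u with
  | nil => rw [List.nil_append, MM, one_mul]
  | cons c u ih => rw [List.cons_append, MM, MM, ih, Matrix.mul_assoc]

private theorem Strip_mul (A B : Matrix (Fin 2) (Fin 2) ℤ[X]) (i j : Fin 2) :
    (A * B) i j = A i 0 * B 0 j + A i 1 * B 1 j := by
  rw [Matrix.mul_apply, Fin.sum_univ_two]

private theorem Strip_lt (i j : Fin 2) :
    lt true i j = (!![1, X; 0, X] : Matrix (Fin 2) (Fin 2) ℤ[X]) i j ∧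
    lt false i j = (!![1, 0; 1, X] : Matrix (Fin 2) (Fin 2) ℤ[X]) i j := by
  constructor
  · rw [lt, if_pos rfl]
  · rw [lt, if_neg (by decide)]

private theorem Strip_lt1 : lt true 0 0 = 1 ∧ lt true 0 1 = X ∧ lt true 1 0 = 0 ∧
    lt true 1 1 = X := by
  refine ⟨?_, ?_, ?_, ?_⟩ <;> rw [(Strip_lt _ _).1] <;> rfl

private theorem Strip_lt0 : lt false 0 0 = 1 ∧ lt false 0 1 = 0 ∧ lt false 1 0 = 1 ∧
    lt false 1 1 = X := by
  refine ⟨?_, ?_, ?_, ?_⟩ <;> rw [(Strip_lt _ _).2] <;> rfl

private theorem Strip_one : (1 : Matrix (Fin 2) (Fin 2) ℤ[X]) 0 0 = 1 ∧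
    (1 : Matrix (Fin 2) (Fin 2) ℤ[X]) 0 1 = 0 ∧ (1 : Matrix (Fin 2) (Fin 2) ℤ[X]) 1 0 = 0 ∧
    (1 : Matrix (Fin 2) (Fin 2) ℤ[X]) 1 1 = 1 := by
  refine ⟨?_, ?_, ?_, ?_⟩ <;> simp

private theorem Strip_repT (i : ℕ) : MM (List.replicate i true) 0 0 = 1 ∧
    MM (List.replicate i true) 1 0 = 0 ∧ MM (List.replicate i true) 1 1 = X ^ i := by
  induction i with
  | zero =>
    rw [List.replicate_zero, MM, pow_zero]
    exact ⟨Strip_one.1, Strip_one.2.2.1, Strip_one.2.2.2⟩
  | succ i ih =>
    obtain ⟨h1, h2, h3⟩ := ih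
    obtain ⟨l1, l2, l3, l4⟩ := Strip_lt1
    rw [List.replicate_succ, MM, Strip_mul, Strip_mul, Strip_mul, h1, h2, h3, l1, l3, l4]
    refine ⟨by ring, by ring, by ring⟩

private theorem Strip_repF (i : ℕ) : MM (List.replicate i false) 0 0 = 1 ∧
    MM (List.replicate i false) 0 1 = 0 ∧ MM (List.replicate i false) 1 1 = X ^ i := by
  induction i with
  | zero =>
    rw [List.replicate_zero, MM, pow_zero]
    exact ⟨Strip_one.1, Strip_one.2.1, Strip_one.2.2.2⟩
  | succ i ih =>
    obtain ⟨h1, h2, h3⟩ := ih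
    obtain ⟨l1, l2, l3, l4⟩ := Strip_lt0
    rw [List.replicate_succ, MM, Strip_mul, Strip_mul, Strip_mul, h1, h2, h3, l1, l2, l3, l4]
    refine ⟨by ring, by ring, by ring⟩

private theorem Strip_eaF (i : ℕ) (w : List Bool) :
    ea (List.replicate i false ++ w) = ea w := by
  obtain ⟨h1, h2, -⟩ := Strip_repF i
  rw [ea, Strip_append, Strip_mul, h1, h2, ea]
  ring

private theorem Strip_eaT (j : ℕ) (w : List Bool) :
    ea (w ++ List.replicate j true) = ea w := by
  obtain ⟨h1, h2, -⟩ := Strip_repT j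
  rw [ea, Strip_append, Strip_mul, h1, h2, ea]
  ring

private theorem Strip_edT (i : ℕ) (w : List Bool) :
    ed (List.replicate i true ++ w) = X ^ i * ed w := by
  obtain ⟨-, h2, h3⟩ := Strip_repT i
  rw [ed, Strip_append, Strip_mul, h2, h3, ed]
  ring

private theorem Strip_edF (j : ℕ) (w : List Bool) :
    ed (w ++ List.replicate j false) = X ^ j * ed w := by
  obtain ⟨-, h2, h3⟩ := Strip_repF j
  rw [ed, Strip_append, Strip_mul, h2, h3, ed]
  ring

private theorem Strip_sing (c : Bool) : MM [c] = lt c := by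
  rw [MM, MM, Matrix.mul_one]

private theorem Strip_ff1 (y : List Bool) : ea (true :: (y ++ [false])) = ff y := by
  obtain ⟨l1, l2, l3, l4⟩ := Strip_lt1
  obtain ⟨m1, m2, m3, m4⟩ := Strip_lt0
  rw [ea, MM, Strip_append, Strip_sing, Strip_mul, Strip_mul, Strip_mul, l1, l2, m1, m3, ff, ea,
    eb, ec, ed]
  ring

private theorem Strip_ff2 (y : List Bool) : ed (false :: (y ++ [true])) = X * ff y := by
  obtain ⟨l1, l2, l3, l4⟩ := Strip_lt1
  obtain ⟨m1, m2, m3, m4⟩ := Strip_lt0
  rw [ed, MM, Strip_append, Strip_sing, Strip_mul, Strip_mul, Strip_mul, l2, l4, m3, m4, ff, ea,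
    eb, ec, ed]
  ring

private theorem Strip_nil : ea [] = 1 ∧ ed [] = 1 := by
  rw [ea, ed, MM]
  exact ⟨Strip_one.1, Strip_one.2.2.2⟩

theorem tStripVal : S_StripVal := by
  refine ⟨fun i j => ⟨?_, ?_⟩, fun i j y => ⟨?_, ?_⟩⟩
  · have h : sw (List.replicate i true ++ List.replicate j false) =
        List.replicate i false ++ ([] ++ List.replicate j true) := by
      rw [sw, List.map_append, List.map_replicate, List.map_replicate, List.nil_append,
        Bool.not_true, Bool.not_false]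
    rw [h, Strip_eaF, Strip_eaT, Strip_nil.1]
  · have h : List.replicate i true ++ List.replicate j false =
        List.replicate i true ++ ([] ++ List.replicate j false) := rfl
    rw [h, Strip_edT, Strip_edF, Strip_nil.2, mul_one, pow_add]
  · have h : sw (List.replicate i true ++ (false :: (y ++ (true :: List.replicate j false)))) =
        List.replicate i false ++ ((true :: (sw y ++ [false])) ++ List.replicate j true) := by
      simp [sw]
    rw [h, Strip_eaF, Strip_eaT, Strip_ff1]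
  · have h : List.replicate i true ++ (false :: (y ++ (true :: List.replicate j false))) =
        List.replicate i true ++ ((false :: (y ++ [true])) ++ List.replicate j false) := by
      simp
    rw [h, Strip_edT, Strip_edF, Strip_ff2]
    ring

end Pool.Agent.HM3
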