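import Pool.Agent.HM3.Spec

/-!
# HM3, module Swap (helper26)
-/

namespace Pool.Agent.HM3

open Polynomial Matrix

private theorem Swap_app (u v : List Bool) : MM (u ++ v) = MM u * MM v := by
  induction u with
  | nil => simp [MM]
  | cons c u ih =>
    change lt c * MM (u ++ v) = lt c * MM u * MM v
    rw [ih, Matrix.mul_assoc]

private theorem Swap_br (a : ℕ) : br (a + 1) = 1 + X * br a := by
  unfold br
  rw [Finset.sum_range_succ', pow_zero, add_comm, Finset.mul_sum]
  congr 1
  exact Finset.sum_congr rfl fun i _ => by rw [pow_succ']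

private theorem Swap_A (a : ℕ) : MM (List.replicate a true) = !![1, br a * X; 0, 1 + br a * (X - 1)] := by
  induction a with
  | zero =>
    change (1 : Matrix (Fin 2) (Fin 2) ℤ[X]) = _
    have h : br 0 = 0 := by simp [br]
    rw [h, Matrix.one_fin_two]
    simp
  | succ a ih =>
    have h1 : MM (List.replicate (a + 1) true) = lt true * MM (List.replicate a true) := rfl
    rw [h1, ih, Swap_br]
    unfold lt
    rw [if_pos rfl, Matrix.mul_fin_two]
    ext i j : 1
    fin_cases i <;> fin_cases j <;> simp <;> ring

private theorem Swap_B (a : ℕ) : MM (List.replicate a false) = !![1, 0; br a, 1 + br a * (X - 1)] := by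
  induction a with
  | zero =>
    change (1 : Matrix (Fin 2) (Fin 2) ℤ[X]) = _
    have h : br 0 = 0 := by simp [br]
    rw [h, Matrix.one_fin_two]
    simp
  | succ a ih =>
    have h1 : MM (List.replicate (a + 1) false) = lt false * MM (List.replicate a false) := rfl
    rw [h1, ih, Swap_br]
    unfold lt
    rw [if_neg (by simp), Matrix.mul_fin_two]
    ext i j : 1
    fin_cases i <;> fin_cases j <;> simp <;> ring

theorem tSwap (h : S_Id) : S_Swap := by
  intro a b x
  rw [(h x).1]
  have h1 : MM (false :: (x ++ [true])) = !![ea x, X * (ea x + eb x);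
      ea x + X * ec x, X * (ea x + eb x) + X * (X * (ec x + ed x))] := by
    have h2 : MM (false :: (x ++ [true])) = lt false * (MM x * (lt true * 1)) := by
      change lt false * MM (x ++ [true]) = _
      rw [Swap_app]
      rfl
    have h3 : MM x = !![ea x, eb x; ec x, ed x] := Matrix.eta_fin_two (MM x)
    rw [h2, h3, mul_one]
    unfold lt
    rw [if_neg (by simp), if_pos rfl, Matrix.mul_fin_two, Matrix.mul_fin_two]
    ext i j : 1
    fin_cases i <;> fin_cases j <;> simp <;> ring
  rw [Swap_app, Swap_app, Swap_app, Swap_app, Swap_A, Swap_B, h1, Matrix.mul_fin_two, Matrix.mul_fin_two,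
    Matrix.mul_fin_two, Matrix.mul_fin_two, Matrix.trace_fin_two, Matrix.trace_fin_two]
  simp only [Matrix.of_apply, Matrix.cons_val', Matrix.cons_val_zero, Matrix.cons_val_one,
    Matrix.cons_val_fin_one]
  ring

end Pool.Agent.HM3
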