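import Pool.Agent.HM3.Spec

/-! HM3, module `UniOps`: operations on symmetric unimodal polynomials. -/

namespace Pool.Agent.HM3

open Polynomial Matrix

private theorem UniOps_mono {d : ℕ} {f : ℤ[X]} (h : Uni d f) (s : ℕ) :
    ∀ t : ℕ, s ≤ t → 2 * t ≤ d → f.coeff s ≤ f.coeff t := by
  intro t
  induction t with
  | zero =>
    intro hst _
    have : s = 0 := by omega
    rw [this]
  | succ t ih =>
    intro hst ht
    by_cases hs : s = t + 1
    · rw [hs]
    · exact (ih (by omega) (by omega)).trans (h.2.2.2 t ht)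

private theorem UniOps_le {d : ℕ} {f : ℤ[X]} (h : Uni d f) (s t : ℕ) (hst : s ≤ t)
    (hd : s + t ≤ d) : f.coeff s ≤ f.coeff t := by
  by_cases ht : 2 * t ≤ d
  · exact UniOps_mono h s t hst ht
  · rw [h.2.1 t (d - t) (by omega)]
    exact UniOps_mono h s (d - t) (by omega) (by omega)

private theorem UniOps_nn {d : ℕ} {f : ℤ[X]} (h : Uni d f) (t : ℕ) : 0 ≤ f.coeff t := by
  by_cases ht : t ≤ d
  · exact h.2.2.1.trans (UniOps_le h 0 t (Nat.zero_le _) (by omega))
  · rw [h.1 t (by omega)]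

private theorem UniOps_coeff (a : ℕ) (f : ℤ[X]) (j : ℕ) :
    (br (a + 1) * f).coeff j =
      ∑ i ∈ Finset.range (a + 1), if i ≤ j then f.coeff (j - i) else 0 := by
  unfold br
  rw [Finset.sum_mul, Polynomial.finset_sum_coeff]
  refine Finset.sum_congr rfl fun i _ => ?_
  rw [Polynomial.coeff_X_pow_mul']

private theorem UniOps_step (a : ℕ) (f : ℤ[X]) (j : ℕ) :
    (br (a + 1) * f).coeff (j + 1) + (if a ≤ j then f.coeff (j - a) else 0) =
      (br (a + 1) * f).coeff j + f.coeff (j + 1) := by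
  rw [UniOps_coeff, UniOps_coeff, Finset.sum_range_succ' (fun i =>
    if i ≤ j + 1 then f.coeff (j + 1 - i) else 0), Finset.sum_range_succ (fun i =>
    if i ≤ j then f.coeff (j - i) else 0)]
  have h1 : ∀ i : ℕ, (if i + 1 ≤ j + 1 then f.coeff (j + 1 - (i + 1)) else 0) =
      if i ≤ j then f.coeff (j - i) else 0 := by
    intro i
    by_cases h : i ≤ j
    · rw [if_pos h, if_pos (by omega), Nat.add_sub_add_right]
    · rw [if_neg h, if_neg (by omega)]
  simp only [h1]
  rw [if_pos (Nat.zero_le _), Nat.sub_zero]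
  ring

private theorem UniOps_br (d a : ℕ) (f : ℤ[X]) (h : Uni d f) :
    Uni (d + a) (br (a + 1) * f) := by
  refine ⟨fun j hj => ?_, fun i j hij => ?_, ?_, fun j hj => ?_⟩
  · rw [UniOps_coeff]
    refine Finset.sum_eq_zero fun i hi => ?_
    rw [Finset.mem_range] at hi
    rw [if_pos (by omega), h.1 _ (by omega)]
  · rw [UniOps_coeff, UniOps_coeff, ← Finset.sum_range_reflect]
    refine Finset.sum_congr rfl fun t ht => ?_
    rw [Finset.mem_range] at ht
    by_cases h1 : a + 1 - 1 - t ≤ i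
    · rw [if_pos h1]
      by_cases h2 : t ≤ j
      · rw [if_pos h2]
        exact h.2.1 _ _ (by omega)
      · rw [if_neg h2]
        exact h.1 _ (by omega)
    · rw [if_neg h1, if_pos (by omega)]
      exact (h.1 _ (by omega)).symm
  · rw [UniOps_coeff]
    refine Finset.sum_nonneg fun i _ => ?_
    by_cases h1 : i ≤ 0
    · rw [if_pos h1]
      exact UniOps_nn h _
    · rw [if_neg h1]
  · have h1 := UniOps_step a f j
    have h2 : (if a ≤ j then f.coeff (j - a) else 0) ≤ f.coeff (j + 1) := by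
      by_cases h3 : a ≤ j
      · rw [if_pos h3]
        exact UniOps_le h _ _ (by omega) (by omega)
      · rw [if_neg h3]
        exact UniOps_nn h _
    linarith

theorem tUniOps : S_UniOps := by
  refine ⟨fun d => ⟨fun _ _ => rfl, fun _ _ _ => rfl, le_refl _, fun _ _ => le_refl _⟩,
    fun d f g hf hg => ⟨fun j hj => ?_, fun i j hij => ?_, ?_, fun j hj => ?_⟩,
    UniOps_br, fun d f hf => ⟨fun j hj => ?_, fun i j hij => ?_, ?_, fun j hj => ?_⟩⟩
  · rw [coeff_add, hf.1 j hj, hg.1 j hj, add_zero]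
  · rw [coeff_add, coeff_add, hf.2.1 i j hij, hg.2.1 i j hij]
  · rw [coeff_add]
    exact add_nonneg hf.2.2.1 hg.2.2.1
  · rw [coeff_add, coeff_add]
    exact add_le_add (hf.2.2.2 j hj) (hg.2.2.2 j hj)
  · obtain ⟨j', rfl⟩ : ∃ j', j = j' + 1 := ⟨j - 1, by omega⟩
    rw [coeff_X_mul]
    exact hf.1 _ (by omega)
  · rcases Nat.eq_zero_or_pos i with hi | hi
    · obtain ⟨j', rfl⟩ : ∃ j', j = j' + 1 := ⟨j - 1, by omega⟩
      rw [hi, coeff_X_mul_zero, coeff_X_mul, hf.1 _ (by omega)]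
    · rcases Nat.eq_zero_or_pos j with hj | hj
      · obtain ⟨i', rfl⟩ : ∃ i', i = i' + 1 := ⟨i - 1, by omega⟩
        rw [hj, coeff_X_mul_zero, coeff_X_mul, hf.1 _ (by omega)]
      · obtain ⟨i', rfl⟩ : ∃ i', i = i' + 1 := ⟨i - 1, by omega⟩
        obtain ⟨j', rfl⟩ : ∃ j', j = j' + 1 := ⟨j - 1, by omega⟩
        rw [coeff_X_mul, coeff_X_mul]
        exact hf.2.1 _ _ (by omega)
  · rw [coeff_X_mul_zero]
  · rcases Nat.eq_zero_or_pos j with hj0 | hj0
    · rw [hj0, coeff_X_mul_zero, coeff_X_mul]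
      exact hf.2.2.1
    · obtain ⟨j', rfl⟩ : ∃ j', j = j' + 1 := ⟨j - 1, by omega⟩
      rw [coeff_X_mul, coeff_X_mul]
      exact hf.2.2.2 _ (by omega)

end Pool.Agent.HM3
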