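import Pool.Agent.HM3.SpecW

set_option autoImplicit false

namespace Pool.Agent.HM3

open Polynomial Matrix

private theorem Wt_app (u : List Bool) (c : Bool) : MM (u ++ [c]) = MM u * lt c := by
  induction u with
  | nil =>
    show lt c * 1 = 1 * lt c
    rw [Matrix.mul_one, Matrix.one_mul]
  | cons a u ih =>
    rw [List.cons_append]
    show lt a * MM (u ++ [c]) = lt a * MM u * lt c
    rw [ih, Matrix.mul_assoc]

private theorem Wt_smul (h : S_UniOps) (d k : ℕ) (f : ℤ[X]) (hf : Uni d f) :
    Uni d ((k : ℤ[X]) * f) := by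
  induction k with
  | zero =>
    rw [Nat.cast_zero, zero_mul]
    exact h.1 d
  | succ k ih =>
    have e : ((k + 1 : ℕ) : ℤ[X]) * f = (k : ℤ[X]) * f + f := by
      push_cast
      ring
    rw [e]
    exact h.2.1 d _ _ ih hf

private theorem Wt_one : Uni 0 (1 : ℤ[X]) := by
  refine ⟨fun j hj => ?_, fun i j hij => ?_, ?_, fun j hj => ?_⟩
  · rw [Polynomial.coeff_one, if_neg (by omega)]
  · have hi : i = 0 := by omega
    have hj : j = 0 := by omega
    rw [hi, hj]
  · rw [Polynomial.coeff_one, if_pos rfl]
    norm_num
  · omega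

private theorem Wt_br (h : S_UniOps) (p q : ℕ) : Uni (p + q - 2) (br p * br q) := by
  have h0 : br 0 = 0 := by simp [br]
  cases p with
  | zero =>
    rw [h0, zero_mul]
    exact h.1 _
  | succ a =>
    cases q with
    | zero =>
      rw [h0, mul_zero]
      exact h.1 _
    | succ b =>
      have h1 : Uni (0 + b) (br (b + 1) * 1) := h.2.2.1 0 b 1 Wt_one
      have h2 := h.2.2.1 _ a _ h1
      rw [mul_one] at h2
      have e : 0 + b + a = a + 1 + (b + 1) - 2 := by omega
      rw [e] at h2
      exact h2

private theorem Wt_br2 : br 2 = 1 + X := by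
  simp [br, Finset.sum_range_succ]

private theorem Wt_main (h1 : S_Rot) (h2 : S_UniOps) (l : List (Bool × ℕ)) :
    ∀ u : List Bool, ∃ G : ℤ[X], Uni (u.length + l.length - 2) G ∧
      (u.length + l.length ≤ 1 → G = 0) ∧
      (MM u * MMW l).trace = X ^ nA u * pA l + X ^ nB u * pB l +
        kap * (br (nA u + nA (l.map Prod.fst)) * br (nB u + nB (l.map Prod.fst)) + G) := by
  induction l with
  | nil =>
    intro u
    have e1 : nA (List.map Prod.fst ([] : List (Bool × ℕ))) = 0 := rfl
    have e2 : nB (List.map Prod.fst ([] : List (Bool × ℕ))) = 0 := rfl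
    have e3 : MMW [] = 1 := rfl
    have e4 : pA [] = 1 := rfl
    have e5 : pB [] = 1 := rfl
    rw [e1, e2, e3, e4, e5, Matrix.mul_one, mul_one, mul_one, add_zero, add_zero, List.length_nil,
      add_zero]
    by_cases hu : u.length ≤ 1
    · refine ⟨0, h2.1 _, fun _ => rfl, ?_⟩
      rcases u with _ | ⟨c, _ | ⟨c', u⟩⟩
      · simp [MM, nA, nB, br]
        norm_num
      · cases c
        · simp [MM, nA, nB, br, lt, Matrix.trace_fin_two]
        · simp [MM, nA, nB, br, lt, Matrix.trace_fin_two]
          ring
      · simp at hu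
    · obtain ⟨G, hG, he⟩ := h1 u
      exact ⟨G, hG, fun h => absurd h hu, he⟩
  | cons ck l ih =>
    intro u
    obtain ⟨c, k⟩ := ck
    obtain ⟨G1, hG1, hz1, he1⟩ := ih (u ++ [c])
    obtain ⟨G2, hG2, hz2, he2⟩ := ih u
    have hlen : (u ++ [c]).length = u.length + 1 := by simp
    rw [hlen] at hG1 hz1
    rw [List.length_cons]
    have eA : nA (u ++ [c]) = nA u + (if c then 1 else 0) := by
      unfold nA
      rw [List.count_append]
      cases c <;> simp
    have eB : nB (u ++ [c]) = nB u + (if c then 0 else 1) := by
      unfold nB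
      rw [List.count_append]
      cases c <;> simp
    have eA' : nA (List.map Prod.fst ((c, k) :: l)) =
        (if c then 1 else 0) + nA (l.map Prod.fst) := by
      unfold nA
      rw [List.map_cons, List.count_cons]
      cases c <;> simp
      ring
    have eB' : nB (List.map Prod.fst ((c, k) :: l)) =
        (if c then 0 else 1) + nB (l.map Prod.fst) := by
      unfold nB
      rw [List.map_cons, List.count_cons]
      cases c <;> simp
      ring
    have hM : MM u * MMW ((c, k) :: l) =
        MM (u ++ [c]) * MMW l + ((k : ℤ[X]) * (1 + X)) • (MM u * MMW l) := by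
      have e : MMW ((c, k) :: l) = (lt c + ((k : ℤ[X]) * (1 + X)) •
        (1 : Matrix (Fin 2) (Fin 2) ℤ[X])) * MMW l := rfl
      rw [e, Matrix.add_mul, Matrix.mul_add, Matrix.smul_mul, Matrix.one_mul, Matrix.mul_smul,
        Wt_app, Matrix.mul_assoc]
    have hpA : pA ((c, k) :: l) = (if c then dB k else dA k) * pA l := rfl
    have hpB : pB ((c, k) :: l) = (if c then dA k else dB k) * pB l := rfl
    refine ⟨G1 + (k : ℤ[X]) * (br 2 * (br (nA u + nA (l.map Prod.fst)) *
      br (nB u + nB (l.map Prod.fst)) + G2)), ?_, ?_, ?_⟩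
    · -- unimodality
      have hcount : nA u + nA (l.map Prod.fst) + (nB u + nB (l.map Prod.fst)) =
          u.length + l.length := by
        have a1 := List.count_true_add_count_false u
        have a2 := List.count_true_add_count_false (l.map Prod.fst)
        rw [List.length_map] at a2
        unfold nA nB
        omega
      have e : u.length + 1 + l.length - 2 = u.length + (l.length + 1) - 2 := by omega
      rw [e] at hG1
      refine h2.2.1 _ _ _ hG1 (Wt_smul h2 _ _ _ ?_)
      by_cases hs : u.length + l.length ≤ 1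
      · rw [hz2 hs, add_zero]
        have h0 : br 0 = 0 := by simp [br]
        have hz : br (nA u + nA (l.map Prod.fst)) * br (nB u + nB (l.map Prod.fst)) = 0 := by
          rcases Nat.eq_zero_or_pos (nA u + nA (l.map Prod.fst)) with h | h
          · rw [h, h0, zero_mul]
          · have h' : nB u + nB (l.map Prod.fst) = 0 := by omega
            rw [h', h0, mul_zero]
        rw [hz, mul_zero]
        exact h2.1 _
      · have h3 := Wt_br h2 (nA u + nA (l.map Prod.fst)) (nB u + nB (l.map Prod.fst))
        rw [hcount] at h3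
        have h4 := h2.2.2.1 _ 1 _ (h2.2.1 _ _ _ h3 hG2)
        have e2 : u.length + l.length - 2 + 1 = u.length + (l.length + 1) - 2 := by omega
        rw [e2] at h4
        exact h4
    · intro hle
      have hu0 : u.length = 0 := by omega
      have hl0 : l.length = 0 := by omega
      have hu : u = [] := List.length_eq_zero_iff.1 hu0
      have hl : l = [] := List.length_eq_zero_iff.1 hl0
      rw [hz1 (by omega), hz2 (by omega), hu, hl]
      simp [nA, nB, br]
    · rw [hM, Matrix.trace_add, Matrix.trace_smul, he1, he2, eA, eB, eA', eB', hpA, hpB, smul_eq_mul,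
        Wt_br2]
      cases c
      · simp only [Bool.false_eq_true, if_false, dA, dB]
        rw [zero_add, add_zero, ← add_assoc (nB u) 1, pow_succ]
        ring
      · simp only [if_true, dA, dB]
        rw [zero_add, add_zero, ← add_assoc (nA u) 1, pow_succ]
        ring

theorem tWt (h1 : S_Rot) (h2 : S_UniOps) : S_Wt := by
  intro l
  obtain ⟨G, hG, -, he⟩ := Wt_main h1 h2 l []
  refine ⟨G, ?_, ?_⟩
  · rw [List.length_nil, zero_add] at hG
    exact hG
  · have e1 : nA [] = 0 := rfl
    have e2 : nB [] = 0 := rfl
    have e3 : MM [] = 1 := rfl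
    rw [e1, e2, e3, Matrix.one_mul, pow_zero, one_mul, one_mul, zero_add, zero_add] at he
    exact he

end Pool.Agent.HM3
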