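import Pool.Agent.HM3.Conj
import Pool.Agent.HM3.Rev
import Pool.Agent.HM3.Chain
import Pool.Agent.HM3.Strip
import Pool.Agent.HM3.Star
import Pool.Agent.HM3.RhoUni
import Pool.Agent.HM3.UniOps
import Pool.Agent.HM3.Swap
import Pool.Agent.HM3.Blk
import Pool.Agent.HM3.Norm
import Pool.Agent.HM3.Loops
import Pool.Agent.HM3.LoopsW
import Pool.Agent.HM3.PhiW
import Pool.Agent.HM3.DetW
import Pool.Agent.HM3.AlexW
import Pool.Agent.HM3.Inertia
import Pool.Agent.HM3.SigW
import Pool.Agent.HM3.Rot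
import Pool.Agent.HM3.Wt
import Pool.Agent.HM3.FinalW

/-!
# HM3, MainW: assembly of the weighted theorem
-/

namespace Pool.Agent.HM3

theorem m_Id : S_Id := tId tConj
theorem m_FRev : S_FRev := tFRev tRev
theorem m_Star : S_Star := tStar m_Id tRev m_FRev tChain tStrip tStripVal
theorem m_RhoUni : S_RhoUni := tRhoUni m_Id tRev m_Star
theorem m_Swap : S_Swap := tSwap m_Id
theorem m_Blk : S_Blk := tBlk m_Swap m_RhoUni tUniOps
theorem m_Rot : S_Rot := tRot tNorm m_Blk
theorem m_Wt : S_Wt := tWt m_Rot tUniOps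
theorem m_DetW : S_DetW := tDetW tPhiW
theorem m_AlexW : S_AlexW := tAlexW (tLoopsW tLoops)
theorem m_SigW : S_SigW := tSigW tInertia
theorem m_FinalW : S_FinalW := tFinalW m_Wt m_DetW m_AlexW m_SigW

end Pool.Agent.HM3
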