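import Pool.Agent.HM3.Defs

/-!
# HM3, Spec: the Hirasawa-Murasugi inequality for closed alternating 3-braids

THEOREM. Let `w` be a word in `σ₁`, `σ₂⁻¹` which starts with `σ₁` and ends with `σ₂⁻¹` (every closed
alternating 3-braid which is not split or a `T(2, n)` has such a word), with `p` letters `σ₁` and `q`
letters `σ₂⁻¹`. Let `V` be the Seifert matrix, `c_j` the coefficients of `det (t V - Vᵀ)`. Then
`|c_j| = D_j` with `D = [p] [q] + G`, `G` symmetric and UNIMODAL; so `|c_j|` is nondecreasing up to the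
middle, `|c_(μ-1)| > |c_(μ-2)|` for `μ = min (p, q)`, and the stable length is `≤ |p - q| / 2 = |σ| / 2`.

PROOF. Part 1 (modules Conj .. Blk): `κ D = Y - y^p - y^q`, `Y` the trace of the product of the letter
matrices, `κ = 1 - y + y²`. Replacing a factor `B^b A^a` by `A^a B^b` (merging blocks) decreases `Y` by
`[a] [b] y κ ρ(x)` (module Swap), and `ρ(x)` is symmetric unimodal because
`(1 - y) ρ(x) = a(x') - y d(x)` (module Id; `x'` = exchanged word) and this has a nonnegative lower half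
(module Star): it is `f(y') - y^t f(y)`, `t ≥ 2`, for the fence polynomial `f` of a shorter word, and the
cases `t = 0, 1` reduce to shorter words. Part 2: the determinant. Part 3: the signature.
All modules are independent (the statements used are hypotheses of the theorem).
-/

namespace Pool.Agent.HM3

open Polynomial Matrix

/-! ## Part 1 -/

/-- CONJ. PROOF. Induction on `w`; `MM (true :: w)` has the entries `a + X c, b + X d, X c, X d`,
`MM (false :: w)` has `a, b, a + X c, b + X d`; `sw (c :: w) = !c :: sw w`. (It is the identity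
`F M(w') F P = P M(w)`, `P = (1, X - 1; 1 - X, X)`.) The first line for `true :: w` uses the lines 3 and 1
for `w`, etc.; `linear_combination`. -/
def S_Conj : Prop := ∀ w : List Bool,
  ed (sw w) + (1 - X) * ec (sw w) = ea w - (1 - X) * ec w ∧
  X * ec (sw w) - (1 - X) * ed (sw w) = eb w - (1 - X) * ed w ∧
  eb (sw w) + (1 - X) * ea (sw w) = (1 - X) * ea w + X * ec w ∧
  X * ea (sw w) - (1 - X) * eb (sw w) = (1 - X) * eb w + X * ed w

/-- ID. PROOF. From `S_Conj` one gets (multiply by `kap` and cancel, `kap ≠ 0`):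
`kap * ed (sw w) = X a - X (1-X) c - (1-X) b + (1-X)^2 d`,
`kap * ec (sw w) = (1-X) a + b - (1-X)^2 c - (1-X) d`,
`kap * eb (sw w) = X (1-X) a + X^2 c - (1-X)^2 b - X (1-X) d`,
`kap * ea (sw w) = (1-X)^2 a + X (1-X) c + (1-X) b + X d`. All claims follow after multiplication by `kap`
by `ring` (entries of `c :: (w ++ [c])`: `MM (u ++ v) = MM u * MM v`). -/
def S_Id : Prop := ∀ w : List Bool,
  kap * rho w = (1 - X) * ea w + eb w + X * ec w + X ^ 2 * ed w ∧
  (1 - X) * rho w = ea (sw w) - X * ed w ∧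
  ff (sw w) - X * ff w = ea w - X ^ 2 * ed (sw w) ∧
  (∀ c : Bool, ff (c :: (w ++ [c])) - ff (sw (c :: (w ++ [c]))) = X * (ff w - ff (sw w))) ∧
  ff (false :: (w ++ [true])) - ff (sw (false :: (w ++ [true]))) = X * (ea (sw w) - X * ed w)

/-- REV. PROOF. Induction on `w`. -/
def S_Rev : Prop := ∀ w : List Bool, ∀ j : ℕ,
  (0 ≤ (ea w).coeff j ∧ 0 ≤ (eb w).coeff j ∧ 0 ≤ (ec w).coeff j ∧ 0 ≤ (ed w).coeff j) ∧
  (ea (sw w)).coeff j = (if j ≤ w.length then (ed w).coeff (w.length - j) else 0) ∧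
  (eb (sw w)).coeff j = (if j ≤ w.length then (ec w).coeff (w.length - j) else 0) ∧
  (ec (sw w)).coeff j = (if j ≤ w.length then (eb w).coeff (w.length - j) else 0) ∧
  (ed (sw w)).coeff j = (if j ≤ w.length then (ea w).coeff (w.length - j) else 0)

/-- FREV. PROOF. From `S_Rev`. -/
def S_FRev : Prop := ∀ w : List Bool, ∀ j : ℕ, 0 ≤ (ff w).coeff j ∧
  (ff (sw w)).coeff j = (if j ≤ w.length + 1 then (ff w).coeff (w.length + 1 - j) else 0)

/-- CHAIN (integers only). PROOF. Let `k = n - t - i`, so `i ≤ k ≤ n - 2 - i`. In both cases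
`f s ≤ f (s + 1)` for `2 (s + 1) ≤ n` (case 1: `f s ≤ f (n - s) ≤ f (s + 1)` by h5 with `j = s + 1`; case 2:
`f s ≤ f (n - (s+1)) ≤ f (s + 1)` by h4 with `j = s + 1` and case 2). Case 1: if `2 k ≤ n` use monotonicity;
if `2 k = n + 1` then `f i ≤ f (k-1) ≤ f (n - (k-1)) = f k`; if `2 k ≥ n + 2` let `i' = n - k = t + i`:
`f k = f (n - i') ≥ f i' ≥ f i`. Case 2: if `2 k ≤ n` monotonicity; if `2 k ≥ n + 1` let `i' = n - k`:
`f (n - i') ≥ f (i' - 1)` (h4) and `i' - 1 ≥ i`, monotonicity. -/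
def S_Chain : Prop := ∀ (n t i : ℕ) (f : ℕ → ℤ), 2 ≤ t → 2 * i + t ≤ n →
  ((∀ j, 2 * j ≤ n → f j ≤ f (n - j)) ∨ (∀ j, 2 * j ≤ n → f (n - j) ≤ f j)) →
  (∀ j, 1 ≤ j → 2 * j ≤ n + 1 → f (j - 1) ≤ f (n - j)) →
  (∀ j, 1 ≤ j → 2 * j ≤ n + 1 → f (n + 1 - j) ≤ f j) →
  f i ≤ f (n - t - i)

/-- STRIP. PROOF. Lists: strip the leading `true`s and the trailing `false`s. -/
def S_Strip : Prop := ∀ x : List Bool,
  (∃ i j : ℕ, x = List.replicate i true ++ List.replicate j false) ∨
  ∃ (i j : ℕ) (y : List Bool),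
    x = List.replicate i true ++ (false :: (y ++ (true :: List.replicate j false)))

/-- STRIPVAL. PROOF. `ed (true :: w) = X ed w`, `ea (false :: w) = ea w`, `ed (w ++ [false]) = X ed w`,
`ea (w ++ [true]) = ea w` (inductions on `i`, `j`), and `ed (false :: (y ++ [true])) = X ff y`,
`ea (true :: (y ++ [false])) = ff y` (`MM (u ++ v) = MM u * MM v`). -/
def S_StripVal : Prop :=
  (∀ i j : ℕ, ea (sw (List.replicate i true ++ List.replicate j false)) = 1 ∧
    ed (List.replicate i true ++ List.replicate j false) = X ^ (i + j)) ∧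
  ∀ (i j : ℕ) (y : List Bool),
    ea (sw (List.replicate i true ++ (false :: (y ++ (true :: List.replicate j false))))) =
      ff (sw y) ∧
    ed (List.replicate i true ++ (false :: (y ++ (true :: List.replicate j false)))) =
      X ^ (i + j + 1) * ff y

/-- STAR: the main positivity. PROOF. Strong induction on `x.length` of `C*(x)`. `S_Strip`,
`S_StripVal`. First form: `1 - X^(i+j+1)`, clear. Second form: `ff (sw y) - X^(i+j+2) ff y`,
`|y| = |x| - i - j - 2`, center `(n + t)/2`, `n = |y| + 1`, `t = i + j + 2`: the coefficient at `j0`,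
`2 j0 ≤ n + t`, is `f (n - j0) - f (j0 - t)` with `f s = (ff y).coeff s` (`S_FRev`; it is `≥ 0` if `j0 < t`, and
`f (n - j0) ≥ f (j0 - t)` by `S_Chain` with `i = j0 - t` otherwise). Hypotheses of `S_Chain`:
h4: `ff (sw y) - X ff y = ea y - X² ed (sw y) = ea (sw (true :: sw y)) - X ed (true :: sw y)` (`S_Id`;
`sw (sw y) = y`), so `C*(true :: sw y)`, length `|y| + 1 < |x|`. h5: the same for `sw y` in place of `y`.
h3: the sign of `ff y - ff (sw y)` is definite in the lower half (`2 j ≤ n`), by a second induction (on the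
length) for all words `v` with `|v| < |x|`: `v` of length `≤ 1`: the difference is `0`. `v = c :: (u ++ [c])`:
`S_Id`, part 4, `X (ff u - ff (sw u))`. `v = false :: (u ++ [true])`: `S_Id`, part 5, `X * C*(u)`, `|u| < |x|`.
`v = true :: (u ++ [false])`: exchange the letters (`sw v = false :: (sw u ++ [true])`). -/
def S_Star : Prop := ∀ x : List Bool, Low (x.length + 1) (ea (sw x) - X * ed x)

/-- RHOUNI. PROOF. `(1 - X) ρ = ea (sw x) - X ed x` (`S_Id`). Its coefficient at `j` is
`d_(N-j) - d_(j-1)` (`S_Rev`, `N = |x|`, `d = ed x`), antisymmetric for `j ↦ N + 1 - j`, so `ρ` is symmetric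
for `j ↦ N - j` and `0` above `N` (sum the coefficients of `(1 - X) ρ`), and `S_Star` gives
`ρ_j - ρ_(j-1) ≥ 0` for `2 j ≤ N + 1`. -/
def S_RhoUni : Prop := ∀ x : List Bool, Uni x.length (rho x)

/-- UNIOPS. PROOF. Coefficients. Third claim: `g = br a * f`: `g_j - g_(j-1) = f_j - f_(j-a)` (`f` at
negative indices is `0`), and `f_(j-a) ≤ f_j` for `2 j ≤ d + a`: if `2 j ≤ d` monotonicity, otherwise
`f_j = f_(d-j)` and `j - a ≤ d - j`, `2 (d - j) ≤ d`. -/
def S_UniOps : Prop := (∀ d : ℕ, Uni d 0) ∧ (∀ (d : ℕ) (f g : ℤ[X]), Uni d f → Uni d g → Uni d (f + g)) ∧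
  (∀ (d a : ℕ) (f : ℤ[X]), Uni d f → Uni (d + a) (br (a + 1) * f)) ∧
  (∀ (d : ℕ) (f : ℤ[X]), Uni d f → Uni (d + 2) (X * f))

/-- SWAP. PROOF. `MM (u ++ v) = MM u * MM v`. `MM (replicate a c) = 1 + br a • (lt c - 1)` (induction,
`(lt c - 1)^2 = (X - 1) (lt c - 1)`, `(X - 1) br a = X^a - 1`). So the difference is
`br a * br b * trace ((lt false * lt true - lt true * lt false) * lt false * MM x * lt true)`, which is
`br a * br b * X * ((1 - X) ea x + eb x + X ec x + X^2 ed x)` by a computation with the entries; `S_Id`. -/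
def S_Swap : Prop := ∀ (a b : ℕ) (x : List Bool),
  (MM (List.replicate b false ++ (List.replicate a true ++ (false :: (x ++ [true]))))).trace -
    (MM (List.replicate a true ++ (List.replicate b false ++ (false :: (x ++ [true]))))).trace =
  br a * br b * (X * (kap * rho x))

/-- BLK. PROOF. Induction on `l`. `l = []`: `trace (MM (A^(a+1) B^(b+1))) = X^(a+1) + X^(b+1) +
kap [a+1] [b+1]` (powers as in `S_Swap`), `G = 0`. `l = (a', b') :: l'`: the word is
`A^(a+1) B^(b+1) A^(a'+1) B^(b'+1) u`, `u = blk l'`. The trace is cyclic (`Matrix.trace_mul_comm`):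
`trace (MM (B^(b+1) A^(a'+1) B (B^b' u A^a) A))`, `S_Swap` with `x = B^b' ++ u ++ A^a`; the other word is
cyclically `A^(a+a'+2) B^(b+b'+2) u = blk ((a + a' + 1, b + b' + 1) :: l')` with the same numbers of letters.
`G = G' + br (a'+1) * (br (b+1) * (X * rho x))`, `S_RhoUni`, `S_UniOps`. -/
def S_Blk : Prop := ∀ (l : List (ℕ × ℕ)) (a b : ℕ), ∃ G : ℤ[X],
  Uni ((blk ((a, b) :: l)).length - 2) G ∧
  (MM (blk ((a, b) :: l))).trace = X ^ nA (blk ((a, b) :: l)) + X ^ nB (blk ((a, b) :: l)) +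
    kap * (br (nA (blk ((a, b) :: l))) * br (nB (blk ((a, b) :: l))) + G)

/-- NORM. PROOF. Lists (strong induction on the length). -/
def S_Norm : Prop := ∀ w : List Bool, w.head? = some true → w.getLast? = some false →
  ∃ (a b : ℕ) (l : List (ℕ × ℕ)), w = blk ((a, b) :: l)

/-! ## Part 2: the determinant -/

/-- LOOPS. PROOF. For a loop `(j, k)` the column `k` of `GG w` is `δ_k - δ_j` (`j` is the only predecessor),
so the left side is `T_(k,k') - T_(k,j') - T_(j,k') + T_(j,j')`, `x = (j, k)`, `y = (j', k')`. Case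
distinction on the letters and on the order of `j, k, j', k'`. (Checked by computer for all words of
length `≤ 9`.) -/
def S_Loops : Prop := ∀ (N : ℕ) (w : Fin N → Bool) (x y : Loop w),
  ((GG w).transpose * TT w * GG w) x.1.2 y.1.2 =
    (if w x.1.2 then -1 else 1) * (C (seifert w y x) + X * C (seifert w x y))

/-- PHI. PROOF. `w' = (List.ofFn fun i => !w i).reverse`, `q = cB w`. Let `b_k` be the number of `i < k` with
`w i = false`, `M_k = lt (!w (k-1)) * .. * lt (!w 0)`. `Φ_k = X^(q - b_k) (1, X - 1) M_k` if `w k`, and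
`Φ_k = X^(q - b_k - 1) (1 - X, X) M_k` otherwise. With `u_A = (0, 1)ᵀ`, `u_B = (1, 0)ᵀ`:
`∑_(l<k) u_l Φ_l = X^(q - b_k) M_k - X^q` (induction on `k`:
`lt false = 1 + u_A (1, X - 1)`, `lt true = X + u_B (1 - X, X)`), and
`(T Φ)_k = (X or 1) Φ_k - ℓ_k ∑_(l<k) u_l Φ_l`, `ℓ_k = (1, X - 1)` or `(1 - X, X)`. -/
def S_Phi : Prop := ∀ (N : ℕ) (w : Fin N → Bool), ∃ Φ : Matrix (Fin N) (Fin 2) ℤ[X],
  (∀ k i, (TT w * Φ) k i =
    X ^ cB w * (if w k then (![1, X - 1] : Fin 2 → ℤ[X]) i else (![1 - X, X] : Fin 2 → ℤ[X]) i)) ∧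
  (∀ i, (∑ k, if w k = false then Φ k i else 0) =
    MM (List.ofFn fun j => !w j).reverse 0 i - (if i = 0 then X ^ cB w else 0)) ∧
  (∀ i, (∑ k, if w k = true then Φ k i else 0) =
    MM (List.ofFn fun j => !w j).reverse 1 i - (if i = 1 then X ^ cB w else 0))

/-- DET. PROOF. `K = Gᵀ T G`, `det G = 1` (upper triangular), `det T = X^q` (lower triangular). Let
`H_(k,i) = 1` if `i ≥ k`, `w i = w k`, else `0`; `G H = 1`. First positions: `fB`, `fA` (first `false`, first
`true`; `IsFst`). Matrix `Z`: the columns `k` not first are unit vectors, the columns `fB`, `fA` are `H Φ` (columns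
`0`, `1` of `Φ`). `K Z`: the columns `k` not first are those of `K`; `K H Φ = Gᵀ T Φ`, and `(Gᵀ v)_k =
v_k - v_(prev k)` is `0` for `k` not first and `v_k` for `k` first, if `v` depends on the letter only. So both `Z`
and `K Z` are block triangular with respect to `IsFst` (`Matrix.twoBlockTriangular_det`):
`det K * det Z = det K_nn * X^(2q) * det (1 - X, X; 1, X - 1) = - det K_nn X^(2q) kap` and
`det Z = det (U Φ) = det (M - X^q) = X^N - X^q trace M + X^(2q)` (`M = MM w'`, `det (lt c) = X`,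
`N = cA w + cB w`). Cancel `X^(2q)`. The loops are in bijection with the positions which are not first
(`x ↦ x.1.2`). -/
def S_Det : Prop := ∀ (N : ℕ) (w : Fin N → Bool), (∃ i, w i = true) → (∃ i, w i = false) →
  kap * (((GG w).transpose * TT w * GG w).submatrix (fun x : Loop w => x.1.2)
    (fun x : Loop w => x.1.2)).det =
  (MM (List.ofFn fun j => !w j).reverse).trace - X ^ cA w - X ^ cB w

/-- ALEX. PROOF. `S_Loops`: `det (Vᵀ + X V) = ± det (K restricted to the loops)` (`det_mul_column`/`row`,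
`Matrix.diagonal`), and `(alexander V).comp (-X) = det (- X V - Vᵀ) = ± det (Vᵀ + X V)`. -/
def S_Alex : Prop := ∀ (N : ℕ) (w : Fin N → Bool), ∃ ε : ℤ, (ε = 1 ∨ ε = -1) ∧
  ∀ j, (alexander (seifert w)).coeff j = ε * (-1) ^ j *
    (((GG w).transpose * TT w * GG w).submatrix (fun x : Loop w => x.1.2)
      (fun x : Loop w => x.1.2)).det.coeff j

/-! ## Part 3: the signature -/

/-- INERTIA. PROOF. The span of the eigenvectors with eigenvalue `≤ 0` (`> 0` for the count) of
`S = V + Vᵀ` and the space of the vectors supported in `P` intersect in `0`. -/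
def S_Inertia : Prop := ∀ (ι : Type) [Fintype ι] [DecidableEq ι] (V : Matrix ι ι ℤ) (P : ι → Prop)
  [DecidablePred P],
  ((∀ x : ι → ℝ, (∀ i, ¬ P i → x i = 0) → x ≠ 0 →
    0 < ∑ i, ∑ j, x i * (((V + V.transpose) i j : ℤ) : ℝ) * x j) →
    (Finset.univ.filter P).card ≤ posCount V) ∧
  ((∀ x : ι → ℝ, (∀ i, ¬ P i → x i = 0) → x ≠ 0 →
    ∑ i, ∑ j, x i * (((V + V.transpose) i j : ℤ) : ℝ) * x j < 0) →
    (Finset.univ.filter P).card ≤ negCount V)

/-- SIG. PROOF. `S_Inertia` for the `true` loops and for the `false` loops: for `x` supported on the loops of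
one letter `∑ x_i x_j S_ij = ∓ ∑_crossings (E x)_c ^ 2`, `(E x)_c = x_(loop ending at c) - x_(loop starting
at c)`, and `E` is injective. There are `cA w - 1` and `cB w - 1` loops, and `posCount + negCount ≤` the
number of loops. -/
def S_Sig : Prop := ∀ (N : ℕ) (w : Fin N → Bool), (∃ i, w i = true) → (∃ i, w i = false) →
  posCount (seifert w) + 1 = cB w ∧ negCount (seifert w) + 1 = cA w

/-- FINAL. PROOF. `w' = (List.ofFn fun j => !w j).reverse` starts with `true` and ends with `false`: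
`S_Norm`, `S_Blk`, `S_Det` give `D = [p] [q] + G` (cancel `kap`; `nA w' = cB w`, `nB w' = cA w`, length `N`), `S_Alex`.
`([p] [q])_j = min (j + 1, p, q, p + q - 1 - j)` for `j ≤ p + q - 2`; in particular it is positive, and it
increases by `1` at `j = μ - 1` (from `μ - 2`), `μ = min (p, q) ≥ 2`. If the middle block of half-width `m` is flat
and `2 m > |σ| = |p - q|` then `n - m ≤ μ - 2`, contradiction (`μ = 1`: `2 m ≤ 2 n = |p - q|`). -/
def S_Final : Prop := ∀ (n : ℕ) (w : Fin (2 * n + 2) → Bool), w 0 = true → w (Fin.last _) = false →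
  (∀ j, j ≤ 2 * n → 0 < (-1 : ℤ) ^ j * (alexander (seifert w)).coeff j *
    ((-1 : ℤ) ^ n * (alexander (seifert w)).coeff n)) ∧
  (∀ j, 2 * n < j → (alexander (seifert w)).coeff j = 0) ∧
  (∀ j, j < n → |(alexander (seifert w)).coeff j| ≤ |(alexander (seifert w)).coeff (j + 1)|) ∧
  ∀ m : ℕ, m ≤ n →
    (∀ j, n ≤ j + m → j ≤ n + m →
      |(alexander (seifert w)).coeff j| = |(alexander (seifert w)).coeff n|) →
    2 * (m : ℤ) ≤ |signature (seifert w)|

end Pool.Agent.HM3
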