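import Pool.Agent.HM3.SpecW

/-!
# HM3, SpecT: the full trapezoidal pattern

THEOREM. For all words with both letters, all lengths `N + 2` and all bands with `2 k_c + 1` half twists
the absolute values of the coefficients increase STRICTLY up to an index `s`, are constant up to `N - s`,
decrease strictly afterwards (Fox), and `N - 2 s ≤ |signature|` (Hirasawa-Murasugi).

PROOF. As in `Spec` and `SpecW`; in addition the increments in the lower half are `0` after the first zero.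
For `ρ` this is the strict form of `S_Star`; it passes to sums, products with `[n]` and with `X`.
-/

namespace Pool.Agent.HM3

open Polynomial Matrix

/-- The increment `f_j - f_(j-1)`. -/
noncomputable def inc (f : ℤ[X]) (j : ℕ) : ℤ := ((1 - X) * f).coeff j

/-- Nonnegative lower half, and zero after the first zero. -/
def LowT (m : ℕ) (f : ℤ[X]) : Prop :=
  Low m f ∧ ∀ i j, i ≤ j → 2 * j ≤ m → f.coeff i = 0 → f.coeff j = 0

/-- `Uni`, and from the index `s` on the increments are zero after the first zero. -/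
def UniT (s d : ℕ) (f : ℤ[X]) : Prop :=
  Uni d f ∧ ∀ i j, s ≤ i → i ≤ j → 2 * j ≤ d → inc f i = 0 → inc f j = 0

/-- FPOS. PROOF. Induction on `w`, together with `0 < (ea w + eb w).coeff 0`,
`0 < (ec w + ed w).coeff w.length` (and all coefficients of the four entries `≥ 0`):
`ff (true :: w) = ff w + X^2 (c + d)`, `ff (false :: w) = X ff w + (a + b)`. -/
def S_FPos : Prop := ∀ (w : List Bool) (j : ℕ), j ≤ w.length + 1 → 0 < (ff w).coeff j

/-- CHAINT (integers only; checked by computer for all `n ≤ 9`, small values). Let `h_j = f j - f (n - j)`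
(`2 j ≤ n`), `e_j = f (n - j) - f (j - 1)`, `g_j = f j - f (n + 1 - j)` (`1 ≤ j`, `2 j ≤ n + 1`).
PROOF. `k = n - t - i`, `i' = n - k = i + t`. If `2 k ≤ n`: `f` is nondecreasing on the lower half (as in
`S_Chain`), all equal. Let `2 k > n`, so `2 i' < n`.
Case 1 (`h ≤ 0`): `f j - f (j-1) = g_j + |h_(j-1)|` and `e_j = |h_j| + f j - f (j-1)`.
`f k = f i' + |h_i'| ≥ f i' ≥ f i`: so `f` is constant on `[i, i']`, `i' ≥ i + 2`. `f (i+2) = f (i+1)` gives
`h_(i+1) = 0`, so `e_(i+1) = 0`, so `e_j = 0` for all `j ≥ i + 1` (`2 j ≤ n + 1`), so `f` is constant on `[i, n/2]` and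
`h_j = 0` for `j ≥ i + 1`; hence `f (k - 1) = f (n - (i'+1))` has the same value.
Case 2 (`h ≥ 0`): `f j - f (j-1) = h_j + e_j`, `g_j = f j - f (j-1) + h_(j-1)`. `f k = f (i'-1) + e_i' ≥ f i`:
`f` is constant on `[i, i'-1]`, `e_i' = 0`, and `f (i+1) = f i` gives `h_(i+1) = 0`, `e_(i+1) = 0`, so `e_j = 0`
for all `j ≥ i + 1`. If `h_j = 0` for all `j ≥ i + 1` we are done as before. Otherwise the support of `h` starts
after `i + 1` (interval), so `h_i = 0`, `g_(i+1) = 0`, so `g_j = 0` for all `j ≥ i + 1`, and `h_(j-1) = 0` for those `j`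
(`2 j ≤ n + 1`); this gives `h_j = 0` for all `j ≥ i + 1` with `2 (j + 1) ≤ n + 1`, and for `2 j = n` it is trivial. -/
def S_ChainT : Prop := ∀ (n t i : ℕ) (f : ℕ → ℤ), 2 ≤ t → 2 * (i + 1) + t ≤ n →
  ((∀ j, 2 * j ≤ n → f j ≤ f (n - j)) ∨ (∀ j, 2 * j ≤ n → f (n - j) ≤ f j)) →
  (∀ a b c, a ≤ b → b ≤ c → 2 * c ≤ n → f a ≠ f (n - a) → f b = f (n - b) → f c = f (n - c)) →
  (∀ j, 1 ≤ j → 2 * j ≤ n + 1 → f (j - 1) ≤ f (n - j)) →
  (∀ a b, 1 ≤ a → a ≤ b → 2 * b ≤ n + 1 → f (a - 1) = f (n - a) → f (b - 1) = f (n - b)) →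
  (∀ j, 1 ≤ j → 2 * j ≤ n + 1 → f (n + 1 - j) ≤ f j) →
  (∀ a b, 1 ≤ a → a ≤ b → 2 * b ≤ n + 1 → f (n + 1 - a) = f a → f (n + 1 - b) = f b) →
  f i = f (n - t - i) → f (i + 1) = f (n - t - (i + 1))

/-- START: the strict form of `S_Star`. PROOF. Strong induction on `x.length`, exactly as `S_Star`
(`HM3/Star.lean`); the nonnegativity is `S_Star` itself. First form: `1 - X^(i+j+1)`. Second form:
`ff (sw y) - X^t ff y`, `t = i + j + 2 ≥ 2`, `n = |y| + 1`, `f s = (ff y).coeff s`; the coefficient at `j0`,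
`2 j0 ≤ n + t`, is `f (n - j0)` for `j0 < t`, `j0 ≤ n` (positive, `S_FPos`), `0` for `n < j0` (then `t > j0` and all
later ones are `0`), and `f (n - j0) - f (j0 - t)` for `j0 ≥ t` (step from `j0` to `j0 + 1` by `S_ChainT` with
`i = j0 - t`). Hypotheses of `S_ChainT`: the `e` conditions: `C*(true :: sw y)` (`S_Id`, third part), the `g`
conditions: the same for `sw y` in place of `y` (`S_FRev`); the `h` conditions: for all words `v`, `|v| < |x|`,
the lower half coefficients of `ff v - ff (sw v)` have a definite sign and their support is an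
interval (second induction on the length: `0` for `|v| ≤ 1`; `X` times the one of `u` for `v = c :: (u ++ [c])`;
`X * C*(u)` for `v = false :: (u ++ [true])`; and `sw`). -/
def S_StarT : Prop := ∀ x : List Bool, LowT (x.length + 1) (ea (sw x) - X * ed x)

/-- RHOT. PROOF. `inc (rho x)` is the coefficient of `(1 - X) ρ = ea (sw x) - X ed x` (`S_Id`). -/
def S_RhoT : Prop := ∀ x : List Bool, UniT 0 x.length (rho x)

/-- OPST. PROOF. `inc` is additive, and `inc f j = f_j - f_(j-1) ≥ 0` for `2 j ≤ d`.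
(3): `g = br (a+1) * f`: `inc g j = f_j - f_(j-a-1)` (`f` at negative indices is `0`). Let `2 j ≤ d + a`. If `j ≤ d`
let `m = min j (d - j)`; `f_j = f_m`, `j - a - 1 ≤ m`, and `inc g j` is the sum of the `inc f i`, `j - a ≤ i ≤ m` (`0 ≤ i`). If it is
`0` at `j = i0`, all the `inc f i` in the window are `0`, so all `inc f i` with `i ≥ i0 - a` are `0` and the later windows
start later (if the window is empty then `i0 > d`, and everything after is `0`).
(4): `inc (X f) (j+1) = inc f j`. (6): `inc f 0 = f_0`. (7): (3) with `f = br (b+1)`. -/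
def S_OpsT : Prop :=
  (∀ s d : ℕ, UniT s d 0) ∧
  (∀ (s d : ℕ) (f g : ℤ[X]), UniT s d f → UniT s d g → UniT s d (f + g)) ∧
  (∀ (d a : ℕ) (f : ℤ[X]), UniT 0 d f → UniT 0 (d + a) (br (a + 1) * f)) ∧
  (∀ (d : ℕ) (f : ℤ[X]), UniT 0 d f → UniT 1 (d + 2) (X * f)) ∧
  (∀ (d : ℕ) (f : ℤ[X]), UniT 0 d f → UniT 1 d f) ∧
  (∀ (d : ℕ) (f : ℤ[X]), UniT 1 d f → 0 < f.coeff 0 → UniT 0 d f) ∧
  (∀ a b : ℕ, UniT 0 (a + b) (br (a + 1) * br (b + 1)))

/-- BLKT. PROOF. As `S_Blk` (`HM3/Blk.lean`), `G = G' + X * (br (a'+1) * (br (b+1) * rho x))`. -/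
def S_BlkT : Prop := ∀ (l : List (ℕ × ℕ)) (a b : ℕ), ∃ G : ℤ[X],
  UniT 1 ((blk ((a, b) :: l)).length - 2) G ∧
  (MM (blk ((a, b) :: l))).trace = X ^ nA (blk ((a, b) :: l)) + X ^ nB (blk ((a, b) :: l)) +
    kap * (br (nA (blk ((a, b) :: l))) * br (nB (blk ((a, b) :: l))) + G)

/-- ROTT. PROOF. As `S_Rot` (`HM3/Rot.lean`). -/
def S_RotT : Prop := ∀ u : List Bool, ∃ G : ℤ[X], UniT 1 (u.length - 2) G ∧
  (MM u).trace = X ^ nA u + X ^ nB u + kap * (br (nA u) * br (nB u) + G)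

/-- WTT. PROOF. As `S_Wt` (`HM3/Wt.lean`). In the step the new term is `k * (br 2 * D)`, `D = br p' * br q' + G'`:
if `p', q' ≥ 1` then `D` is in `UniT 0` by (7), (5), (2), (6) of `S_OpsT` (its coefficient at `0` is positive), otherwise
`D = 0` (`kap * G' = 0`). -/
def S_WtT : Prop := ∀ l : List (Bool × ℕ), ∃ G : ℤ[X], UniT 1 (l.length - 2) G ∧
  (MMW l).trace = pA l + pB l +
    kap * (br (nA (l.map Prod.fst)) * br (nB (l.map Prod.fst)) + G)

/-- FINALT. PROOF. `D = br p * br q + G`, `p + q = N + 2`, `p, q ≥ 1`, is in `UniT 0 N` and positive for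
`j ≤ N` (`S_WtT`, `S_DetW`, `S_AlexW` as in `HM3/FinalW.lean`: `c_j = ε (-1)^j D_j`). Let `s` be the number of
`j ≥ 1` with `2 j ≤ N`, `inc D j > 0` (an initial interval `1..s`). Symmetry gives the decreasing
part. `inc D j > 0` for `j ≤ min (p, q) - 1` (`inc (br p * br q) j = 1` there), so `s ≥ min (p, q) - 1` and
`N - 2 s ≤ |p - q| = |signature|` (`S_SigW`). -/
def S_FinalT : Prop := ∀ (N : ℕ) (w : Fin (N + 2) → Bool) (k : Fin (N + 2) → ℕ),
  (∃ i, w i = true) → (∃ i, w i = false) →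
  (∀ j, j ≤ N → 0 < (-1 : ℤ) ^ j * (alexander (seifertW w k)).coeff j *
    (alexander (seifertW w k)).coeff 0) ∧
  (∀ j, N < j → (alexander (seifertW w k)).coeff j = 0) ∧
  ∃ s : ℕ, 2 * s ≤ N ∧
    (∀ j, j < s →
      |(alexander (seifertW w k)).coeff j| < |(alexander (seifertW w k)).coeff (j + 1)|) ∧
    (∀ j, s ≤ j → j + s ≤ N →
      |(alexander (seifertW w k)).coeff j| = |(alexander (seifertW w k)).coeff s|) ∧
    (∀ j, N ≤ j + s → j < N →
      |(alexander (seifertW w k)).coeff (j + 1)| < |(alexander (seifertW w k)).coeff j|) ∧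
    (N : ℤ) - 2 * s ≤ |signature (seifertW w k)|

end Pool.Agent.HM3
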