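import Pool.Agent.HM3.Spec
import Pool.Agent.HM3.DefsW

/-!
# HM3, SpecW: the weighted family

THEOREM. As in `Spec`, for ALL words with both letters (no condition on the first and the last letter)
and for bands with `2 k_c + 1` half twists, `k_c ≥ 0` arbitrary.

PROOF. The letter matrix becomes `lt c + k (1 + y)`; everything is multilinear:
`D (w, k) = ∑_S (∏_(c in S) k_c (1 + y)) D (w without S)`, and every summand is symmetric and unimodal;
the summand `S = ∅` is `[p] [q] + G`.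
-/

namespace Pool.Agent.HM3

open Polynomial Matrix

/-- ROT. PROOF. A word `u` is constant (`MM (replicate n c)`: trace `1 + X ^ n`, `br 0 = 0`, `G = 0`), or
a rotation `s ++ r` of it (`u = r ++ s`) starts with `true` and ends with `false`: `S_Norm`, `S_Blk`, the trace is
cyclic, and the numbers of letters agree. -/
def S_Rot : Prop := ∀ u : List Bool, ∃ G : ℤ[X], Uni (u.length - 2) G ∧
  (MM u).trace = X ^ nA u + X ^ nB u + kap * (br (nA u) * br (nB u) + G)

/-- WT. PROOF. Induction on `l` of the statement for `u ++ l`, `u` a word with all weights `0` (`S_Rot` for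
`l = []`, `MMW` of a word with weights `0` is `MM`). Step: all four terms (trace, `pA`, `pB`, `D`) are
linear in the letter: `ltW (c, k) = lt c + k (1 + X)`, `dA k = 1 + k (1 + X)`, `dB k = X + k (1 + X)`. So
`D (u, (c, k) :: l) = D (u c, l) + k (1 + X) D (u, l)`. The first term is `[p] [q] + G` with the right
numbers of letters, the second is `k * br 2 * D`, `D = [p'] [q'] + G'`, in `Uni (len - 1 - 2 + 1)`; `br p' * br q'`
is `0` or in `Uni (p' + q' - 2)` (`S_UniOps`). If the length `len - 1` is `≤ 1`, one of `p', q'` is `0` and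
`D = 0`: take the invariant `(G = 0 if the length is ≤ 2)` (for length `≤ 2` the matrices give `G = 0`; or
state the invariant with `d + 2 = length` or `G = 0`). -/
def S_Wt : Prop := ∀ l : List (Bool × ℕ), ∃ G : ℤ[X], Uni (l.length - 2) G ∧
  (MMW l).trace = pA l + pB l +
    kap * (br (nA (l.map Prod.fst)) * br (nB (l.map Prod.fst)) + G)

/-- LOOPSW. PROOF. `S_Loops` and `(Gᵀ diag G)_(x,y) = ∑_c k_c (1 + X) e_c(x) e_c(y)`,
`e_c(x) = [x.1.2 = c] - [x.1.1 = c]` (two different loops share at most one crossing). -/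
def S_LoopsW : Prop := ∀ (N : ℕ) (w : Fin N → Bool) (k : Fin N → ℕ) (x y : Loop w),
  ((GG w).transpose * TTW w k * GG w) x.1.2 y.1.2 =
    (if w x.1.2 then -1 else 1) * (C (seifertW w k y x) + X * C (seifertW w k x y))

/-- PHIW. PROOF. As `S_Phi`. With `d_j = dA (k j)` (`w j = true`) or `dB (k j)` (`w j = false`), `L_j = ltW (!w j, k j)
= d_j + u_j ℓ_j`, (`u = (0, 1)ᵀ`, `ℓ = (1, X - 1)` for `w j = true`; `u = (1, 0)ᵀ`, `ℓ = (1 - X, X)` for `false`),
`M_j = L_(j-1) .. L_0`, `P_j = ∏_(i ≥ j) d_i`: `Φ_j = P_(j+1) ℓ_j M_j`, `∑_(l<j) u_l Φ_l = P_j M_j - P_0`,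
`(T Φ)_j = d_j Φ_j - ℓ_j (P_j M_j - P_0) = P_0 ℓ_j`. -/
def S_PhiW : Prop := ∀ (N : ℕ) (w : Fin N → Bool) (k : Fin N → ℕ), ∃ Φ : Matrix (Fin N) (Fin 2) ℤ[X],
  (∀ j i, (TTW w k * Φ) j i =
    p0 w k * (if w j then (![1, X - 1] : Fin 2 → ℤ[X]) i else (![1 - X, X] : Fin 2 → ℤ[X]) i)) ∧
  (∀ i, (∑ j, if w j = false then Φ j i else 0) = MMW (rw' w k) 0 i - (if i = 0 then p0 w k else 0)) ∧
  (∀ i, (∑ j, if w j = true then Φ j i else 0) = MMW (rw' w k) 1 i - (if i = 1 then p0 w k else 0))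

/-- DETW. PROOF. As `S_Det`, with `det T = p0`, `det (MMW (rw' w k)) = p0 * p1`
(`det (ltW (c, k)) = dA k * dB k`), cancel `p0 ^ 2 ≠ 0`. -/
def S_DetW : Prop := ∀ (N : ℕ) (w : Fin N → Bool) (k : Fin N → ℕ), (∃ i, w i = true) → (∃ i, w i = false) →
  kap * (((GG w).transpose * TTW w k * GG w).submatrix (fun x : Loop w => x.1.2)
    (fun x : Loop w => x.1.2)).det =
  (MMW (rw' w k)).trace - p0 w k - p1 w k

/-- ALEXW. PROOF. As `S_Alex`, from `S_LoopsW`. -/
def S_AlexW : Prop := ∀ (N : ℕ) (w : Fin N → Bool) (k : Fin N → ℕ), ∃ ε : ℤ, (ε = 1 ∨ ε = -1) ∧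
  ∀ j, (alexander (seifertW w k)).coeff j = ε * (-1) ^ j *
    (((GG w).transpose * TTW w k * GG w).submatrix (fun x : Loop w => x.1.2)
      (fun x : Loop w => x.1.2)).det.coeff j

/-- SIGW. PROOF. As `S_Sig`: `∑ x_i x_j S_ij = ∓ ∑_crossings (2 k_c + 1) (E x)_c ^ 2`. -/
def S_SigW : Prop := ∀ (N : ℕ) (w : Fin N → Bool) (k : Fin N → ℕ), (∃ i, w i = true) → (∃ i, w i = false) →
  posCount (seifertW w k) + 1 = cB w ∧ negCount (seifertW w k) + 1 = cA w

/-- FINALW. PROOF. As `S_Final` (from `S_Wt`, `S_DetW`, `S_AlexW`, `S_SigW`); `pA (rw' w k) = p0 w k`,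
`pB (rw' w k) = p1 w k`, `nA ((rw' w k).map Prod.fst) = cB w`, `nB .. = cA w`. -/
def S_FinalW : Prop := ∀ (n : ℕ) (w : Fin (2 * n + 2) → Bool) (k : Fin (2 * n + 2) → ℕ),
  (∃ i, w i = true) → (∃ i, w i = false) →
  (∀ j, j ≤ 2 * n → 0 < (-1 : ℤ) ^ j * (alexander (seifertW w k)).coeff j *
    ((-1 : ℤ) ^ n * (alexander (seifertW w k)).coeff n)) ∧
  (∀ j, 2 * n < j → (alexander (seifertW w k)).coeff j = 0) ∧
  (∀ j, j < n → |(alexander (seifertW w k)).coeff j| ≤ |(alexander (seifertW w k)).coeff (j + 1)|) ∧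
  ∀ m : ℕ, m ≤ n →
    (∀ j, n ≤ j + m → j ≤ n + m →
      |(alexander (seifertW w k)).coeff j| = |(alexander (seifertW w k)).coeff n|) →
    2 * (m : ℤ) ≤ |signature (seifertW w k)|

end Pool.Agent.HM3
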